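import Pool.Agent.helper83.GR.Spec

set_option autoImplicit false

namespace Pool.Agent.GR

open Pool.Agent.helper58.DC Pool.Agent.DI

open Classical in
theorem BCL_cc {G : Type} [Group G] (H : Subgroup G) (ψ : G → ℂ) (hψ : ψ ∈ IrrOn H) (g : G) :
    omega ψ g = cc ψ (fun x => if x ∈ conjugatesOf g ∧ x ∈ H then 1 else 0) := by
  unfold omega cc
  congr 1
  refine finsum_congr (fun x => ?_)
  show ∑ᶠ (_ : x ∈ conjugatesOf g), ψ x =
    (if x ∈ conjugatesOf g ∧ x ∈ H then (1 : ℂ) else 0) * ψ x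
  by_cases h1 : x ∈ conjugatesOf g
  · by_cases h2 : x ∈ H
    · rw [if_pos ⟨h1, h2⟩, one_mul]
      exact finsum_eq_if.trans (if_pos h1)
    · rw [if_neg (fun h => h2 h.2), zero_mul, hψ.1 x h2]
      exact finsum_zero
  · rw [if_neg (fun h => h1 h.1), zero_mul]
    exact finsum_eq_if.trans (if_neg h1)

open Classical in
theorem BCL_CF {G : Type} [Group G] (H : Subgroup G) (g : G) :
    CF H (fun x : G => if x ∈ conjugatesOf g ∧ x ∈ H then (1 : ℂ) else 0) := by
  constructor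
  · intro h hh x
    have h1 : (h * x * h⁻¹ ∈ conjugatesOf g ∧ h * x * h⁻¹ ∈ H) ↔ (x ∈ conjugatesOf g ∧ x ∈ H) := by
      constructor
      · rintro ⟨ha, hb⟩
        refine ⟨?_, ?_⟩
        · have ha' : IsConj g (h * x * h⁻¹) := ha
          have hc : IsConj (h * x * h⁻¹) x := isConj_iff.2 ⟨h⁻¹, by group⟩
          exact ha'.trans hc
        · have := H.mul_mem (H.mul_mem (H.inv_mem hh) hb) hh
          have e : h⁻¹ * (h * x * h⁻¹) * h = x := by group
          rwa [e] at this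
      · rintro ⟨ha, hb⟩
        refine ⟨?_, H.mul_mem (H.mul_mem hh hb) (H.inv_mem hh)⟩
        have ha' : IsConj g x := ha
        have hc : IsConj x (h * x * h⁻¹) := isConj_iff.2 ⟨h, rfl⟩
        exact ha'.trans hc
    show (if h * x * h⁻¹ ∈ conjugatesOf g ∧ h * x * h⁻¹ ∈ H then (1 : ℂ) else 0) =
      if x ∈ conjugatesOf g ∧ x ∈ H then (1 : ℂ) else 0
    by_cases hc : x ∈ conjugatesOf g ∧ x ∈ H
    · rw [if_pos hc, if_pos (h1.2 hc)]
    · rw [if_neg hc, if_neg (fun h => hc (h1.1 h))]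
  · intro x hx
    exact if_neg (fun h => hx h.2)

theorem BCL : BCL_stmt := by
  classical
  intro G _ _ M χ H
  constructor
  · intro ψ hψ
    exact hψ.1
  · intro ψ hψ ψ' hψ' hz
    refine ⟨hψ', ?_⟩
    intro g
    obtain ⟨a, ha, ha'⟩ := hψ.2 g
    obtain ⟨c, hc, hc'⟩ := hz (fun x : G => if x ∈ conjugatesOf g ∧ x ∈ H then (1 : ℂ) else 0)
      (BCL_CF H g) (by
        intro x
        show IsIntegral ℤ (if x ∈ conjugatesOf g ∧ x ∈ H then (1 : ℂ) else 0)
        by_cases hc : x ∈ conjugatesOf g ∧ x ∈ H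
        · rw [if_pos hc]; exact isIntegral_one
        · rw [if_neg hc]; exact isIntegral_zero)
    refine ⟨a - c, M.sub_mem ha hc, ?_⟩
    rw [← BCL_cc H ψ hψ.1 g, ← BCL_cc H ψ' hψ' g] at hc'
    have e : ((a - c : integralClosure ℤ ℂ) : ℂ) = (a : ℂ) - (c : ℂ) := rfl
    rw [e, ← ha', ← hc']
    ring

end Pool.Agent.GR
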