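import Mathlib

/-! Weighted two-coloured complete graphs (for MP_89787e_co, Gallai-Ramsey numbers): clique bounds
and the exponential estimate. -/

set_option autoImplicit false

namespace Pool.Agent.helper21.GR

variable {V : Type*}

/-- every clique of the relation `r` inside `S` has total `x`-weight at most `a` -/
def Bd (r : V → V → Prop) (S : Finset V) (x : V → ℕ) (a : ℕ) : Prop :=
  ∀ K ⊆ S, (∀ u ∈ K, ∀ v ∈ K, u ≠ v → r u v) → ∑ v ∈ K, x v ≤ a

theorem Bd.mono {r : V → V → Prop} {S S' : Finset V} {x : V → ℕ} {a : ℕ} (h : Bd r S x a)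
    (hS : S' ⊆ S) : Bd r S' x a :=
  fun K hK hc => h K (hK.trans hS) hc

theorem Bd.le {r : V → V → Prop} {S : Finset V} {x : V → ℕ} {a b : ℕ} (h : Bd r S x a)
    (hab : a ≤ b) : Bd r S x b :=
  fun K hK hc => (h K hK hc).trans hab

theorem Bd.single {r : V → V → Prop} {S : Finset V} {x : V → ℕ} {a : ℕ} (h : Bd r S x a)
    {v : V} (hv : v ∈ S) : x v ≤ a := by
  have := h {v} (by simpa using hv) (by
    intro u hu w hw huw
    rw [Finset.mem_singleton] at hu hw
    exact absurd (hu.trans hw.symm) huw)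
  simpa using this

theorem Bd.one {r : V → V → Prop} {S : Finset V} {x : V → ℕ} {a : ℕ} (h : Bd r S x a)
    (hx : ∀ v, 1 ≤ x v) : Bd r S (fun _ => 1) a := by
  intro K hK hc
  exact (Finset.sum_le_sum (fun v _ => hx v)).trans (h K hK hc)

variable [DecidableEq V]

theorem Bd.nbr {r : V → V → Prop} (hs : ∀ u v, r u v → r v u) {S : Finset V} {x : V → ℕ} {a : ℕ}
    (h : Bd r S x a) {v : V} (hv : v ∈ S) {N : Finset V} (hN : N ⊆ S)
    (hN' : ∀ u ∈ N, u ≠ v ∧ r v u) : Bd r N x (a - x v) := by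
  intro K hK hc
  have hvK : v ∉ K := fun hv' => (hN' v (hK hv')).1 rfl
  have := h (insert v K) (by
    intro u hu
    rcases Finset.mem_insert.1 hu with e | hu'
    · rw [e]; exact hv
    · exact hN (hK hu')) (by
    intro u hu w hw huw
    rcases Finset.mem_insert.1 hu with e | hu'
    · rcases Finset.mem_insert.1 hw with e' | hw'
      · exact absurd (e.trans e'.symm) huw
      · rw [e]; exact (hN' w (hK hw')).2
    · rcases Finset.mem_insert.1 hw with e' | hw'
      · rw [e']; exact hs _ _ (hN' u (hK hu')).2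
      · exact hc u hu' w hw' huw)
  rw [Finset.sum_insert hvK] at this
  omega

open Classical in
/-- splitting a sum at a vertex -/
theorem sum_split (r : V → V → Prop) {S : Finset V} {v : V} (hv : v ∈ S) (φ : V → ℝ) :
    ∑ u ∈ S, φ u = φ v + ∑ u ∈ S.filter (fun u => u ≠ v ∧ r v u), φ u +
      ∑ u ∈ S.filter (fun u => u ≠ v ∧ ¬ r v u), φ u := by
  rw [← Finset.add_sum_erase S φ hv, add_assoc]
  congr 1
  rw [← Finset.sum_filter_add_sum_filter_not (S.erase v) (fun u => r v u)]
  congr 1 <;>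
  · apply Finset.sum_congr _ (fun _ _ => rfl)
    ext u
    simp only [Finset.mem_filter, Finset.mem_erase]
    tauto

/-- `64 ^ (a - 1)` for `a ≥ 1`, and `0` for `a = 0`. -/
noncomputable def z (a : ℕ) : ℝ := if a = 0 then 0 else 64 ^ (a - 1)

theorem z_nonneg (a : ℕ) : 0 ≤ z a := by
  unfold z; split_ifs <;> positivity

theorem z_succ (a : ℕ) : z (a + 1) = 64 ^ a := by
  unfold z; simp

/-- exponential estimate -/
theorem expo {r : V → V → Prop} (hs : ∀ u v, r u v → r v u) {x : V → ℕ} (hx : ∀ v, 1 ≤ x v) :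
    ∀ (S : Finset V) (a b : ℕ), Bd r S x a → Bd (fun u v => ¬ r u v) S (fun _ => 1) b →
      ∑ v ∈ S, (64 : ℝ) ^ (x v - 1) ≤ z a * (41 / 40) ^ b * 40 := by
  classical
  intro S
  induction S using Finset.strongInduction with
  | H S ih =>
    intro a b ha hb
    rcases S.eq_empty_or_nonempty with rfl | ⟨v, hv⟩
    · have := z_nonneg a
      simp only [Finset.sum_empty]
      positivity
    have hxa := ha.single hv
    have hb1 : 1 ≤ b := hb.single hv
    have hx1 := hx v
    obtain ⟨a', rfl⟩ : ∃ a', a = a' + 1 := ⟨a - 1, by omega⟩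
    obtain ⟨b', rfl⟩ : ∃ b', b = b' + 1 := ⟨b - 1, by omega⟩
    have hs' : ∀ u v, ¬ r u v → ¬ r v u := fun u v h h' => h (hs _ _ h')
    set N1 := S.filter (fun u => u ≠ v ∧ r v u) with hN1
    set N2 := S.filter (fun u => u ≠ v ∧ ¬ r v u) with hN2
    have s1 : N1 ⊂ S := by
      refine Finset.ssubset_iff_subset_ne.2 ⟨Finset.filter_subset _ _, fun h => ?_⟩
      rw [← h, hN1, Finset.mem_filter] at hv
      exact hv.2.1 rfl
    have s2 : N2 ⊂ S := by
      refine Finset.ssubset_iff_subset_ne.2 ⟨Finset.filter_subset _ _, fun h => ?_⟩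
      rw [← h, hN2, Finset.mem_filter] at hv
      exact hv.2.1 rfl
    have e1 := ih N1 s1 (a' + 1 - x v) (b' + 1)
      (ha.nbr hs hv s1.1 (fun u hu => (Finset.mem_filter.1 hu).2)) (hb.mono s1.1)
    have e2 := ih N2 s2 (a' + 1) b' (ha.mono s2.1) (by
      have := hb.nbr hs' hv s2.1 (fun u hu => (Finset.mem_filter.1 hu).2)
      simpa using this)
    rw [sum_split r hv (fun u => (64 : ℝ) ^ (x u - 1)), ← hN1, ← hN2]
    rw [z_succ] at e2 ⊢
    set T : ℝ := (41 / 40 : ℝ) ^ b' with hT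
    have hT1 : 1 ≤ T := one_le_pow₀ (by norm_num)
    rw [pow_succ] at e1 ⊢
    rw [← hT] at e1 ⊢
    rcases Nat.lt_or_ge (x v) (a' + 1) with hlt | hge
    · obtain ⟨c, hc⟩ : ∃ c, a' = c + 1 := ⟨a' - 1, by omega⟩
      have p1 : (64 : ℝ) ^ (x v - 1) ≤ 64 ^ c := pow_le_pow_right₀ (by norm_num) (by omega)
      have p2 : z (a' + 1 - x v) ≤ 64 ^ c := by
        rw [show a' + 1 - x v = (a' - x v) + 1 by omega, z_succ]
        exact pow_le_pow_right₀ (by norm_num) (by omega)
      have hc0 : (0 : ℝ) < 64 ^ c := by positivity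
      have p3 : z (a' + 1 - x v) * (T * (41 / 40)) * 40 ≤ 64 ^ c * (T * (41 / 40)) * 40 := by
        gcongr
      rw [hc, pow_succ] at e2 ⊢
      nlinarith
    · have hxeq : x v = a' + 1 := le_antisymm hxa hge
      have p2 : z (a' + 1 - x v) = 0 := by
        rw [hxeq]; simp [z]
      rw [p2] at e1
      have p1 : x v - 1 = a' := by omega
      rw [p1]
      have hc0 : (0 : ℝ) < 64 ^ a' := by positivity
      nlinarith [mul_le_mul_of_nonneg_left hT1 hc0.le]

/-- number of vertices -/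
theorem card_le_exp {r : V → V → Prop} (hs : ∀ u v, r u v → r v u) (S : Finset V) (a b : ℕ)
    (ha : Bd r S (fun _ => 1) a) (hb : Bd (fun u v => ¬ r u v) S (fun _ => 1) b) :
    (S.card : ℝ) ≤ 64 ^ a * (41 / 40) ^ b * 40 := by
  have h := expo hs (x := fun _ => 1) (fun _ => le_rfl) S a b ha hb
  have h1 : ∑ v ∈ S, (64 : ℝ) ^ ((fun _ : V => 1) v - 1) = S.card := by simp
  rw [h1] at h
  refine h.trans ?_
  have : z a ≤ 64 ^ a := by
    unfold z
    split_ifs
    · positivity
    · exact pow_le_pow_right₀ (by norm_num) (by omega)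
  gcongr

end Pool.Agent.helper21.GR
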