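import Mathlib

/-! Gallai colourings: a colouring without rainbow triangles that uses three colours has a
nontrivial homogeneous set (for MP_89787e_co). -/

set_option autoImplicit false
set_option linter.unusedSectionVars false

namespace Pool.Agent.helper21.GR

variable {V K : Type*} [DecidableEq V]

/-- symmetric colouring without rainbow triangles -/
structure Gal (c : V → V → K) : Prop where
  symm : ∀ u v, c u v = c v u
  gal : ∀ u v w, u ≠ v → v ≠ w → u ≠ w → c u v = c v w ∨ c v w = c u w ∨ c u v = c u w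

/-- no edge of colour `i` leaves `M` inside `S` -/
def Closed (c : V → V → K) (i : K) (S M : Finset V) : Prop :=
  M ⊆ S ∧ ∀ u ∈ M, ∀ v ∈ S, v ∉ M → c u v ≠ i

theorem Closed.compl {c : V → V → K} (G : Gal c) {i : K} {S M : Finset V} (h : Closed c i S M) :
    Closed c i S (S \ M) := by
  refine ⟨Finset.sdiff_subset, fun u hu v hv hv' => ?_⟩
  rw [Finset.mem_sdiff] at hu hv'
  have hvM : v ∈ M := by
    by_contra hc
    exact hv' ⟨hv, hc⟩
  rw [G.symm]
  exact h.2 v hvM u hu.1 hu.2

open Classical in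
/-- the component of `x` in colour `i` -/
noncomputable def comp (c : V → V → K) (i : K) (S : Finset V) (x : V) : Finset V :=
  S.filter (fun y => ∀ M, Closed c i S M → x ∈ M → y ∈ M)

theorem mem_comp {c : V → V → K} {i : K} {S : Finset V} {x y : V} :
    y ∈ comp c i S x ↔ y ∈ S ∧ ∀ M, Closed c i S M → x ∈ M → y ∈ M := by
  classical
  unfold comp
  rw [Finset.mem_filter]

theorem mem_comp_self {c : V → V → K} {i : K} {S : Finset V} {x : V} (hx : x ∈ S) :
    x ∈ comp c i S x := by
  rw [mem_comp]
  exact ⟨hx, fun M _ h => h⟩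

theorem comp_sub {c : V → V → K} {i : K} {S M : Finset V} {x : V} (h : Closed c i S M)
    (hx : x ∈ M) : comp c i S x ⊆ M := by
  intro y hy
  exact (mem_comp.1 hy).2 M h hx

theorem comp_closed (c : V → V → K) (i : K) (S : Finset V) (x : V) :
    Closed c i S (comp c i S x) := by
  refine ⟨fun y hy => (mem_comp.1 hy).1, fun u hu v hv hv' => ?_⟩
  rw [mem_comp] at hu hv'
  have : ¬ ∀ M, Closed c i S M → x ∈ M → v ∈ M := fun h => hv' ⟨hv, h⟩
  push Not at this
  obtain ⟨M, hM, hxM, hvM⟩ := this
  exact hM.2 u (hu.2 M hM hxM) v hv hvM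

/-- a component is homogeneous -/
theorem comp_hom {c : V → V → K} (G : Gal c) {i : K} {S : Finset V} {x y : V} (hx : x ∈ S)
    (hy : y ∈ S) (hyc : y ∉ comp c i S x) : ∀ u ∈ comp c i S x, c y u = c y x := by
  classical
  have hC := comp_closed c i S x
  have hM : Closed c i S ((comp c i S x).filter (fun z => c y z = c y x)) := by
    refine ⟨(Finset.filter_subset _ _).trans hC.1, fun z hz z' hz' hn => ?_⟩
    rw [Finset.mem_filter] at hz hn
    by_cases hz'c : z' ∈ comp c i S x
    · intro he
      have h1 : c y z' ≠ c y x := fun h => hn ⟨hz'c, h⟩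
      have h2 : c z y ≠ i := hC.2 z hz.1 y hy hyc
      have h3 : c z' y ≠ i := hC.2 z' hz'c y hy hyc
      have n1 : y ≠ z := fun h => hyc (h ▸ hz.1)
      have n2 : z ≠ z' := fun h => h1 (h ▸ hz.2)
      have n3 : y ≠ z' := fun h => hyc (h ▸ hz'c)
      rcases G.gal y z z' n1 n2 n3 with h | h | h
      · exact h2 (by rw [G.symm z y, h, he])
      · exact h3 (by rw [G.symm z' y, ← h, he])
      · exact h1 (by rw [← h, hz.2])
    · exact hC.2 z hz.1 z' hz' hz'c
  intro u hu
  have := comp_sub hM (Finset.mem_filter.2 ⟨mem_comp_self hx, rfl⟩) hu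
  exact (Finset.mem_filter.1 this).2

/-- colour `i` is connected on `S` -/
def Conn (c : V → V → K) (i : K) (S : Finset V) : Prop :=
  ∀ M, Closed c i S M → M.Nonempty → M = S

theorem comp_ne {c : V → V → K} (G : Gal c) {i : K} {S : Finset V} (h : ¬ Conn c i S) {x : V}
    (hx : x ∈ S) : comp c i S x ≠ S := by
  unfold Conn at h
  push Not at h
  obtain ⟨M, hM, hne, hMS⟩ := h
  intro hc
  by_cases hxM : x ∈ M
  · have := comp_sub hM hxM
    rw [hc] at this
    exact hMS (Finset.Subset.antisymm hM.1 this)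
  · have := comp_sub (hM.compl G) (Finset.mem_sdiff.2 ⟨hx, hxM⟩)
    rw [hc] at this
    obtain ⟨y, hy⟩ := hne
    exact (Finset.mem_sdiff.1 (this (hM.1 hy))).2 hy

theorem core {c : V → V → K} (G : Gal c) {i j l : K} (hij : i ≠ j) (hil : i ≠ l) (hjl : j ≠ l)
    {S : Finset V} (ci : Conn c i S) (cj : Conn c j S) (cl : Conn c l S) {v : V} (hv : v ∈ S)
    (h : ¬ Conn c i (S.erase v)) : False := by
  have hS' : ∃ y ∈ S.erase v, True := by
    unfold Conn at h
    push Not at h
    obtain ⟨M, hM, ⟨y, hy⟩, -⟩ := h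
    exact ⟨y, hM.1 hy, trivial⟩
  obtain ⟨y0, hy0, -⟩ := hS'
  -- edges of all connected colours at `v`
  have edge : ∀ e : K, Conn c e S → ∃ x ∈ S.erase v, c v x = e := by
    intro e he
    by_contra hcon
    push Not at hcon
    have hcl : Closed c e S {v} := by
      refine ⟨by simpa using hv, fun u hu w hw hw' => ?_⟩
      rw [Finset.mem_singleton] at hu hw'
      rw [hu]
      exact hcon w (Finset.mem_erase.2 ⟨hw', hw⟩)
    have := he {v} hcl (Finset.singleton_nonempty v)
    rw [← this, Finset.mem_erase, Finset.mem_singleton] at hy0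
    exact hy0.1 hy0.2
  obtain ⟨x, hx, hvx⟩ := edge j cj
  obtain ⟨x', hx', hvx'⟩ := edge l cl
  have mem_ne : ∀ {y : V}, y ∈ S.erase v → v ≠ y := fun hy => (Finset.ne_of_mem_erase hy).symm
  -- `v` has an `i`-edge to every closed set
  have toM : ∀ M, Closed c i (S.erase v) M → M.Nonempty → ∃ z ∈ M, c v z = i := by
    intro M hM hne
    by_contra hcon
    push Not at hcon
    have hcl : Closed c i S M := by
      refine ⟨hM.1.trans (Finset.erase_subset _ _), fun u hu w hw hw' => ?_⟩
      by_cases hwv : w = v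
      · rw [hwv, G.symm]; exact hcon u hu
      · exact hM.2 u hu w (Finset.mem_erase.2 ⟨hwv, hw⟩) hw'
    have := ci M hcl hne
    have hvM : v ∈ M := by rw [this]; exact hv
    exact (Finset.mem_erase.1 (hM.1 hvM)).1 rfl
  -- third edge of a triangle
  have tri : ∀ {e : K} {p q : V}, p ∈ S.erase v → q ∈ S.erase v → p ≠ q → c v p = e → e ≠ i →
      c v q = i → c p q ≠ i → c p q = e := by
    intro e p q hp hq hpq h1 he h2 h3
    rcases G.gal v p q (mem_ne hp) hpq (mem_ne hq) with h | h | h
    · rw [← h, h1]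
    · exact absurd (h.trans h2) h3
    · rw [h1, h2] at h; exact absurd h he
  have hC := comp_closed c i (S.erase v) x
  have hCne := comp_ne G h hx
  by_cases hxx : x' ∈ comp c i (S.erase v) x
  · have hne : ((S.erase v) \ comp c i (S.erase v) x).Nonempty := by
      rw [Finset.sdiff_nonempty]
      intro hsub
      exact hCne (Finset.Subset.antisymm hC.1 hsub)
    obtain ⟨y, hy, hvy⟩ := toM _ (hC.compl G) hne
    rw [Finset.mem_sdiff] at hy
    have hxc := mem_comp_self (c := c) (i := i) hx
    have e1 : c x y = j := tri hx hy.1 (fun h => hy.2 (h ▸ hxc)) hvx hij.symm hvy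
      (hC.2 x hxc y hy.1 hy.2)
    have e2 : c x' y = l := tri hx' hy.1 (fun h => hy.2 (h ▸ hxx)) hvx' hil.symm hvy
      (hC.2 x' hxx y hy.1 hy.2)
    have e3 := comp_hom G hx hy.1 hy.2 x' hxx
    rw [G.symm y x', G.symm y x, e1, e2] at e3
    exact hjl e3.symm
  · have hC' := comp_closed c i (S.erase v) x'
    have hsub : comp c i (S.erase v) x' ⊆ (S.erase v) \ comp c i (S.erase v) x :=
      comp_sub (hC.compl G) (Finset.mem_sdiff.2 ⟨hx', hxx⟩)
    have hxc := mem_comp_self (c := c) (i := i) hx
    have hxc' := mem_comp_self (c := c) (i := i) hx'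
    have hxn : x ∉ comp c i (S.erase v) x' := fun h' => (Finset.mem_sdiff.1 (hsub h')).2 hxc
    obtain ⟨y, hy, hvy⟩ := toM _ hC' ⟨x', hxc'⟩
    obtain ⟨z, hz, hvz⟩ := toM _ hC ⟨x, hxc⟩
    have hyS := hC'.1 hy
    have hzS := hC.1 hz
    have hyn : y ∉ comp c i (S.erase v) x := (Finset.mem_sdiff.1 (hsub hy)).2
    have e1 : c x y = j := tri hx hyS (fun h => hxn (h ▸ hy)) hvx hij.symm hvy
      (hC.2 x hxc y hyS hyn)
    have e2 : c x y = c x x' := comp_hom G hx' hx hxn y hy
    have e3 : c x' z = l := tri hx' hzS (fun h => hxx (h ▸ hz)) hvx' hil.symm hvz (by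
      rw [G.symm]
      exact hC.2 z hz x' hx' hxx)
    have e4 : c x' z = c x' x := comp_hom G hx hx' hxx z hz
    apply hjl
    rw [← e1, e2, ← e3, e4]
    exact G.symm _ _

/-- three colours cannot all be connected -/
theorem not_conn {c : V → V → K} (G : Gal c) {i j l : K} (hij : i ≠ j) (hil : i ≠ l)
    (hjl : j ≠ l) : ∀ S : Finset V, 2 ≤ S.card → Conn c i S → Conn c j S → Conn c l S → False := by
  intro S
  induction S using Finset.strongInduction with
  | H S ih =>
    intro hS ci cj cl
    obtain ⟨v, hv⟩ : S.Nonempty := by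
      rw [← Finset.card_pos]; omega
    by_cases h1 : Conn c i (S.erase v)
    · by_cases h2 : Conn c j (S.erase v)
      · by_cases h3 : Conn c l (S.erase v)
        · by_cases h4 : 2 ≤ (S.erase v).card
          · exact ih _ (Finset.erase_ssubset hv) h4 h1 h2 h3
          · -- `S` has two elements
            have h5 : S.card = 2 := by
              rw [Finset.card_erase_of_mem hv] at h4; omega
            obtain ⟨a, b, hab, rfl⟩ := Finset.card_eq_two.1 h5
            have key : ∀ e : K, Conn c e {a, b} → c a b = e := by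
              intro e he
              by_contra hne
              have hcl : Closed c e {a, b} {a} := by
                refine ⟨by simp, fun u hu w hw hw' => ?_⟩
                rw [Finset.mem_singleton] at hu hw'
                rw [Finset.mem_insert, Finset.mem_singleton] at hw
                rcases hw with hw | hw
                · exact absurd hw hw'
                · rw [hu, hw]; exact hne
              have := he {a} hcl (Finset.singleton_nonempty a)
              have hb : b ∈ ({a} : Finset V) := by rw [this]; simp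
              rw [Finset.mem_singleton] at hb
              exact hab hb.symm
            exact hij ((key i ci).symm.trans (key j cj))
        · exact core G hil.symm hjl.symm hij cl ci cj hv h3
      · exact core G hij.symm hjl hil cj ci cl hv h2
    · exact core G hij hil hjl ci cj cl hv h1

/-- a homogeneous set inside a colouring with three colours -/
theorem exists_module {c : V → V → K} (G : Gal c) {S : Finset V} {i j l : K} (hij : i ≠ j)
    (hil : i ≠ l) (hjl : j ≠ l) (hi : ∃ u ∈ S, ∃ v ∈ S, u ≠ v ∧ c u v = i)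
    (hj : ∃ u ∈ S, ∃ v ∈ S, u ≠ v ∧ c u v = j) (hl : ∃ u ∈ S, ∃ v ∈ S, u ≠ v ∧ c u v = l) :
    ∃ M ⊆ S, M ≠ S ∧ (∃ u ∈ M, ∃ v ∈ M, u ≠ v) ∧
      ∀ y ∈ S, y ∉ M → ∀ u ∈ M, ∀ u' ∈ M, c y u = c y u' := by
  have fin : ∀ e : K, (∃ u ∈ S, ∃ v ∈ S, u ≠ v ∧ c u v = e) → ¬ Conn c e S →
      ∃ M ⊆ S, M ≠ S ∧ (∃ u ∈ M, ∃ v ∈ M, u ≠ v) ∧
      ∀ y ∈ S, y ∉ M → ∀ u ∈ M, ∀ u' ∈ M, c y u = c y u' := by
    rintro e ⟨u, hu, v, hv, huv, he⟩ hn
    have hC := comp_closed c e S u
    refine ⟨comp c e S u, hC.1, comp_ne G hn hu, ⟨u, mem_comp_self hu, v, ?_, huv⟩, ?_⟩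
    · by_contra hc
      exact hC.2 u (mem_comp_self hu) v hv hc he
    · intro y hy hy' p hp p' hp'
      rw [comp_hom G hu hy hy' p hp, comp_hom G hu hy hy' p' hp']
  by_cases h1 : Conn c i S
  · by_cases h2 : Conn c j S
    · apply fin l hl
      intro h3
      obtain ⟨u, hu, v, hv, huv, -⟩ := hi
      refine not_conn G hij hil hjl S ?_ h1 h2 h3
      exact Finset.one_lt_card.2 ⟨u, hu, v, hv, huv⟩
    · exact fin j hj h2
  · exact fin i hi h1

end Pool.Agent.helper21.GR
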