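import Pool.Agent.helper21.GR.Base
import Pool.Agent.helper21.GR.Gallai

/-! Potentials: a two-colour inequality for a potential gives an upper bound for the size of every
Gallai coloured complete graph (for MP_89787e_co). -/

set_option autoImplicit false
set_option linter.unusedSectionVars false

namespace Pool.Agent.helper21.GR

variable {V K : Type*} [DecidableEq V] [DecidableEq K]

/-- maximal weight of a clique of colour `l` inside `M` -/
theorem exists_max (r : V → V → Prop) (M : Finset V) (x : V → ℕ) :
    ∃ B : ℕ, Bd r M x B ∧ ∃ Q ⊆ M, (∀ u ∈ Q, ∀ v ∈ Q, u ≠ v → r u v) ∧ ∑ v ∈ Q, x v = B := by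
  obtain ⟨P, hP⟩ : ∃ P : Finset V → Prop, ∀ Q, P Q ↔ ∀ u ∈ Q, ∀ v ∈ Q, u ≠ v → r u v :=
    ⟨_, fun _ => Iff.rfl⟩
  classical
  have hne : (M.powerset.filter P).Nonempty := by
    refine ⟨∅, Finset.mem_filter.2 ⟨by simp, (hP _).2 ?_⟩⟩
    intro u hu
    simp at hu
  obtain ⟨Q, hQ, hmax⟩ := Finset.exists_max_image _ (fun Q => ∑ v ∈ Q, x v) hne
  rw [Finset.mem_filter, Finset.mem_powerset, hP] at hQ
  refine ⟨∑ v ∈ Q, x v, fun T hT hc => ?_, Q, hQ.1, hQ.2, rfl⟩
  exact hmax T (Finset.mem_filter.2 ⟨Finset.mem_powerset.2 hT, (hP _).2 hc⟩)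

/-- the two-colour inequality for a potential `F` -/
def TwoIneq (V : Type*) (m : ℕ) (F : (K → ℕ) → ℝ) : Prop :=
  ∀ i j : K, i ≠ j → ∀ A : K → ℕ, (∀ l, A l ≤ m) → ∀ r : V → V → Prop, (∀ u v, r u v → r v u) →
    ∀ (S : Finset V) (x y : V → ℕ), (∀ v, 1 ≤ x v) → (∀ v, 1 ≤ y v) →
    Bd r S x (A i) → Bd (fun u v => ¬ r u v) S y (A j) →
    ∑ v ∈ S, F (Function.update (Function.update A i (x v)) j (y v)) ≤ F A

theorem potential {m : ℕ} {F : (K → ℕ) → ℝ} (hmono : ∀ A B : K → ℕ, (∀ l, A l ≤ B l) → F A ≤ F B)
    (H : TwoIneq V m F) {i₀ j₀ : K} (hij₀ : i₀ ≠ j₀) {c : V → V → K}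
    (G : Gal c) : ∀ (S : Finset V) (x : V → K → ℕ) (A : K → ℕ), (∀ v l, 1 ≤ x v l) →
      (∀ l, A l ≤ m) → (∀ l, Bd (fun u v => c u v = l) S (fun v => x v l) (A l)) →
      ∑ v ∈ S, F (x v) ≤ F A := by
  classical
  intro S
  induction S using Finset.strongInduction with
  | H S ih =>
    intro x A hx hA hB
    by_cases htwo : ∃ i j : K, i ≠ j ∧ ∀ u ∈ S, ∀ v ∈ S, u ≠ v → c u v = i ∨ c u v = j
    · -- two colours
      obtain ⟨i, j, hij, hc⟩ := htwo
      have h1 := H i j hij A hA (fun u v => c u v = i) (fun u v h => by rw [G.symm]; exact h) S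
        (fun v => x v i) (fun v => x v j) (fun v => hx v i) (fun v => hx v j) (hB i) (by
          intro Q hQ hQc
          apply hB j Q hQ
          intro u hu v hv huv
          rcases hc u (hQ hu) v (hQ hv) huv with h | h
          · exact absurd h (hQc u hu v hv huv)
          · exact h)
      refine (Finset.sum_le_sum (fun v hv => hmono _ _ (fun l => ?_))).trans h1
      rw [Function.update_apply, Function.update_apply]
      split_ifs with h2 h3
      · rw [h2]
      · rw [h3]
      · exact (hB l).single hv
    · push Not at htwo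
      -- three colours are used
      obtain ⟨u₁, hu₁, v₁, hv₁, hne₁, hc₁⟩ := htwo i₀ j₀ hij₀
      have hcol1 : c u₁ v₁ ≠ i₀ := hc₁.1
      obtain ⟨u₂, hu₂, v₂, hv₂, hne₂, hc₂⟩ := htwo (c u₁ v₁) i₀ hcol1
      obtain ⟨u₃, hu₃, v₃, hv₃, hne₃, hc₃⟩ := htwo (c u₁ v₁) (c u₂ v₂) hc₂.1.symm
      obtain ⟨M, hMS, hMne, ⟨p, hp, q, hq, hpq⟩, hM⟩ := exists_module G (S := S)
        (i := c u₁ v₁) (j := c u₂ v₂) (l := c u₃ v₃) hc₂.1.symm hc₃.1.symm hc₃.2.symm
        ⟨u₁, hu₁, v₁, hv₁, hne₁, rfl⟩ ⟨u₂, hu₂, v₂, hv₂, hne₂, rfl⟩ ⟨u₃, hu₃, v₃, hv₃, hne₃, rfl⟩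
      choose B hB1 Q hQM hQc hQs using fun l : K => exists_max (fun u v => c u v = l) M (fun v => x v l)
      have hBA : ∀ l, B l ≤ A l := by
        intro l
        rw [← hQs l]
        exact hB l (Q l) ((hQM l).trans hMS) (hQc l)
      have hB1' : ∀ l, 1 ≤ B l := fun l => (hx p l).trans ((hB1 l).single hp)
      have hMss : M ⊂ S := Finset.ssubset_iff_subset_ne.2 ⟨hMS, hMne⟩
      have e1 := ih M hMss x B hx (fun l => (hBA l).trans (hA l)) hB1
      -- contraction
      set S' : Finset V := insert p (S \ M) with hS'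
      have hpn : p ∉ S \ M := fun h => (Finset.mem_sdiff.1 h).2 hp
      have hS'sub : S' ⊆ S := by
        intro u hu
        rcases Finset.mem_insert.1 hu with h | h
        · rw [h]; exact hMS hp
        · exact (Finset.mem_sdiff.1 h).1
      have hS'ss : S' ⊂ S := by
        refine Finset.ssubset_iff_subset_ne.2 ⟨hS'sub, fun h => ?_⟩
        have : q ∈ S' := by rw [h]; exact hMS hq
        rcases Finset.mem_insert.1 this with h' | h'
        · exact hpq h'.symm
        · exact (Finset.mem_sdiff.1 h').2 hq
      set x' : V → K → ℕ := fun v => if v = p then B else x v with hx'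
      have hx'1 : ∀ v l, 1 ≤ x' v l := by
        intro v l
        rw [hx']
        by_cases h : v = p
        · simp only [h, if_true]; exact hB1' l
        · simp only [h, if_false]; exact hx v l
      have hB' : ∀ l, Bd (fun u v => c u v = l) S' (fun v => x' v l) (A l) := by
        intro l P hP hPc
        by_cases hpP : p ∈ P
        · have hR : P.erase p ⊆ S \ M := by
            intro u hu
            rw [Finset.mem_erase] at hu
            rcases Finset.mem_insert.1 (hP hu.2) with h | h
            · exact absurd h hu.1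
            · exact h
          have hdis : Disjoint (P.erase p) (Q l) := by
            rw [Finset.disjoint_left]
            intro u hu hu'
            exact (Finset.mem_sdiff.1 (hR hu)).2 (hQM l hu')
          have hcl := hB l (P.erase p ∪ Q l) (by
            intro u hu
            rcases Finset.mem_union.1 hu with h | h
            · exact (Finset.mem_sdiff.1 (hR h)).1
            · exact hMS (hQM l h)) (by
            have cross : ∀ u ∈ P.erase p, ∀ v ∈ Q l, c u v = l := by
              intro u hu v hv
              have hu' := Finset.mem_sdiff.1 (hR hu)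
              rw [hM u hu'.1 hu'.2 v (hQM l hv) p hp]
              rw [Finset.mem_erase] at hu
              exact hPc u hu.2 p hpP hu.1
            intro u hu v hv huv
            rcases Finset.mem_union.1 hu with h | h
            · rcases Finset.mem_union.1 hv with h' | h'
              · exact hPc u (Finset.mem_of_mem_erase h) v (Finset.mem_of_mem_erase h') huv
              · exact cross u h v h'
            · rcases Finset.mem_union.1 hv with h' | h'
              · show c u v = l
                rw [G.symm]; exact cross v h' u h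
              · exact hQc l u h v h' huv)
          rw [Finset.sum_union hdis, hQs l] at hcl
          rw [← Finset.add_sum_erase P _ hpP]
          have e2 : ∑ v ∈ P.erase p, x' v l = ∑ v ∈ P.erase p, x v l := by
            apply Finset.sum_congr rfl
            intro v hv
            rw [hx']
            simp only [(Finset.mem_erase.1 hv).1, if_false]
          have e3 : x' p l = B l := by rw [hx']; simp
          rw [e2, e3]
          omega
        · have hP' : P ⊆ S := hP.trans hS'sub
          have e2 : ∑ v ∈ P, x' v l = ∑ v ∈ P, x v l := by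
            apply Finset.sum_congr rfl
            intro v hv
            have : v ≠ p := fun h => hpP (h ▸ hv)
            rw [hx']
            simp only [this, if_false]
          rw [e2]
          exact hB l P hP' hPc
      have e2 := ih S' hS'ss x' A hx'1 hA hB'
      rw [hS', Finset.sum_insert hpn] at e2
      have e3 : ∑ v ∈ S \ M, F (x' v) = ∑ v ∈ S \ M, F (x v) := by
        apply Finset.sum_congr rfl
        intro v hv
        have : v ≠ p := fun h => hpn (h ▸ hv)
        rw [hx']
        simp only [this, if_false]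
      have e4 : x' p = B := by rw [hx']; simp
      rw [e3, e4] at e2
      have e5 : ∑ v ∈ S, F (x v) = ∑ v ∈ S \ M, F (x v) + ∑ v ∈ M, F (x v) :=
        (Finset.sum_sdiff hMS).symm
      rw [e5]
      linarith

end Pool.Agent.helper21.GR
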