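import Pool.Agent.helper21.GR.Base

/-! Two-colour Ramsey numbers: finiteness, restriction, Erdos lower bound (for MP_89787e_co). -/

set_option autoImplicit false
set_option linter.unusedSectionVars false

namespace Pool.Agent.helper21.GR

/-- `n` such that every two-colouring of `K_n` has a monochromatic `K_t` -/
def RSet (t : ℕ) : Set ℕ :=
  {n : ℕ | ∀ f : Fin n → Fin n → Fin 2, (∀ a b : Fin n, f a b = f b a) →
    ∃ S : Finset (Fin n), S.card = t ∧ ∃ i : Fin 2, ∀ x ∈ S, ∀ y ∈ S, x ≠ y → f x y = i}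

theorem RSet.up {t n n' : ℕ} (h : n ∈ RSet t) (hn : n ≤ n') : n' ∈ RSet t := by
  intro f hf
  obtain ⟨S, hS, i, hi⟩ := h (fun a b => f (Fin.castLE hn a) (Fin.castLE hn b))
    (fun a b => hf _ _)
  refine ⟨S.map (Fin.castLEEmb hn), by rw [Finset.card_map, hS], i, ?_⟩
  intro x hx y hy hxy
  obtain ⟨a, ha, rfl⟩ := Finset.mem_map.1 hx
  obtain ⟨b, hb, rfl⟩ := Finset.mem_map.1 hy
  exact hi a ha b hb (fun h => hxy (by rw [h]))

theorem clique_small {V : Type*} {K : Type*} {f : V → V → K} {t : ℕ} (ht : 1 ≤ t)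
    (h : ¬ ∃ S : Finset V, S.card = t ∧ ∃ i : K, ∀ x ∈ S, ∀ y ∈ S, x ≠ y → f x y = i) (i : K)
    (T : Finset V) : Bd (fun u v => f u v = i) T (fun _ => 1) (t - 1) := by
  intro Q _ hQ
  rw [Finset.sum_const, smul_eq_mul, mul_one]
  by_contra hcon
  obtain ⟨S, hSQ, hS⟩ := Finset.exists_subset_card_eq (show t ≤ Q.card by omega)
  exact h ⟨S, hS, i, fun x hx y hy hxy => hQ x (hSQ hx) y (hSQ hy) hxy⟩

/-- a two-coloured set without large monochromatic cliques -/
theorem not_mem_RSet {V : Type*} [DecidableEq V] {r : V → V → Prop} (hs : ∀ u v, r u v → r v u)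
    {t : ℕ} (ht : 1 ≤ t) {T : Finset V} (h1 : Bd r T (fun _ => 1) (t - 1))
    (h2 : Bd (fun u v => ¬ r u v) T (fun _ => 1) (t - 1)) : T.card ∉ RSet t := by
  classical
  intro h
  let e := T.equivFin.symm
  obtain ⟨S, hS, i, hi⟩ := h (fun a b => if r (e a) (e b) then 0 else 1) (by
    intro a b
    have : r (e a) (e b) ↔ r (e b) (e a) := ⟨hs _ _, hs _ _⟩
    simp only [this])
  let E : Fin T.card ↪ V := ⟨fun a => (e a : V), fun a b hab => e.injective (Subtype.ext hab)⟩
  have hsub : S.map E ⊆ T := by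
    intro x hx
    obtain ⟨a, -, rfl⟩ := Finset.mem_map.1 hx
    exact (e a).2
  have hcard : ∑ v ∈ S.map E, (1 : ℕ) = t := by
    rw [Finset.sum_const, smul_eq_mul, mul_one, Finset.card_map, hS]
  have hcol : ∀ a ∈ S, ∀ b ∈ S, E a ≠ E b → (if r (e a) (e b) then (0 : Fin 2) else 1) = i := by
    intro a ha b hb hab
    exact hi a ha b hb (fun h => hab (by rw [h]))
  by_cases hi0 : i = 0
  · have h3 : ∑ v ∈ S.map E, (1 : ℕ) ≤ t - 1 := h1 (S.map E) hsub (by
      intro x hx y hy hxy
      obtain ⟨a, ha, rfl⟩ := Finset.mem_map.1 hx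
      obtain ⟨b, hb, rfl⟩ := Finset.mem_map.1 hy
      have := hcol a ha b hb hxy
      rw [hi0] at this
      by_contra hr
      have hr' : ¬ r (e a) (e b) := hr
      rw [if_neg hr'] at this
      exact absurd this (by decide))
    omega
  · have h3 : ∑ v ∈ S.map E, (1 : ℕ) ≤ t - 1 := h2 (S.map E) hsub (by
      intro x hx y hy hxy
      obtain ⟨a, ha, rfl⟩ := Finset.mem_map.1 hx
      obtain ⟨b, hb, rfl⟩ := Finset.mem_map.1 hy
      have := hcol a ha b hb hxy
      intro hr
      have hr' : r (e a) (e b) := hr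
      rw [if_pos hr'] at this
      exact hi0 this.symm)
    omega

theorem RSet_nonempty {t : ℕ} (ht : 1 ≤ t) : (RSet t).Nonempty := by
  classical
  obtain ⟨n, hn⟩ := exists_nat_gt ((64 : ℝ) ^ (t - 1) * (41 / 40) ^ (t - 1) * 40)
  refine ⟨n, fun f hf => ?_⟩
  by_contra hcon
  have c0 := clique_small ht hcon 0 Finset.univ
  have c1 := clique_small ht hcon 1 Finset.univ
  have := card_le_exp (r := fun u v => f u v = 0) (fun u v h => by rw [hf]; exact h)
    (Finset.univ : Finset (Fin n)) (t - 1) (t - 1) c0 (by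
      intro Q hQ hc
      apply c1 Q hQ
      intro u hu v hv huv
      have h0 := hc u hu v hv huv
      have : ∀ z : Fin 2, z ≠ 0 → z = 1 := by decide
      exact this _ h0)
  rw [Finset.card_univ, Fintype.card_fin] at this
  linarith

theorem lt_sInf {t n : ℕ} (ht : 1 ≤ t) (h : n ∉ RSet t) : n < sInf (RSet t) := by
  by_contra hcon
  exact h (RSet.up (Nat.sInf_mem (RSet_nonempty ht)) (by omega))

/-- Erdos: a colouring without monochromatic `K_t` -/
theorem erdos {n t : ℕ} (h : 2 * n.choose t < 2 ^ (t.choose 2)) : n ∉ RSet t := by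
  classical
  -- union bound
  let E : Finset (Fin n) → Finset (Sym2 (Fin n)) := fun T => T.offDiag.image Sym2.mk.uncurry
  let bad : Finset (Fin n) → Fin 2 → Finset (Sym2 (Fin n) → Fin 2) := fun T i =>
    Fintype.piFinset (fun e => if e ∈ E T then {i} else Finset.univ)
  have hbad : ∀ T : Finset (Fin n), T.card = t → ∀ i, (bad T i).card * 2 ^ (t.choose 2) =
      2 ^ (Fintype.card (Sym2 (Fin n))) := by
    intro T hT i
    have hE : (E T).card = t.choose 2 := by
      rw [← hT]; exact Sym2.card_image_offDiag T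
    have h1 : (bad T i).card = 2 ^ ((Finset.univ \ E T : Finset (Sym2 (Fin n))).card) := by
      rw [Fintype.card_piFinset]
      have : ∀ e, (if e ∈ E T then ({i} : Finset (Fin 2)) else Finset.univ).card =
          if e ∈ E T then 1 else 2 := by
        intro e; split_ifs <;> simp
      rw [Finset.prod_congr rfl (fun e _ => this e), Finset.prod_ite]
      simp only [Finset.prod_const, one_pow, one_mul]
      congr 2
      ext e
      simp
    rw [h1, ← pow_add, ← hE, Finset.card_sdiff_add_card_eq_card (Finset.subset_univ _),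
      Finset.card_univ]
  have hne : ∃ g : Sym2 (Fin n) → Fin 2, ∀ T : Finset (Fin n), T.card = t → ∀ i, g ∉ bad T i := by
    by_contra hcon
    push Not at hcon
    have hsub : (Finset.univ : Finset (Sym2 (Fin n) → Fin 2)) ⊆
        (Finset.powersetCard t (Finset.univ : Finset (Fin n)) ×ˢ (Finset.univ : Finset (Fin 2))).biUnion
          (fun p => bad p.1 p.2) := by
      intro g _
      obtain ⟨T, hT, i, hi⟩ := hcon g
      rw [Finset.mem_biUnion]
      exact ⟨(T, i), Finset.mem_product.2 ⟨Finset.mem_powersetCard.2 ⟨Finset.subset_univ _, hT⟩,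
        Finset.mem_univ _⟩, hi⟩
    have h1 := (Finset.card_le_card hsub).trans Finset.card_biUnion_le
    have h2 : (Finset.univ : Finset (Sym2 (Fin n) → Fin 2)).card =
        2 ^ (Fintype.card (Sym2 (Fin n))) := by
      rw [Finset.card_univ, Fintype.card_fun, Fintype.card_fin]
    rw [h2] at h1
    have h3 : (∑ p ∈ Finset.powersetCard t (Finset.univ : Finset (Fin n)) ×ˢ
        (Finset.univ : Finset (Fin 2)), (bad p.1 p.2).card) * 2 ^ (t.choose 2) =
        (2 * n.choose t) * 2 ^ (Fintype.card (Sym2 (Fin n))) := by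
      rw [Finset.sum_mul, Finset.sum_congr rfl (fun p hp => hbad p.1
        (Finset.mem_powersetCard.1 (Finset.mem_product.1 hp).1).2 p.2), Finset.sum_const,
        Finset.card_product, Finset.card_powersetCard, Finset.card_univ, Finset.card_univ,
        Fintype.card_fin, Fintype.card_fin, smul_eq_mul, mul_comm (n.choose t) 2]
    have h4 := Nat.mul_le_mul_right (2 ^ (t.choose 2)) h1
    rw [h3] at h4
    have h5 : 0 < 2 ^ (Fintype.card (Sym2 (Fin n))) := by positivity
    nlinarith
  obtain ⟨g, hg⟩ := hne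
  intro hn
  obtain ⟨S, hS, i, hi⟩ := hn (fun a b => g s(a, b)) (fun a b => by rw [Sym2.eq_swap])
  apply hg S hS i
  rw [Fintype.mem_piFinset]
  intro e
  split_ifs with he
  · obtain ⟨⟨a, b⟩, hab, rfl⟩ := Finset.mem_image.1 he
    rw [Finset.mem_offDiag] at hab
    rw [Finset.mem_singleton]
    exact hi a hab.1 b hab.2.1 hab.2.2
  · exact Finset.mem_univ _

theorem choose_mul_factorial_le (n t : ℕ) : n.choose t * t.factorial ≤ n ^ t := by
  rw [mul_comm, ← Nat.descFactorial_eq_factorial_mul_choose]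
  exact Nat.descFactorial_le_pow n t

theorem erdos_pow {t : ℕ} (ht : 3 ≤ t) : 2 ^ (t / 2) ∉ RSet t := by
  apply erdos
  have h1 := choose_mul_factorial_le (2 ^ (t / 2)) t
  rw [← pow_mul] at h1
  have key : 2 * 2 ^ (t / 2 * t) < t.factorial * 2 ^ (t.choose 2) := by
    rcases Nat.even_or_odd' t with ⟨s, rfl | rfl⟩
    · have e1 : 2 * s / 2 = s := by omega
      have e2 : (2 * s).choose 2 = s * (2 * s - 1) := by
        rw [Nat.choose_two_right]
        rw [show 2 * s * (2 * s - 1) = 2 * (s * (2 * s - 1)) by ring]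
        omega
      have e3 : s * (2 * s) = s * (2 * s - 1) + s := by
        obtain ⟨q, rfl⟩ : ∃ q, s = q + 1 := ⟨s - 1, by omega⟩
        rw [show 2 * (q + 1) - 1 = 2 * q + 1 by omega]
        ring
      rw [e1, e2, e3, pow_add]
      have e4 : 2 * 2 ^ s < (2 * s).factorial := by
        have hs : 2 ≤ s := by omega
        clear e1 e2 e3 h1 ht
        induction s, hs using Nat.le_induction with
        | base => decide
        | succ s hs ih =>
          rw [show 2 * (s + 1) = 2 * s + 1 + 1 by ring, Nat.factorial_succ, Nat.factorial_succ,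
            pow_succ]
          have h0 : 0 < (2 * s).factorial := Nat.factorial_pos _
          calc 2 * (2 ^ s * 2) = 2 * (2 * 2 ^ s) := by ring
            _ < 2 * (2 * s).factorial := by omega
            _ ≤ (2 * s + 1 + 1) * ((2 * s + 1) * (2 * s).factorial) := by
                apply Nat.mul_le_mul (by omega)
                exact Nat.le_mul_of_pos_left _ (by omega)
      have : 0 < 2 ^ (s * (2 * s - 1)) := by positivity
      nlinarith
    · have e1 : (2 * s + 1) / 2 = s := by omega
      have e2 : (2 * s + 1).choose 2 = s * (2 * s + 1) := by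
        rw [Nat.choose_two_right, show 2 * s + 1 - 1 = 2 * s by omega,
          show (2 * s + 1) * (2 * s) = 2 * (s * (2 * s + 1)) by ring]
        omega
      rw [e1, e2]
      have e4 : 2 < (2 * s + 1).factorial := by
        calc 2 < (3).factorial := by decide
          _ ≤ (2 * s + 1).factorial := Nat.factorial_le (by omega)
      have : 0 < 2 ^ (s * (2 * s + 1)) := by positivity
      nlinarith
  have h2 : 0 < t.factorial := Nat.factorial_pos t
  have h3 : (2 * (2 ^ (t / 2)).choose t) * t.factorial < 2 ^ (t.choose 2) * t.factorial := by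
    nlinarith
  exact lt_of_mul_lt_mul_right h3 (Nat.zero_le _)

/-- lower bound for the two-colour Ramsey number -/
theorem ramsey_lower {t : ℕ} (ht : 3 ≤ t) : 2 ^ (t - 1) ≤ (sInf (RSet t) - 1) ^ 2 := by
  have h1 := lt_sInf (by omega) (erdos_pow ht)
  have h2 : 2 ^ (t / 2) ≤ sInf (RSet t) - 1 := by omega
  calc 2 ^ (t - 1) ≤ 2 ^ (t / 2 * 2) := Nat.pow_le_pow_right (by norm_num) (by omega)
    _ = (2 ^ (t / 2)) ^ 2 := by rw [pow_mul]
    _ ≤ (sInf (RSet t) - 1) ^ 2 := Nat.pow_le_pow_left h2 2

end Pool.Agent.helper21.GR
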