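import Pool.Agent.helper21.GR.TwoMain
import Pool.Agent.helper21.GR.Pot
import Pool.Agent.helper21.GR.Ramsey

/-! Upper bound for Gallai-Ramsey numbers of complete graphs (for MP_89787e_co). -/

set_option autoImplicit false
set_option linter.unusedSectionVars false

namespace Pool.Agent.helper21.GR

/-- `n` such that every `k`-colouring of `K_n` without rainbow triangle has a monochromatic `K_t` -/
def GSet (k t : ℕ) : Set ℕ :=
  {n : ℕ | ∀ f : Fin n → Fin n → Fin k, (∀ a b : Fin n, f a b = f b a) →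
    (∀ a b c : Fin n, a ≠ b → b ≠ c → a ≠ c → f a b = f b c ∨ f b c = f a c ∨ f a b = f a c) →
    ∃ S : Finset (Fin n), S.card = t ∧ ∃ i : Fin k, ∀ x ∈ S, ∀ y ∈ S, x ≠ y → f x y = i}

section
variable {V K : Type*} [DecidableEq V] [DecidableEq K] [Fintype K]

/-- product potential -/
theorem twoIneq_prod {m h : ℕ} {ρ : ℝ} (hm : m ≤ 24 * h) (hh : 199 ≤ h)
    (hρ : 2 * 64 ^ 140 * ρ ≤ 64 ^ (2 * h))
    (hcard : ∀ r : V → V → Prop, (∀ u v, r u v → r v u) → ∀ T : Finset V,
      Bd r T (fun _ => 1) m → Bd (fun u v => ¬ r u v) T (fun _ => 1) m → (T.card : ℝ) ≤ ρ) :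
    TwoIneq V m (fun A : K → ℕ => ∏ l, w h (A l)) := by
  intro i j hij A hA r hs S x y hx hy Hx Hy
  have h1 := two hm hh hρ hs (hcard r hs) hx hy S (A i) (A j) (hA i) (hA j) Hx Hy
  have hprod : ∀ B : K → ℕ, ∏ l, w h (B l) =
      w h (B i) * w h (B j) * ∏ l ∈ (Finset.univ.erase i).erase j, w h (B l) := by
    intro B
    rw [mul_assoc, Finset.mul_prod_erase (Finset.univ.erase i) (fun l => w h (B l))
      (Finset.mem_erase.2 ⟨hij.symm, Finset.mem_univ j⟩),
      Finset.mul_prod_erase Finset.univ (fun l => w h (B l)) (Finset.mem_univ i)]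
  have h2 : ∀ v, ∏ l, w h (Function.update (Function.update A i (x v)) j (y v) l) =
      w h (x v) * w h (y v) * ∏ l ∈ (Finset.univ.erase i).erase j, w h (A l) := by
    intro v
    rw [hprod]
    congr 1
    · rw [Function.update_self, Function.update_of_ne hij, Function.update_self]
    · apply Finset.prod_congr rfl
      intro l hl
      rw [Finset.mem_erase, Finset.mem_erase] at hl
      rw [Function.update_of_ne hl.1, Function.update_of_ne hl.2.1]
  show ∑ v ∈ S, ∏ l, w h (Function.update (Function.update A i (x v)) j (y v) l) ≤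
    ∏ l, w h (A l)
  rw [Finset.sum_congr rfl (fun v _ => h2 v), ← Finset.sum_mul, hprod A]
  apply mul_le_mul_of_nonneg_right h1
  exact Finset.prod_nonneg (fun l _ => w_nonneg _ _)

end

/-- every potential bounds the size of a Gallai coloured complete graph -/
theorem size_le {k t n m : ℕ} (ht : t = m + 1) {F : (Fin (k + 1) → ℕ) → ℝ} (hk : 1 ≤ k)
    (hm : 1 ≤ m)
    (hmono : ∀ A B : Fin (k + 1) → ℕ, (∀ l, A l ≤ B l) → F A ≤ F B)
    (H : TwoIneq (Fin n) m F) (f : Fin n → Fin n → Fin k) (hf : ∀ a b : Fin n, f a b = f b a)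
    (hg : ∀ a b c : Fin n, a ≠ b → b ≠ c → a ≠ c →
      f a b = f b c ∨ f b c = f a c ∨ f a b = f a c)
    (hno : ¬ ∃ S : Finset (Fin n), S.card = t ∧ ∃ i : Fin k, ∀ x ∈ S, ∀ y ∈ S, x ≠ y → f x y = i) :
    (n : ℝ) * F (fun _ => 1) ≤ F (fun l => if l = Fin.last k then 1 else m) := by
  classical
  let c : Fin n → Fin n → Fin (k + 1) := fun u v => (f u v).castSucc
  have G : Gal c := by
    refine ⟨fun u v => ?_, fun u v w h1 h2 h3 => ?_⟩
    · show (f u v).castSucc = (f v u).castSucc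
      rw [hf]
    · show (f u v).castSucc = (f v w).castSucc ∨ (f v w).castSucc = (f u w).castSucc ∨
        (f u v).castSucc = (f u w).castSucc
      rcases hg u v w h1 h2 h3 with h | h | h
      · exact Or.inl (by rw [h])
      · exact Or.inr (Or.inl (by rw [h]))
      · exact Or.inr (Or.inr (by rw [h]))
  have h0 : (0 : Fin (k + 1)) ≠ Fin.last k := by
    intro h
    have := congrArg Fin.val h
    simp at this
    omega
  have := potential hmono H h0 G Finset.univ (fun _ _ => 1)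
    (fun l => if l = Fin.last k then 1 else m) (fun _ _ => le_rfl) (by
      intro l
      show (if l = Fin.last k then 1 else m) ≤ m
      split_ifs
      · exact hm
      · exact le_rfl) (by
      intro l
      show Bd (fun u v => c u v = l) Finset.univ (fun _ => 1) (if l = Fin.last k then 1 else m)
      split_ifs with hl
      · intro Q _ hQ
        rw [Finset.sum_const, smul_eq_mul, mul_one]
        by_contra hcon
        obtain ⟨a, ha, b, hb, hab⟩ := Finset.one_lt_card.1 (by omega : 1 < Q.card)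
        have h1 : (f a b).castSucc = l := hQ a ha b hb hab
        rw [hl] at h1
        exact absurd h1 (Fin.castSucc_lt_last _).ne
      · obtain ⟨i, rfl⟩ := Fin.exists_castSucc_eq.2 hl
        have h1 := clique_small (by omega) hno i Finset.univ
        rw [ht, Nat.add_sub_cancel] at h1
        intro Q hQ hc
        exact h1 Q hQ (fun u hu v hv huv => Fin.castSucc_injective _ (hc u hu v hv huv)))
  simpa using this

/-- the size of a Gallai coloured complete graph, product potential -/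
theorem size_prod {k t n m h : ℕ} {ρ : ℝ} (ht : t = m + 1) (hk : 1 ≤ k) (hm1 : 1 ≤ m)
    (hm : m ≤ 24 * h) (hh : 199 ≤ h) (hρ : 2 * 64 ^ 140 * ρ ≤ 64 ^ (2 * h))
    (hR : ρ = (sInf (RSet t) - 1 : ℕ))
    (f : Fin n → Fin n → Fin k) (hf : ∀ a b : Fin n, f a b = f b a)
    (hg : ∀ a b c : Fin n, a ≠ b → b ≠ c → a ≠ c →
      f a b = f b c ∨ f b c = f a c ∨ f a b = f a c)
    (hno : ¬ ∃ S : Finset (Fin n), S.card = t ∧ ∃ i : Fin k, ∀ x ∈ S, ∀ y ∈ S, x ≠ y → f x y = i) :
    (n : ℝ) ≤ w h m ^ k := by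
  classical
  have hcard : ∀ r : Fin n → Fin n → Prop, (∀ u v, r u v → r v u) → ∀ T : Finset (Fin n),
      Bd r T (fun _ => 1) m → Bd (fun u v => ¬ r u v) T (fun _ => 1) m → (T.card : ℝ) ≤ ρ := by
    intro r hs T h1 h2
    have h3 : T.card ∉ RSet t := by
      apply not_mem_RSet hs (by omega)
      · rw [ht, Nat.add_sub_cancel]; exact h1
      · rw [ht, Nat.add_sub_cancel]; exact h2
    have h4 := lt_sInf (by omega) h3
    rw [hR]
    exact_mod_cast (by omega : T.card ≤ sInf (RSet t) - 1)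
  have h1 := size_le ht hk hm1 (F := fun A : Fin (k + 1) → ℕ => ∏ l, w h (A l))
    (fun A B hAB => Finset.prod_le_prod (fun l _ => w_nonneg _ _) (fun l _ => w_mono (hAB l)))
    (twoIneq_prod hm hh hρ hcard) f hf hg hno
  simp only [w_one, Finset.prod_const_one, mul_one] at h1
  refine h1.trans (le_of_eq ?_)
  rw [Fin.prod_univ_castSucc]
  have h2 : ∀ i : Fin k, w h (if i.castSucc = Fin.last k then 1 else m) = w h m := by
    intro i
    rw [if_neg (Fin.castSucc_lt_last _).ne]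
  rw [Finset.prod_congr rfl (fun i _ => h2 i), Finset.prod_const, Finset.card_univ,
    Fintype.card_fin, if_pos rfl, w_one, mul_one]

/-- the absolute constant -/
noncomputable def Cst : ℝ := 64 ^ 2 * (2 * 64 ^ 140) * (24 ^ 73) ^ 2 + (64 ^ 4776) ^ 2

theorem one_le_rho {t : ℕ} (ht : 3 ≤ t) : (1 : ℝ) ≤ (sInf (RSet t) - 1 : ℕ) := by
  have h1 := ramsey_lower ht
  have h2 : 0 < 2 ^ (t - 1) := by positivity
  have : 1 ≤ sInf (RSet t) - 1 := by
    by_contra hcon
    have : sInf (RSet t) - 1 = 0 := by omega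
    rw [this] at h1
    omega
  exact_mod_cast this

theorem w_bound {t m : ℕ} (ht3 : 3 ≤ t) (ht : t = m + 1) :
    ∃ h : ℕ, m ≤ 24 * h ∧ 199 ≤ h ∧
      2 * 64 ^ 140 * ((sInf (RSet t) - 1 : ℕ) : ℝ) ≤ 64 ^ (2 * h) ∧
      w h m ^ 2 ≤ Cst * ((sInf (RSet t) - 1 : ℕ) : ℝ) := by
  have hρ1 := one_le_rho ht3
  set ρ : ℝ := ((sInf (RSet t) - 1 : ℕ) : ℝ) with hρ
  have hlow : (2 : ℝ) ^ m ≤ ρ ^ 2 := by
    have := ramsey_lower ht3
    rw [ht, Nat.add_sub_cancel, ← ht] at this
    rw [hρ]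
    exact_mod_cast this
  have hex : ∃ h : ℕ, 2 * 64 ^ 140 * ρ ≤ 64 ^ (2 * h) := by
    obtain ⟨h, hh⟩ := pow_unbounded_of_one_lt (2 * 64 ^ 140 * ρ) (by norm_num : (1 : ℝ) < 64 ^ 2)
    exact ⟨h, by rw [pow_mul]; exact hh.le⟩
  have c1 : (0 : ℝ) ≤ 64 ^ 2 * (2 * 64 ^ 140) * (24 ^ 73) ^ 2 := by positivity
  have c2 : (0 : ℝ) ≤ (64 ^ 4776) ^ 2 := by positivity
  rcases Nat.lt_or_ge m 4777 with hsmall | hlarge
  · -- small `t`
    obtain ⟨h0, hh0⟩ := hex
    refine ⟨h0 + 5000, by omega, by omega, hh0.trans ?_, ?_⟩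
    · exact pow_le_pow_right₀ (by norm_num) (by omega)
    · rcases Nat.eq_zero_or_pos m with rfl | hm
      · omega
      rw [w_exp hm (by omega)]
      have e1 : (64 : ℝ) ^ (m - 1) ≤ 64 ^ 4776 := pow_le_pow_right₀ (by norm_num) (by omega)
      have e2 : ((64 : ℝ) ^ (m - 1)) ^ 2 ≤ (64 ^ 4776) ^ 2 :=
        pow_le_pow_left₀ (by positivity) e1 2
      have e3 : ((64 : ℝ) ^ 4776) ^ 2 ≤ Cst := by
        unfold Cst
        exact le_add_of_nonneg_left c1
      calc ((64 : ℝ) ^ (m - 1)) ^ 2 ≤ Cst := e2.trans e3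
        _ = Cst * 1 := (mul_one _).symm
        _ ≤ Cst * ρ := mul_le_mul_of_nonneg_left hρ1 (c2.trans e3)
  · -- large `t`
    classical
    let h := Nat.find hex
    have hh : 2 * 64 ^ 140 * ρ ≤ 64 ^ (2 * h) := Nat.find_spec hex
    have hm24 : m ≤ 24 * h := by
      have e1 : ρ ≤ 64 ^ (2 * h) := by
        refine le_trans ?_ hh
        have : (1 : ℝ) ≤ 2 * 64 ^ 140 := by norm_num
        calc ρ = 1 * ρ := (one_mul _).symm
          _ ≤ 2 * 64 ^ 140 * ρ := mul_le_mul_of_nonneg_right this (by linarith)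
      have e2 : (2 : ℝ) ^ m ≤ 2 ^ (24 * h) := by
        calc (2 : ℝ) ^ m ≤ ρ ^ 2 := hlow
          _ ≤ (64 ^ (2 * h)) ^ 2 := pow_le_pow_left₀ (by linarith) e1 2
          _ = 2 ^ (24 * h) := by
              rw [show (64 : ℝ) = 2 ^ 6 by norm_num, ← pow_mul, ← pow_mul]
              congr 1
              ring
      exact (pow_le_pow_iff_right₀ (by norm_num : (1 : ℝ) < 2)).1 e2
    have hh199 : 199 ≤ h := by omega
    refine ⟨h, hm24, hh199, hh, ?_⟩
    have hmin : (64 : ℝ) ^ (2 * (h - 1)) < 2 * 64 ^ 140 * ρ := by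
      have := Nat.find_min hex (show h - 1 < h by omega)
      exact not_le.1 this
    have hup : (64 : ℝ) ^ (2 * h) ≤ 64 ^ 2 * (2 * 64 ^ 140 * ρ) := by
      rw [show 2 * h = 2 + 2 * (h - 1) by omega, pow_add]
      exact mul_le_mul_of_nonneg_left hmin.le (by positivity)
    have hwm : w h m ≤ 64 ^ h * 24 ^ 73 := by
      rcases Nat.lt_or_ge m (h + 1) with hlt | hge
      · rw [w_exp (by omega) hlt.le]
        calc (64 : ℝ) ^ (m - 1) ≤ 64 ^ h := pow_le_pow_right₀ (by norm_num) (by omega)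
          _ = 64 ^ h * 1 := (mul_one _).symm
          _ ≤ 64 ^ h * 24 ^ 73 :=
              mul_le_mul_of_nonneg_left (one_le_pow₀ (by norm_num)) (by positivity)
      · rw [w_flat hge, kap_eq]
        apply mul_le_mul_of_nonneg_left _ (by positivity)
        apply pow_le_pow_left₀ (by positivity)
        rw [div_le_iff₀ (by positivity)]
        have : (m : ℝ) ≤ 24 * h := by exact_mod_cast hm24
        linarith
    calc w h m ^ 2 ≤ (64 ^ h * 24 ^ 73) ^ 2 := pow_le_pow_left₀ (w_nonneg _ _) hwm 2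
      _ = 64 ^ (2 * h) * (24 ^ 73) ^ 2 := by rw [mul_pow, ← pow_mul, mul_comm h 2]
      _ ≤ 64 ^ 2 * (2 * 64 ^ 140 * ρ) * (24 ^ 73) ^ 2 :=
          mul_le_mul_of_nonneg_right hup (by positivity)
      _ = (64 ^ 2 * (2 * 64 ^ 140) * (24 ^ 73) ^ 2) * ρ := by ring
      _ ≤ Cst * ρ := by
          apply mul_le_mul_of_nonneg_right _ (by linarith)
          unfold Cst
          exact le_add_of_nonneg_right c2

/-- main bound, squared form -/
theorem main_sq {k t n : ℕ} (hk : 1 ≤ k) (ht : 3 ≤ t)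
    (f : Fin n → Fin n → Fin k) (hf : ∀ a b : Fin n, f a b = f b a)
    (hg : ∀ a b c : Fin n, a ≠ b → b ≠ c → a ≠ c →
      f a b = f b c ∨ f b c = f a c ∨ f a b = f a c)
    (hno : ¬ ∃ S : Finset (Fin n), S.card = t ∧ ∃ i : Fin k, ∀ x ∈ S, ∀ y ∈ S, x ≠ y → f x y = i) :
    (n : ℝ) ^ 2 ≤ (Cst * ((sInf (RSet t) - 1 : ℕ) : ℝ)) ^ k := by
  obtain ⟨m, rfl⟩ : ∃ m, t = m + 1 := ⟨t - 1, by omega⟩
  obtain ⟨h, h1, h2, h3, h4⟩ := w_bound ht rfl
  have h5 := size_prod rfl hk (by omega) h1 h2 h3 rfl f hf hg hno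
  calc (n : ℝ) ^ 2 ≤ (w h m ^ k) ^ 2 := pow_le_pow_left₀ (Nat.cast_nonneg n) h5 2
    _ = (w h m ^ 2) ^ k := by rw [← pow_mul, ← pow_mul, mul_comm]
    _ ≤ _ := pow_le_pow_left₀ (by positivity) h4 k

end Pool.Agent.helper21.GR
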