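import Pool.Agent.helper21.GR.Base

/-! Tools for odd numbers of colours (for MP_89787e_co): Erdos-Szekeres bound, layer cake sums. -/

set_option autoImplicit false
set_option linter.unusedSectionVars false

namespace Pool.Agent.helper21.GR

variable {V : Type*} [DecidableEq V]

/-- Erdos-Szekeres -/
theorem card_le_choose {r : V → V → Prop} (hs : ∀ u v, r u v → r v u) :
    ∀ (S : Finset V) (a b : ℕ), Bd r S (fun _ => 1) a → Bd (fun u v => ¬ r u v) S (fun _ => 1) b →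
      S.card + 1 ≤ (a + b).choose a := by
  classical
  intro S
  induction S using Finset.strongInduction with
  | H S ih =>
    intro a b ha hb
    rcases S.eq_empty_or_nonempty with rfl | ⟨v, hv⟩
    · simp only [Finset.card_empty, zero_add]
      exact Nat.choose_pos (by omega)
    have ha1 : 1 ≤ a := ha.single hv
    have hb1 : 1 ≤ b := hb.single hv
    obtain ⟨a', rfl⟩ : ∃ a', a = a' + 1 := ⟨a - 1, by omega⟩
    obtain ⟨b', rfl⟩ : ∃ b', b = b' + 1 := ⟨b - 1, by omega⟩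
    have hs' : ∀ u v, ¬ r u v → ¬ r v u := fun u v h h' => h (hs _ _ h')
    set N1 := S.filter (fun u => u ≠ v ∧ r v u) with hN1
    set N2 := S.filter (fun u => u ≠ v ∧ ¬ r v u) with hN2
    have s1 : N1 ⊂ S := by
      refine Finset.ssubset_iff_subset_ne.2 ⟨Finset.filter_subset _ _, fun h => ?_⟩
      rw [← h, hN1, Finset.mem_filter] at hv
      exact hv.2.1 rfl
    have s2 : N2 ⊂ S := by
      refine Finset.ssubset_iff_subset_ne.2 ⟨Finset.filter_subset _ _, fun h => ?_⟩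
      rw [← h, hN2, Finset.mem_filter] at hv
      exact hv.2.1 rfl
    have e1 := ih N1 s1 a' (b' + 1) (by
      have := ha.nbr hs hv s1.1 (fun u hu => (Finset.mem_filter.1 hu).2)
      simpa using this) (hb.mono s1.1)
    have e2 := ih N2 s2 (a' + 1) b' (ha.mono s2.1) (by
      have := hb.nbr hs' hv s2.1 (fun u hu => (Finset.mem_filter.1 hu).2)
      simpa using this)
    have hsplit : S.card ≤ 1 + N1.card + N2.card := by
      have hsub : S ⊆ {v} ∪ N1 ∪ N2 := by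
        intro u hu
        rw [Finset.mem_union, Finset.mem_union, Finset.mem_singleton, hN1, hN2, Finset.mem_filter,
          Finset.mem_filter]
        by_cases h1 : u = v
        · exact Or.inl (Or.inl h1)
        · by_cases h2 : r v u
          · exact Or.inl (Or.inr ⟨hu, h1, h2⟩)
          · exact Or.inr ⟨hu, h1, h2⟩
      have h1 := Finset.card_le_card hsub
      have h2 := Finset.card_union_le ({v} ∪ N1) N2
      have h3 := Finset.card_union_le {v} N1
      rw [Finset.card_singleton] at h3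
      omega
    have hpas : (a' + 1 + (b' + 1)).choose (a' + 1) =
        (a' + (b' + 1)).choose a' + (a' + 1 + b').choose (a' + 1) := by
      rw [show a' + 1 + (b' + 1) = (a' + b' + 1) + 1 by ring, Nat.choose_succ_succ,
        show a' + (b' + 1) = a' + b' + 1 by ring, show a' + 1 + b' = a' + b' + 1 by ring]
    rw [hpas]
    omega

/-- clique sizes of vertices of large weight -/
theorem Bd.large {r : V → V → Prop} {S : Finset V} {x : V → ℕ} {a i : ℕ} (h : Bd r S x a)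
    (hi : 1 ≤ i) {T : Finset V} (hT : T ⊆ S) (hTi : ∀ v ∈ T, i ≤ x v) :
    Bd r T (fun _ => 1) (a / i) := by
  intro K hK hc
  have h1 := h K (hK.trans hT) hc
  have h2 : ∑ v ∈ K, i ≤ ∑ v ∈ K, x v := Finset.sum_le_sum (fun v hv => hTi v (hK hv))
  rw [Finset.sum_const, smul_eq_mul] at h2
  rw [Finset.sum_const, smul_eq_mul, mul_one, Nat.le_div_iff_mul_le hi]
  omega

theorem pow_le_sum (κ x : ℕ) :
    (x : ℝ) ^ (κ + 1) ≤ ∑ i ∈ Finset.range x, ((κ + 1 : ℕ) : ℝ) * ((i + 1 : ℕ) : ℝ) ^ κ := by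
  induction x with
  | zero => simp
  | succ x ih =>
    rw [Finset.sum_range_succ]
    have h1 : ((x + 1 : ℕ) : ℝ) ^ (κ + 1) - (x : ℝ) ^ (κ + 1) ≤
        ((κ + 1 : ℕ) : ℝ) * ((x + 1 : ℕ) : ℝ) ^ κ := by
      have hx : (0 : ℝ) ≤ x := Nat.cast_nonneg x
      have h2 := one_add_mul_le_pow (a := -(1 / ((x : ℝ) + 1))) (by
        have : 1 / ((x : ℝ) + 1) ≤ 1 := by
          rw [div_le_one (by positivity)]; linarith
        linarith) (κ + 1)
      have h3 : (1 + -(1 / ((x : ℝ) + 1))) = x / (x + 1) := by field_simp; ring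
      rw [h3, div_pow] at h2
      have hp : (0 : ℝ) < ((x : ℝ) + 1) ^ (κ + 1) := by positivity
      rw [le_div_iff₀ hp] at h2
      have h4 : (1 + ((κ + 1 : ℕ) : ℝ) * -(1 / ((x : ℝ) + 1))) * ((x : ℝ) + 1) ^ (κ + 1) =
          ((x : ℝ) + 1) ^ (κ + 1) - ((κ + 1 : ℕ) : ℝ) * ((x : ℝ) + 1) ^ κ := by
        rw [pow_succ]; field_simp; ring
      rw [h4] at h2
      push_cast at h2 ⊢
      linarith
    linarith

/-- layer cake -/
theorem layer {κ p N : ℕ} (hp : p ≤ κ) {S : Finset V} {x : V → ℕ} {g : V → ℝ} {G a : ℝ}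
    (hg : ∀ v ∈ S, 0 ≤ g v) (hN : ∀ v ∈ S, x v ≤ N) (hG0 : 0 ≤ G) (ha : 0 ≤ a)
    (hG : ∀ i : ℕ, 1 ≤ i → i ≤ N → ∑ v ∈ S.filter (fun v => i ≤ x v), g v ≤ G * (a / i) ^ p) :
    ∑ v ∈ S, (x v : ℝ) ^ (κ + 1) * g v ≤ G * ((κ + 1 : ℕ) : ℝ) * a ^ p * (N : ℝ) ^ (κ + 1 - p) := by
  have h1 : ∑ v ∈ S, (x v : ℝ) ^ (κ + 1) * g v ≤
      ∑ v ∈ S, ∑ i ∈ Finset.range N, if i + 1 ≤ x v then
        ((κ + 1 : ℕ) : ℝ) * ((i + 1 : ℕ) : ℝ) ^ κ * g v else 0 := by
    apply Finset.sum_le_sum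
    intro v hv
    have h2 := mul_le_mul_of_nonneg_right (pow_le_sum κ (x v)) (hg v hv)
    refine h2.trans (le_of_eq ?_)
    rw [Finset.sum_mul, ← Finset.sum_filter]
    apply Finset.sum_congr _ (fun _ _ => rfl)
    ext i
    rw [Finset.mem_filter, Finset.mem_range, Finset.mem_range]
    have := hN v hv
    omega
  refine h1.trans ?_
  rw [Finset.sum_comm]
  have h3 : ∀ i ∈ Finset.range N, (∑ v ∈ S, if i + 1 ≤ x v then
      ((κ + 1 : ℕ) : ℝ) * ((i + 1 : ℕ) : ℝ) ^ κ * g v else 0) ≤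
      G * ((κ + 1 : ℕ) : ℝ) * a ^ p * (N : ℝ) ^ (κ - p) := by
    intro i hi
    rw [Finset.mem_range] at hi
    rw [← Finset.sum_filter, ← Finset.mul_sum]
    have h4 := hG (i + 1) (by omega) (by omega)
    have hi0 : (0 : ℝ) < ((i + 1 : ℕ) : ℝ) := by positivity
    calc ((κ + 1 : ℕ) : ℝ) * ((i + 1 : ℕ) : ℝ) ^ κ * ∑ v ∈ S.filter (fun v => i + 1 ≤ x v), g v
        ≤ ((κ + 1 : ℕ) : ℝ) * ((i + 1 : ℕ) : ℝ) ^ κ * (G * (a / ((i + 1 : ℕ) : ℝ)) ^ p) :=
          mul_le_mul_of_nonneg_left h4 (by positivity)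
      _ = G * ((κ + 1 : ℕ) : ℝ) * a ^ p * ((i + 1 : ℕ) : ℝ) ^ (κ - p) := by
          have e : ((i + 1 : ℕ) : ℝ) ^ κ = ((i + 1 : ℕ) : ℝ) ^ (κ - p) * ((i + 1 : ℕ) : ℝ) ^ p := by
            rw [← pow_add]; congr 1; omega
          rw [e, div_pow]
          field_simp
      _ ≤ G * ((κ + 1 : ℕ) : ℝ) * a ^ p * (N : ℝ) ^ (κ - p) := by
          apply mul_le_mul_of_nonneg_left _ (by positivity)
          apply pow_le_pow_left₀ hi0.le
          exact_mod_cast hi
  refine (Finset.sum_le_card_nsmul _ _ _ h3).trans (le_of_eq ?_)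
  rw [Finset.card_range, nsmul_eq_mul, show κ + 1 - p = (κ - p) + 1 by omega, pow_succ]
  ring

end Pool.Agent.helper21.GR
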