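import Pool.Agent.helper21.GR.Two

/-! The weighted two-colour inequality (for MP_89787e_co): main statement. -/

set_option autoImplicit false
set_option linter.unusedSectionVars false

namespace Pool.Agent.helper21.GR

theorem pow_1_8 : (41 / 40 : ℝ) ^ 24 ≤ 2 := by norm_num

theorem pow_m {m h : ℕ} (hm : m ≤ 24 * h) : (41 / 40 : ℝ) ^ m ≤ 2 ^ h := by
  calc (41 / 40 : ℝ) ^ m ≤ (41 / 40) ^ (24 * h) := pow_le_pow_right₀ (by norm_num) hm
    _ = ((41 / 40) ^ 24) ^ h := by rw [pow_mul]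
    _ ≤ 2 ^ h := pow_le_pow_left₀ (by positivity) pow_1_8 _

theorem pow_third {c h : ℕ} (hc : 3 * c ≤ h) : (64 : ℝ) ^ c ≤ 4 ^ h := by
  calc (64 : ℝ) ^ c = (4 ^ 3) ^ c := by norm_num
    _ = 4 ^ (3 * c) := by rw [← pow_mul]
    _ ≤ 4 ^ h := pow_le_pow_right₀ (by norm_num) hc

theorem pow_64 (h : ℕ) : (64 : ℝ) ^ h = 2 ^ h * 4 ^ h * 8 ^ h := by
  rw [← mul_pow, ← mul_pow]; norm_num

variable {V : Type*} [DecidableEq V]

theorem Bd.congr {r r' : V → V → Prop} (h : ∀ u v, r' u v → r u v) {S : Finset V} {x : V → ℕ}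
    {a : ℕ} (H : Bd r S x a) : Bd r' S x a :=
  fun K hK hc => H K hK (fun u hu v hv huv => h u v (hc u hu v hv huv))

theorem w_thin {h x : ℕ} (hx : 1 ≤ x) (h3 : 3 * (x - 1) ≤ h) : w h x ≤ 4 ^ h := by
  rw [w_exp hx (by omega)]
  exact pow_third h3

/-- one exponential coordinate, thin in the other one -/
theorem thin_case {m h : ℕ} (hm : m ≤ 24 * h) (hh : 199 ≤ h) {r : V → V → Prop}
    (hs : ∀ u v, r u v → r v u) {x y : V → ℕ} (hx : ∀ v, 1 ≤ x v) (hy : ∀ v, 1 ≤ y v)
    (S : Finset V) {a b : ℕ} (ha : a ≤ h + 1) (hb : h + 1 ≤ b) (hbm : b ≤ m)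
    (Ha : Bd r S x a) (Hb : Bd (fun u v => ¬ r u v) S y b) (hthin : ∀ v ∈ S, 72 * y v < b) :
    ∑ v ∈ S, w h (x v) * w h (y v) ≤ w h a * w h b := by
  have e := expo hs hx S a b Ha (Hb.one hy)
  have A0 := w_nonneg h a
  have hz : w h a = z a := w_z ha
  have t1 : ∑ v ∈ S, w h (x v) * w h (y v) ≤ ∑ v ∈ S, (64 : ℝ) ^ (x v - 1) * 4 ^ h := by
    apply Finset.sum_le_sum
    intro v hv
    have h1 := Ha.single hv
    have h2 := hthin v hv
    rw [w_exp (hx v) (by omega)]
    exact mul_le_mul_of_nonneg_left (w_thin (hy v) (by omega)) (by positivity)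
  rw [← Finset.sum_mul] at t1
  have h4 : (0 : ℝ) < 4 ^ h := by positivity
  have t2 : z a * (41 / 40) ^ b * 40 ≤ z a * 2 ^ h * 40 := by
    have := pow_m (hbm.trans hm)
    have := z_nonneg a
    gcongr
  have t3 : (40 : ℝ) ≤ 8 ^ h := by
    calc (40 : ℝ) ≤ 8 ^ 2 := by norm_num
      _ ≤ 8 ^ h := pow_le_pow_right₀ (by norm_num) (by omega)
  have B := w_flat_ge hb
  calc ∑ v ∈ S, w h (x v) * w h (y v) ≤ (∑ v ∈ S, (64 : ℝ) ^ (x v - 1)) * 4 ^ h := t1
    _ ≤ (z a * 2 ^ h * 40) * 4 ^ h := mul_le_mul_of_nonneg_right (e.trans t2) h4.le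
    _ = z a * (2 ^ h * 4 ^ h * 40) := by ring
    _ ≤ z a * (2 ^ h * 4 ^ h * 8 ^ h) := by
        apply mul_le_mul_of_nonneg_left _ (z_nonneg a)
        exact mul_le_mul_of_nonneg_left t3 (by positivity)
    _ = z a * 64 ^ h := by rw [pow_64]
    _ ≤ w h a * w h b := by
        rw [hz]
        exact mul_le_mul_of_nonneg_left B (z_nonneg a)

/-- few heavy vertices -/
theorem card_heavy {m h : ℕ} (hm : m ≤ 24 * h) {r : V → V → Prop}
    (hs : ∀ u v, r u v → r v u) {x : V → ℕ} (S : Finset V)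
    (Ha : Bd r S x m) (Hb : Bd (fun u v => ¬ r u v) S (fun _ => 1) m)
    (hheavy : ∀ v ∈ S, 72 ≤ x v) : (S.card : ℝ) ≤ 40 * 8 ^ h := by
  have h1 : Bd r S (fun _ => 1) (m / 72) := by
    intro K hK hc
    have := Ha K hK hc
    have h2 : ∑ v ∈ K, 72 ≤ ∑ v ∈ K, x v := Finset.sum_le_sum (fun v hv => hheavy v (hK hv))
    rw [Finset.sum_const, smul_eq_mul] at h2
    rw [Finset.sum_const, smul_eq_mul, mul_one, Nat.le_div_iff_mul_le (by norm_num)]
    omega
  have e := card_le_exp hs S _ _ h1 Hb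
  have t1 : (64 : ℝ) ^ (m / 72) ≤ 4 ^ h := pow_third (by omega)
  have t2 := pow_m hm
  calc (S.card : ℝ) ≤ 64 ^ (m / 72) * (41 / 40) ^ m * 40 := e
    _ ≤ 4 ^ h * 2 ^ h * 40 := by gcongr
    _ = 40 * 8 ^ h := by
        rw [show (8 : ℝ) = 4 * 2 by norm_num, mul_pow]; ring

/-- both coordinates flat, every vertex thin in one of them -/
theorem flat_case {m h : ℕ} {ρ : ℝ} (hm : m ≤ 24 * h) (hh : 199 ≤ h)
    (hρ : 2 * 64 ^ 140 * ρ ≤ 64 ^ (2 * h)) {r : V → V → Prop}
    (hs : ∀ u v, r u v → r v u)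
    (hcard : ∀ T : Finset V, Bd r T (fun _ => 1) m → Bd (fun u v => ¬ r u v) T (fun _ => 1) m →
      (T.card : ℝ) ≤ ρ)
    {x y : V → ℕ} (hx : ∀ v, 1 ≤ x v) (hy : ∀ v, 1 ≤ y v)
    (S : Finset V) {a b : ℕ} (ha : h + 1 ≤ a) (ham : a ≤ m) (hb : h + 1 ≤ b) (hbm : b ≤ m)
    (Ha : Bd r S x a) (Hb : Bd (fun u v => ¬ r u v) S y b)
    (hthin : ∀ v ∈ S, 72 * x v < a ∨ 72 * y v < b) :
    ∑ v ∈ S, w h (x v) * w h (y v) ≤ w h a * w h b := by
  classical
  have hs' : ∀ u v, ¬ r u v → ¬ r v u := fun u v h h' => h (hs _ _ h')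
  have A := w_flat_ge ha
  have B := w_flat_ge hb
  have L0 : (0 : ℝ) < 64 ^ h := by positivity
  have A0 := w_nonneg h a
  have B0 := w_nonneg h b
  have AB : (64 : ℝ) ^ (2 * h) ≤ w h a * w h b := by
    rw [two_mul, pow_add]
    exact mul_le_mul A B L0.le A0
  -- light vertices
  have light : ∑ v ∈ S.filter (fun v => x v < 72 ∧ y v < 72), w h (x v) * w h (y v) ≤
      (w h a * w h b) / 2 := by
    have c1 : ((S.filter (fun v => x v < 72 ∧ y v < 72)).card : ℝ) ≤ ρ := by
      apply hcard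
      · exact ((Ha.one hx).mono (Finset.filter_subset _ _)).le ham
      · exact ((Hb.one hy).mono (Finset.filter_subset _ _)).le hbm
    have c2 : ∑ v ∈ S.filter (fun v => x v < 72 ∧ y v < 72), w h (x v) * w h (y v) ≤
        (S.filter (fun v => x v < 72 ∧ y v < 72)).card • ((64 : ℝ) ^ 140) := by
      apply Finset.sum_le_card_nsmul
      intro v hv
      have hv' := (Finset.mem_filter.1 hv).2
      rw [w_exp (hx v) (by omega), w_exp (hy v) (by omega), ← pow_add]
      exact pow_le_pow_right₀ (by norm_num) (by omega)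
    rw [nsmul_eq_mul] at c2
    have c3 : ((S.filter (fun v => x v < 72 ∧ y v < 72)).card : ℝ) * 64 ^ 140 ≤ ρ * 64 ^ 140 :=
      mul_le_mul_of_nonneg_right c1 (by positivity)
    linarith
  -- heavy vertices
  have heavy : ∑ v ∈ S.filter (fun v => ¬ (x v < 72 ∧ y v < 72)), w h (x v) * w h (y v) ≤
      (w h a * w h b) / 2 := by
    have d1 : ((S.filter (fun v => ¬ (x v < 72 ∧ y v < 72))).card : ℝ) ≤ 80 * 8 ^ h := by
      have e1 : ((S.filter (fun v => 72 ≤ x v)).card : ℝ) ≤ 40 * 8 ^ h := by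
        apply card_heavy hm hs (x := x)
        · exact (Ha.mono (Finset.filter_subset _ _)).le ham
        · exact ((Hb.one hy).mono (Finset.filter_subset _ _)).le hbm
        · intro v hv
          exact (Finset.mem_filter.1 hv).2
      have e2 : ((S.filter (fun v => 72 ≤ y v)).card : ℝ) ≤ 40 * 8 ^ h := by
        apply card_heavy hm hs' (x := y)
        · exact (Hb.mono (Finset.filter_subset _ _)).le hbm
        · apply Bd.congr (r := r) (fun u v h => not_not.1 h)
          exact ((Ha.one hx).mono (Finset.filter_subset _ _)).le ham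
        · intro v hv
          exact (Finset.mem_filter.1 hv).2
      have e3 : (S.filter (fun v => ¬ (x v < 72 ∧ y v < 72))).card ≤
          (S.filter (fun v => 72 ≤ x v)).card + (S.filter (fun v => 72 ≤ y v)).card := by
        refine (Finset.card_le_card ?_).trans (Finset.card_union_le _ _)
        intro v hv
        rw [Finset.mem_filter] at hv
        rw [Finset.mem_union, Finset.mem_filter, Finset.mem_filter]
        by_cases h1 : x v < 72
        · right
          exact ⟨hv.1, by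
            by_contra h2
            exact hv.2 ⟨h1, by omega⟩⟩
        · left
          exact ⟨hv.1, by omega⟩
      have e4 : ((S.filter (fun v => ¬ (x v < 72 ∧ y v < 72))).card : ℝ) ≤
          (S.filter (fun v => 72 ≤ x v)).card + (S.filter (fun v => 72 ≤ y v)).card := by
        exact_mod_cast e3
      linarith
    have d2 : ∀ v ∈ S, w h (x v) * w h (y v) ≤ 4 ^ h * (w h a * w h b / 64 ^ h) := by
      intro v hv
      have h4 : (0 : ℝ) < 4 ^ h := by positivity
      rcases hthin v hv with ht | ht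
      · have g1 : w h (x v) ≤ 4 ^ h := w_thin (hx v) (by omega)
        have g2 : w h (y v) ≤ w h b := w_mono (Hb.single hv)
        have g3 : w h b ≤ w h a * w h b / 64 ^ h := by
          rw [le_div_iff₀ L0, mul_comm]
          exact mul_le_mul_of_nonneg_right A B0
        exact mul_le_mul g1 (g2.trans g3) (w_nonneg _ _) h4.le
      · have g1 : w h (y v) ≤ 4 ^ h := w_thin (hy v) (by omega)
        have g2 : w h (x v) ≤ w h a := w_mono (Ha.single hv)
        have g3 : w h a ≤ w h a * w h b / 64 ^ h := by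
          rw [le_div_iff₀ L0]
          exact mul_le_mul_of_nonneg_left B A0
        rw [mul_comm]
        exact mul_le_mul g1 (g2.trans g3) (w_nonneg _ _) h4.le
    have d3 : ∑ v ∈ S.filter (fun v => ¬ (x v < 72 ∧ y v < 72)), w h (x v) * w h (y v) ≤
        (S.filter (fun v => ¬ (x v < 72 ∧ y v < 72))).card •
          (4 ^ h * (w h a * w h b / 64 ^ h)) := by
      apply Finset.sum_le_card_nsmul
      intro v hv
      exact d2 v (Finset.mem_filter.1 hv).1
    rw [nsmul_eq_mul] at d3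
    have P0 : 0 ≤ w h a * w h b := mul_nonneg A0 B0
    have Q0 : 0 ≤ 4 ^ h * (w h a * w h b / 64 ^ h) := by positivity
    have d4 := d3.trans (mul_le_mul_of_nonneg_right d1 Q0)
    have e2 : (160 : ℝ) ≤ 2 ^ h := by
      calc (160 : ℝ) ≤ 2 ^ 8 := by norm_num
        _ ≤ 2 ^ h := pow_le_pow_right₀ (by norm_num) (by omega)
    refine d4.trans ?_
    have h2 : (0 : ℝ) < 2 ^ h := by positivity
    have h4 : (0 : ℝ) < 4 ^ h := by positivity
    have h8 : (0 : ℝ) < 8 ^ h := by positivity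
    rw [pow_64, ← mul_assoc, ← mul_div_assoc, div_le_iff₀ (by positivity)]
    have : 80 * (8 : ℝ) ^ h * 4 ^ h * (w h a * w h b) ≤
        (2 ^ h / 2) * 8 ^ h * 4 ^ h * (w h a * w h b) := by
      apply mul_le_mul_of_nonneg_right _ P0
      apply mul_le_mul_of_nonneg_right _ h4.le
      apply mul_le_mul_of_nonneg_right _ h8.le
      linarith
    refine this.trans (le_of_eq ?_)
    ring
  rw [← Finset.sum_filter_add_sum_filter_not S (fun v => x v < 72 ∧ y v < 72)]
  linarith

/-- the weighted two-colour inequality -/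
theorem two {m h : ℕ} {ρ : ℝ} (hm : m ≤ 24 * h) (hh : 199 ≤ h)
    (hρ : 2 * 64 ^ 140 * ρ ≤ 64 ^ (2 * h)) {r : V → V → Prop}
    (hs : ∀ u v, r u v → r v u)
    (hcard : ∀ T : Finset V, Bd r T (fun _ => 1) m → Bd (fun u v => ¬ r u v) T (fun _ => 1) m →
      (T.card : ℝ) ≤ ρ)
    {x y : V → ℕ} (hx : ∀ v, 1 ≤ x v) (hy : ∀ v, 1 ≤ y v) :
    ∀ (S : Finset V) (a b : ℕ), a ≤ m → b ≤ m →
      Bd r S x a → Bd (fun u v => ¬ r u v) S y b →
      ∑ v ∈ S, w h (x v) * w h (y v) ≤ w h a * w h b := by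
  classical
  intro S
  induction S using Finset.strongInduction with
  | H S ih =>
    intro a b ham hbm Ha Hb
    have hs' : ∀ u v, ¬ r u v → ¬ r v u := fun u v h h' => h (hs _ _ h')
    -- the recursion
    have hrec : ∀ v ∈ S, ∑ u ∈ S, w h (x u) * w h (y u) ≤
        w h (x v) * w h (y v) + w h (a - x v) * w h b + w h a * w h (b - y v) := by
      intro v hv
      rw [sum_split r hv (fun u => w h (x u) * w h (y u))]
      have s1 : S.filter (fun u => u ≠ v ∧ r v u) ⊂ S := by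
        refine Finset.ssubset_iff_subset_ne.2 ⟨Finset.filter_subset _ _, fun h => ?_⟩
        rw [← h, Finset.mem_filter] at hv
        exact hv.2.1 rfl
      have s2 : S.filter (fun u => u ≠ v ∧ ¬ r v u) ⊂ S := by
        refine Finset.ssubset_iff_subset_ne.2 ⟨Finset.filter_subset _ _, fun h => ?_⟩
        rw [← h, Finset.mem_filter] at hv
        exact hv.2.1 rfl
      have e1 := ih _ s1 (a - x v) b (by omega) hbm
        (Ha.nbr hs hv s1.1 (fun u hu => (Finset.mem_filter.1 hu).2)) (Hb.mono s1.1)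
      have e2 := ih _ s2 a (b - y v) ham (by omega) (Ha.mono s2.1)
        (Hb.nbr hs' hv s2.1 (fun u hu => (Finset.mem_filter.1 hu).2))
      linarith
    have fin : ∀ v ∈ S, ((a ≤ h + 1 ∧ b ≤ h + 1) ∨
        (a ≤ h + 1 ∧ h + 1 ≤ b ∧ (x v = a ∨ b ≤ 72 * y v)) ∨
        (b ≤ h + 1 ∧ h + 1 ≤ a ∧ (y v = b ∨ a ≤ 72 * x v)) ∨
        (h + 1 ≤ a ∧ h + 1 ≤ b ∧ a ≤ 72 * x v ∧ b ≤ 72 * y v)) →
        ∑ v ∈ S, w h (x v) * w h (y v) ≤ w h a * w h b := by
      intro v hv hc
      exact (hrec v hv).trans (es_ineq hh (hx v) (Ha.single hv) (hy v) (Hb.single hv) hc)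
    rcases S.eq_empty_or_nonempty with rfl | ⟨v0, hv0⟩
    · simp only [Finset.sum_empty]
      exact mul_nonneg (w_nonneg _ _) (w_nonneg _ _)
    rcases Nat.lt_or_ge (h + 1) a with ha | ha
    · rcases Nat.lt_or_ge (h + 1) b with hb | hb
      · by_cases hc : ∃ v ∈ S, a ≤ 72 * x v ∧ b ≤ 72 * y v
        · obtain ⟨v, hv, h1, h2⟩ := hc
          exact fin v hv (Or.inr (Or.inr (Or.inr ⟨ha.le, hb.le, h1, h2⟩)))
        · push Not at hc
          apply flat_case hm hh hρ hs hcard hx hy S ha.le ham hb.le hbm Ha Hb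
          intro v hv
          by_cases h1 : a ≤ 72 * x v
          · right; exact hc v hv h1
          · left; omega
      · by_cases hc : ∃ v ∈ S, a ≤ 72 * x v
        · obtain ⟨v, hv, h1⟩ := hc
          exact fin v hv (Or.inr (Or.inr (Or.inl ⟨hb, ha.le, Or.inr h1⟩)))
        · push Not at hc
          have := thin_case hm hh hs' hy hx S hb ha.le ham Hb
            (Bd.congr (r := r) (fun u v h => not_not.1 h) Ha) hc
          calc ∑ v ∈ S, w h (x v) * w h (y v) = ∑ v ∈ S, w h (y v) * w h (x v) :=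
                Finset.sum_congr rfl (fun v _ => mul_comm _ _)
            _ ≤ w h b * w h a := this
            _ = w h a * w h b := mul_comm _ _
    · rcases Nat.lt_or_ge (h + 1) b with hb | hb
      · by_cases hc : ∃ v ∈ S, b ≤ 72 * y v
        · obtain ⟨v, hv, h1⟩ := hc
          exact fin v hv (Or.inr (Or.inl ⟨ha, hb.le, Or.inr h1⟩))
        · push Not at hc
          exact thin_case hm hh hs hx hy S ha hb.le hbm Ha Hb hc
      · exact fin v0 hv0 (Or.inl ⟨ha, hb⟩)

end Pool.Agent.helper21.GR
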