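import Pool.Agent.helper21.GR.OddW
import Pool.Agent.helper21.GR.TwoMain

/-! Odd numbers of colours (for MP_89787e_co): scalar inequalities and generic induction. -/

set_option autoImplicit false
set_option linter.unusedSectionVars false

namespace Pool.Agent.helper21.GR

/-- the exponent -/
@[irreducible] def kp : ℕ := 1300

theorem kp_eq : kp = 1300 := by unfold kp; rfl

theorem kp_pos : 1 ≤ kp := by rw [kp_eq]; norm_num

theorem kp_ne : kp ≠ 0 := by rw [kp_eq]; norm_num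

theorem c178 : (255 / 256 : ℝ) ^ 178 ≤ 1 / 2 := by norm_num

theorem half_kp {t : ℝ} (h1 : 1 / 256 ≤ t) (h2 : t ≤ 1) : (1 - t) ^ kp ≤ (1 - t) * (1 / 2) := by
  have e1 : (1 - t) ^ (kp - 1) ≤ (1 - t) ^ 178 := by
    apply pow_le_pow_of_le_one (by linarith) (by linarith)
    rw [kp_eq]; norm_num
  have e2 : (1 - t) ^ 178 ≤ 1 / 2 := by
    calc (1 - t) ^ 178 ≤ (255 / 256 : ℝ) ^ 178 := by
          apply pow_le_pow_left₀ (by linarith); linarith
      _ ≤ 1 / 2 := c178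
  have e3 : (1 - t) ^ kp = (1 - t) * (1 - t) ^ (kp - 1) := by
    rw [← pow_succ']; congr 1; have := kp_pos; omega
  rw [e3]
  exact mul_le_mul_of_nonneg_left (e1.trans e2) (by linarith)

theorem pow_kp_le {t : ℝ} (h1 : 0 ≤ t) (h2 : t ≤ 1) : t ^ kp ≤ t := by
  calc t ^ kp ≤ t ^ 1 := pow_le_pow_of_le_one h1 h2 kp_pos
    _ = t := pow_one t

theorem f_kp {t : ℝ} (h1 : 1 / 256 ≤ t) (h2 : t ≤ 1) : t ^ kp + 2 * (1 - t) ^ kp ≤ 1 := by
  have e1 := pow_kp_le (by linarith : 0 ≤ t) h2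
  have e3 := half_kp h1 h2
  linarith

theorem pow_add_kp {t : ℝ} (h1 : 0 ≤ t) (h2 : t ≤ 1) : t ^ kp + (1 - t) ^ kp ≤ 1 := by
  have e1 := pow_kp_le h1 h2
  have e2 := pow_kp_le (by linarith : 0 ≤ 1 - t) (by linarith)
  linarith

theorem macro_kp {s t : ℝ} (hs1 : 1 / 256 ≤ s) (hs2 : s ≤ 1) (ht1 : 1 / 256 ≤ t) (ht2 : t ≤ 1) :
    s ^ kp * t ^ kp + (1 - s) ^ kp + (1 - t) ^ kp ≤ 1 := by
  have fs := f_kp hs1 hs2
  have ft := f_kp ht1 ht2
  have s0 : 0 ≤ s ^ kp := by positivity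
  have t0 : 0 ≤ t ^ kp := by positivity
  have P0 : 0 ≤ (1 - s) ^ kp := pow_nonneg (by linarith) _
  have Q0 : 0 ≤ (1 - t) ^ kp := pow_nonneg (by linarith) _
  set P := (1 - s) ^ kp
  set Q := (1 - t) ^ kp
  have h1 : s ^ kp ≤ 1 - 2 * P := by linarith
  have h2 : t ^ kp ≤ 1 - 2 * Q := by linarith
  have h3 : s ^ kp * t ^ kp ≤ (1 - 2 * P) * (1 - 2 * Q) := by
    apply mul_le_mul h1 h2 t0; linarith
  have h4 : 4 * (P * Q) ≤ P + Q := by
    have a1 : 2 * P ≤ 1 := by linarith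
    have a2 : 2 * Q ≤ 1 := by linarith
    nlinarith
  nlinarith

/-- at least polynomially growing weights -/
structure PL (P : ℕ → ℝ) : Prop where
  zero : P 0 = 0
  nonneg : ∀ x, 0 ≤ P x
  le : ∀ x a : ℕ, x ≤ a → 1 ≤ a → P x ≤ P a * ((x : ℝ) / a) ^ kp

/-- small below `a` -/
def Sm (P : ℕ → ℝ) (a : ℕ) : Prop := ∀ i, 1 ≤ i → i < a → P i ≤ P a / 64

theorem PL.mono {P : ℕ → ℝ} (h : PL P) {x a : ℕ} (hxa : x ≤ a) : P x ≤ P a := by
  rcases Nat.eq_zero_or_pos a with rfl | ha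
  · rw [Nat.le_zero.1 hxa]
  · refine (h.le x a hxa ha).trans ?_
    have h1 : (x : ℝ) / a ≤ 1 := by
      rw [div_le_one (by exact_mod_cast ha)]; exact_mod_cast hxa
    have h2 : ((x : ℝ) / a) ^ kp ≤ 1 := pow_le_one₀ (by positivity) h1
    exact mul_le_of_le_one_right (h.nonneg a) h2

theorem es_left {P Q : ℕ → ℝ} (hP : PL P) (hQ : PL Q) {a b i j : ℕ} (hi : 1 ≤ i) (hia : i ≤ a)
    (hj : 1 ≤ j) (hjb : j ≤ b) (hc : i = a ∨ (Sm P a ∧ b ≤ 256 * j)) :
    P i * Q j + P (a - i) * Q b + P a * Q (b - j) ≤ P a * Q b := by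
  have A0 := hP.nonneg a
  have B0 := hQ.nonneg b
  have J0 := hQ.nonneg j
  have hbpos : (0 : ℝ) < b := by exact_mod_cast (by omega : 0 < b)
  have t1 : (j : ℝ) / b ≤ 1 := by
    rw [div_le_one hbpos]; exact_mod_cast hjb
  have t0 : 0 ≤ (j : ℝ) / b := by positivity
  have q1 := hQ.le j b hjb (by omega)
  have q2 := hQ.le (b - j) b (by omega) (by omega)
  have e : ((b - j : ℕ) : ℝ) / b = 1 - (j : ℝ) / b := by
    rw [Nat.cast_sub hjb, sub_div, div_self hbpos.ne']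
  rw [e] at q2
  rcases Nat.lt_or_ge i a with hlt | hge
  · rcases hc with hc | ⟨hsm, hc⟩
    · omega
    have t2 : 1 / 256 ≤ (j : ℝ) / b := by
      rw [div_le_div_iff₀ (by norm_num) hbpos]
      have : (b : ℝ) ≤ 256 * j := by exact_mod_cast hc
      linarith
    have f := f_kp t2 t1
    have tp : 0 ≤ ((j : ℝ) / b) ^ kp := by positivity
    have q3 : Q (b - j) ≤ Q b * (1 / 2) := by
      refine q2.trans (mul_le_mul_of_nonneg_left ?_ B0)
      linarith
    have s1 := hsm i hi hlt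
    have s2 := hsm (a - i) (by omega) (by omega)
    have JB := hQ.mono hjb
    have m1 : P i * Q j ≤ P a / 64 * Q b := mul_le_mul s1 JB J0 (by positivity)
    have m2 : P (a - i) * Q b ≤ P a / 64 * Q b := mul_le_mul_of_nonneg_right s2 B0
    have m3 : P a * Q (b - j) ≤ P a * (Q b * (1 / 2)) := mul_le_mul_of_nonneg_left q3 A0
    have AB0 : 0 ≤ P a * Q b := mul_nonneg A0 B0
    nlinarith
  · have hi' : i = a := le_antisymm hia hge
    subst hi'
    rw [Nat.sub_self, hP.zero, zero_mul, add_zero, ← mul_add]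
    apply mul_le_mul_of_nonneg_left _ A0
    have p := pow_add_kp t0 t1
    calc Q j + Q (b - j) ≤ Q b * ((j : ℝ) / b) ^ kp + Q b * (1 - (j : ℝ) / b) ^ kp :=
          add_le_add q1 q2
      _ = Q b * (((j : ℝ) / b) ^ kp + (1 - (j : ℝ) / b) ^ kp) := by ring
      _ ≤ Q b * 1 := mul_le_mul_of_nonneg_left p B0
      _ = Q b := mul_one _

theorem es_right {P Q : ℕ → ℝ} (hP : PL P) (hQ : PL Q) {a b i j : ℕ} (hi : 1 ≤ i) (hia : i ≤ a)
    (hj : 1 ≤ j) (hjb : j ≤ b) (hc : j = b ∨ (Sm Q b ∧ a ≤ 256 * i)) :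
    P i * Q j + P (a - i) * Q b + P a * Q (b - j) ≤ P a * Q b := by
  have := es_left hQ hP hj hjb hi hia hc
  linarith

theorem es_small {P Q : ℕ → ℝ} (hP : PL P) (hQ : PL Q) {a b i j : ℕ} (hi : 1 ≤ i) (hia : i ≤ a)
    (hj : 1 ≤ j) (hjb : j ≤ b) (ha : Sm P a) (hb : Sm Q b) :
    P i * Q j + P (a - i) * Q b + P a * Q (b - j) ≤ P a * Q b := by
  have A0 := hP.nonneg a
  have B0 := hQ.nonneg b
  have J0 := hQ.nonneg j
  rcases Nat.lt_or_ge i a with hlt | hge
  · rcases Nat.lt_or_ge j b with hlt' | hge'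
    · have s1 := ha i hi hlt
      have s2 := ha (a - i) (by omega) (by omega)
      have s3 := hb (b - j) (by omega) (by omega)
      have JB := hQ.mono hjb
      have m1 : P i * Q j ≤ P a / 64 * Q b := mul_le_mul s1 JB J0 (by positivity)
      have m2 : P (a - i) * Q b ≤ P a / 64 * Q b := mul_le_mul_of_nonneg_right s2 B0
      have m3 : P a * Q (b - j) ≤ P a * (Q b / 64) := mul_le_mul_of_nonneg_left s3 A0
      have AB0 : 0 ≤ P a * Q b := mul_nonneg A0 B0
      nlinarith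
    · exact es_right hP hQ hi hia hj hjb (Or.inl (le_antisymm hjb hge'))
  · exact es_left hP hQ hi hia hj hjb (Or.inl (le_antisymm hia hge))

theorem es_macro {P Q : ℕ → ℝ} (hP : PL P) (hQ : PL Q) {a b i j : ℕ} (hi : 1 ≤ i) (hia : i ≤ a)
    (hj : 1 ≤ j) (hjb : j ≤ b) (hi2 : a ≤ 256 * i) (hj2 : b ≤ 256 * j) :
    P i * Q j + P (a - i) * Q b + P a * Q (b - j) ≤ P a * Q b := by
  have A0 := hP.nonneg a
  have B0 := hQ.nonneg b
  have J0 := hQ.nonneg j
  have AB0 : 0 ≤ P a * Q b := mul_nonneg A0 B0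
  have hbpos : (0 : ℝ) < b := by exact_mod_cast (by omega : 0 < b)
  have hapos : (0 : ℝ) < a := by exact_mod_cast (by omega : 0 < a)
  have t1 : (j : ℝ) / b ≤ 1 := by
    rw [div_le_one hbpos]; exact_mod_cast hjb
  have s1 : (i : ℝ) / a ≤ 1 := by
    rw [div_le_one hapos]; exact_mod_cast hia
  have t2 : 1 / 256 ≤ (j : ℝ) / b := by
    rw [div_le_div_iff₀ (by norm_num) hbpos]
    have : (b : ℝ) ≤ 256 * j := by exact_mod_cast hj2
    linarith
  have s2 : 1 / 256 ≤ (i : ℝ) / a := by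
    rw [div_le_div_iff₀ (by norm_num) hapos]
    have : (a : ℝ) ≤ 256 * i := by exact_mod_cast hi2
    linarith
  have q1 := hQ.le j b hjb (by omega)
  have q2 := hQ.le (b - j) b (by omega) (by omega)
  have e : ((b - j : ℕ) : ℝ) / b = 1 - (j : ℝ) / b := by
    rw [Nat.cast_sub hjb, sub_div, div_self hbpos.ne']
  rw [e] at q2
  have q3 := hP.le i a hia (by omega)
  have q4 := hP.le (a - i) a (by omega) (by omega)
  have e' : ((a - i : ℕ) : ℝ) / a = 1 - (i : ℝ) / a := by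
    rw [Nat.cast_sub hia, sub_div, div_self hapos.ne']
  rw [e'] at q4
  have mac := macro_kp s2 s1 t2 t1
  have u0 : 0 ≤ P a * ((i : ℝ) / a) ^ kp := by positivity
  have m1 : P i * Q j ≤ (P a * ((i : ℝ) / a) ^ kp) * (Q b * ((j : ℝ) / b) ^ kp) :=
    mul_le_mul q3 q1 J0 u0
  have m2 : P (a - i) * Q b ≤ (P a * (1 - (i : ℝ) / a) ^ kp) * Q b :=
    mul_le_mul_of_nonneg_right q4 B0
  have m3 : P a * Q (b - j) ≤ P a * (Q b * (1 - (j : ℝ) / b) ^ kp) :=
    mul_le_mul_of_nonneg_left q2 A0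
  calc P i * Q j + P (a - i) * Q b + P a * Q (b - j)
      ≤ (P a * ((i : ℝ) / a) ^ kp) * (Q b * ((j : ℝ) / b) ^ kp)
        + (P a * (1 - (i : ℝ) / a) ^ kp) * Q b
        + P a * (Q b * (1 - (j : ℝ) / b) ^ kp) := by linarith
    _ = P a * Q b * (((i : ℝ) / a) ^ kp * ((j : ℝ) / b) ^ kp + (1 - (i : ℝ) / a) ^ kp
        + (1 - (j : ℝ) / b) ^ kp) := by ring
    _ ≤ P a * Q b * 1 := mul_le_mul_of_nonneg_left mac AB0
    _ = P a * Q b := mul_one _

/-! ### the weights -/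

/-- polynomial weight -/
noncomputable def U (x : ℕ) : ℝ := (x : ℝ) ^ kp

/-- exponential weight, capped at `q` -/
noncomputable def Wt (m q x : ℕ) : ℝ := (x : ℝ) ^ kp * W m q x

theorem U_nonneg (x : ℕ) : 0 ≤ U x := by unfold U; positivity

theorem U_one : U 1 = 1 := by unfold U; simp

theorem U_mono {x a : ℕ} (h : x ≤ a) : U x ≤ U a := by
  unfold U
  exact pow_le_pow_left₀ (by positivity) (by exact_mod_cast h) _

theorem U_PL : PL U where
  zero := by unfold U; rw [Nat.cast_zero, zero_pow kp_ne]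
  nonneg := U_nonneg
  le := by
    intro x a _ ha
    unfold U
    rw [← mul_pow, mul_div_cancel₀ _ (by exact_mod_cast (by omega : a ≠ 0))]

theorem Wt_PL {m q : ℕ} (hm : 1 ≤ m) (hq : 1 ≤ q) (hqm : q ≤ m + 1) : PL (Wt m q) where
  zero := by unfold Wt; rw [W_zero, mul_zero]
  nonneg := fun x => mul_nonneg (by positivity) (W_nonneg hm _ _)
  le := by
    intro x a hxa ha
    unfold Wt
    have h1 : (a : ℝ) ^ kp * W m q a * ((x : ℝ) / a) ^ kp = (x : ℝ) ^ kp * W m q a := by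
      rw [mul_right_comm, ← mul_pow, mul_div_cancel₀ _ (by exact_mod_cast (by omega : a ≠ 0))]
    rw [h1]
    exact mul_le_mul_of_nonneg_left (W_mono hm hq hqm hxa) (by positivity)

theorem Wt_Sm {m q a : ℕ} (hqm : q ≤ m + 1) (haq : a ≤ q) : Sm (Wt m q) a := by
  intro i hi hia
  have h1 := W_small hqm hi hia haq
  have h2 := U_mono hia.le
  have h3 := U_nonneg i
  have h4 := U_nonneg a
  unfold U at h2 h3 h4
  unfold Wt
  have hm : 1 ≤ m := by omega
  have h5 := W_nonneg hm q i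
  calc (i : ℝ) ^ kp * W m q i ≤ (a : ℝ) ^ kp * (W m q a / 64) := mul_le_mul h2 h1 h5 h4
    _ = (a : ℝ) ^ kp * W m q a / 64 := by ring

theorem scale_PL {P : ℕ → ℝ} (h : PL P) {c : ℝ} (hc : 0 ≤ c) : PL (fun x => c * P x) where
  zero := by show c * P 0 = 0; rw [h.zero, mul_zero]
  nonneg := fun x => mul_nonneg hc (h.nonneg x)
  le := by
    intro x a hxa ha
    show c * P x ≤ c * P a * ((x : ℝ) / a) ^ kp
    rw [mul_assoc]
    exact mul_le_mul_of_nonneg_left (h.le x a hxa ha) hc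

variable {V : Type*} [DecidableEq V]

/-- generic induction -/
theorem es_ind {m : ℕ} {r : V → V → Prop} (hs : ∀ u v, r u v → r v u) {x y : V → ℕ}
    {φ Φ : ℕ → ℕ → ℝ} (hΦ : ∀ a b, 0 ≤ Φ a b)
    (H : ∀ (S : Finset V) (a b : ℕ), S.Nonempty → a ≤ m → b ≤ m → Bd r S x a →
      Bd (fun u v => ¬ r u v) S y b →
      (∃ v ∈ S, φ (x v) (y v) + Φ (a - x v) b + Φ a (b - y v) ≤ Φ a b) ∨
        ∑ v ∈ S, φ (x v) (y v) ≤ Φ a b) :
    ∀ (S : Finset V) (a b : ℕ), a ≤ m → b ≤ m → Bd r S x a → Bd (fun u v => ¬ r u v) S y b →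
      ∑ v ∈ S, φ (x v) (y v) ≤ Φ a b := by
  classical
  intro S
  induction S using Finset.strongInduction with
  | H S ih =>
    intro a b ham hbm Ha Hb
    have hs' : ∀ u v, ¬ r u v → ¬ r v u := fun u v h h' => h (hs _ _ h')
    rcases S.eq_empty_or_nonempty with rfl | hne
    · simp only [Finset.sum_empty]
      exact hΦ _ _
    rcases H S a b hne ham hbm Ha Hb with ⟨v, hv, h1⟩ | h1
    · refine le_trans ?_ h1
      rw [sum_split r hv (fun u => φ (x u) (y u))]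
      have s1 : S.filter (fun u => u ≠ v ∧ r v u) ⊂ S := by
        refine Finset.ssubset_iff_subset_ne.2 ⟨Finset.filter_subset _ _, fun h => ?_⟩
        rw [← h, Finset.mem_filter] at hv
        exact hv.2.1 rfl
      have s2 : S.filter (fun u => u ≠ v ∧ ¬ r v u) ⊂ S := by
        refine Finset.ssubset_iff_subset_ne.2 ⟨Finset.filter_subset _ _, fun h => ?_⟩
        rw [← h, Finset.mem_filter] at hv
        exact hv.2.1 rfl
      have e1 := ih _ s1 (a - x v) b (by omega) hbm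
        (Ha.nbr hs hv s1.1 (fun u hu => (Finset.mem_filter.1 hu).2)) (Hb.mono s1.1)
      have e2 := ih _ s2 a (b - y v) ham (by omega) (Ha.mono s2.1)
        (Hb.nbr hs' hv s2.1 (fun u hu => (Finset.mem_filter.1 hu).2))
      linarith
    · exact h1

end Pool.Agent.helper21.GR
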