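import Pool.Agent.helper21.GR.Odd2

/-! Odd numbers of colours (for MP_89787e_co): the flat estimate. -/

set_option autoImplicit false
set_option linter.unusedSectionVars false

namespace Pool.Agent.helper21.GR

/-- bound for thin weights -/
noncomputable def TT (m : ℕ) : ℝ := 2048 ^ (m / 256) * Real.exp ((m : ℝ) / 32)

theorem one_le_TT (m : ℕ) : 1 ≤ TT m := by
  unfold TT
  have h1 : (1 : ℝ) ≤ 2048 ^ (m / 256) := one_le_pow₀ (by norm_num)
  have h2 : (1 : ℝ) ≤ Real.exp ((m : ℝ) / 32) := by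
    rw [Real.one_le_exp_iff]; positivity
  nlinarith

theorem W_thin {m q x a : ℕ} (hm : 1 ≤ m) (hq : 1 ≤ q) (hx : 1 ≤ x) (hxa : 256 * x < a)
    (ham : a ≤ m) : W m q x ≤ TT m := by
  refine (W_le_W' hm hq hx (by omega)).trans ((W'_le_exp x).trans ?_)
  unfold TT
  apply mul_le_mul_of_nonneg_right _ (Real.exp_pos _).le
  exact pow_le_pow_right₀ (by norm_num) (by omega)

theorem W_light {m q x : ℕ} (hm : 1 ≤ m) (hq : 1 ≤ q) (hx : 1 ≤ x) (hx3 : x < 300)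
    (hxm : x ≤ m) : W m q x ≤ (64 * (m : ℝ)) ^ 300 := by
  refine (W_le_W' hm hq hx (by omega)).trans ((W'_le_pow x).trans ?_)
  have : (1 : ℝ) ≤ 64 * m := by
    have : (1 : ℝ) ≤ m := by exact_mod_cast hm
    linarith
  exact pow_le_pow_right₀ this (by omega)

/-- `m` is large -/
structure Big (m : ℕ) : Prop where
  one : 1 ≤ m
  heavy : (320 * 64 ^ (m / 300) * (41 / 40) ^ m * (TT m) ^ 2) ^ 2 ≤ (2 : ℝ) ^ m
  thin : (4 * m * TT m) ^ 2 ≤ (2 : ℝ) ^ m
  poly : (4 * 300 ^ (2 * kp) * (64 * (m : ℝ)) ^ 600) ^ 2 ≤ (m : ℝ) ^ kp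
  root : (4 * 2 ^ (Nat.sqrt (4 * m)) * (64 * (m : ℝ)) ^ 600) ^ 2 ≤ (2 : ℝ) ^ m

variable {V : Type*} [DecidableEq V]

/-- the number 256 -/
@[irreducible] def pp : ℕ := 256

theorem pp_eq : pp = 256 := by unfold pp; rfl

theorem pp_le : pp ≤ kp := by rw [pp_eq, kp_eq]; norm_num

theorem const_one : (2 : ℝ) ^ pp * (kp : ℝ) * (1 / 256) ^ (kp - pp) ≤ 1 / 4 := by
  rw [kp_eq, pp_eq]
  have h1 : ((1300 : ℕ) : ℝ) ≤ 2 ^ 11 := by norm_num
  have h2 : (1 / 256 : ℝ) ^ (1300 - 256) = 1 / 2 ^ (8 * 1044) := by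
    rw [show (1 / 256 : ℝ) = (1 / 2) ^ 8 by norm_num, ← pow_mul, one_div_pow]
  rw [h2, mul_one_div, div_le_div_iff₀ (by positivity) (by norm_num), one_mul]
  calc (2 : ℝ) ^ 256 * ((1300 : ℕ) : ℝ) * 4 ≤ 2 ^ 256 * 2 ^ 11 * 2 ^ 2 := by
        have : (0 : ℝ) < 2 ^ 256 := by positivity
        rw [show (4 : ℝ) = 2 ^ 2 by norm_num]
        apply mul_le_mul_of_nonneg_right _ (by positivity)
        exact mul_le_mul_of_nonneg_left h1 this.le
    _ = 2 ^ (256 + 11 + 2) := by rw [pow_add, pow_add]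
    _ ≤ 2 ^ (8 * 1044) := pow_le_pow_right₀ (by norm_num) (by norm_num)

theorem const_two (a : ℕ) : (2 : ℝ) ^ pp * (kp : ℝ) * (a : ℝ) ^ pp * ((a / 256 : ℕ) : ℝ) ^ (kp - pp) ≤
    (a : ℝ) ^ kp * (1 / 4) := by
  have hN : ((a / 256 : ℕ) : ℝ) ≤ (a : ℝ) * (1 / 256) := by
    have := Nat.cast_div_le (α := ℝ) (m := a) (n := 256)
    push_cast at this
    linarith
  have e3 : ((a / 256 : ℕ) : ℝ) ^ (kp - pp) ≤ (a : ℝ) ^ (kp - pp) * (1 / 256) ^ (kp - pp) := by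
    rw [← mul_pow]
    exact pow_le_pow_left₀ (by positivity) hN _
  have e4 : (a : ℝ) ^ pp * (a : ℝ) ^ (kp - pp) = (a : ℝ) ^ kp := by
    rw [← pow_add, Nat.add_sub_cancel' pp_le]
  calc 2 ^ pp * (kp : ℝ) * (a : ℝ) ^ pp * ((a / 256 : ℕ) : ℝ) ^ (kp - pp)
      ≤ 2 ^ pp * (kp : ℝ) * (a : ℝ) ^ pp * ((a : ℝ) ^ (kp - pp) * (1 / 256) ^ (kp - pp)) :=
        mul_le_mul_of_nonneg_left e3 (by positivity)
    _ = ((a : ℝ) ^ pp * (a : ℝ) ^ (kp - pp)) *
        (2 ^ pp * (kp : ℝ) * (1 / 256) ^ (kp - pp)) := by ring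
    _ ≤ (a : ℝ) ^ kp * (1 / 4) := by
        rw [e4]
        exact mul_le_mul_of_nonneg_left const_one (by positivity)

/-- thin in the first, thick in the second coordinate -/
theorem class_one {r : V → V → Prop} (hs : ∀ u v, r u v → r v u) {x y : V → ℕ}
    (hx : ∀ v, 1 ≤ x v) (hy : ∀ v, 1 ≤ y v) (S : Finset V) {a b : ℕ} {L : ℝ} (hL : 0 ≤ L)
    (Ha : Bd r S x a) (Hb : Bd (fun u v => ¬ r u v) S y b) (h1 : ∀ v ∈ S, 256 * x v < a)
    (h2 : ∀ v ∈ S, b ≤ 256 * y v) {g : V → ℝ} (hg0 : ∀ v ∈ S, 0 ≤ g v) (hgL : ∀ v ∈ S, g v ≤ L) :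
    ∑ v ∈ S, (x v : ℝ) ^ kp * (y v : ℝ) ^ kp * g v ≤ (a : ℝ) ^ kp * (b : ℝ) ^ kp * (L / 4) := by
  classical
  rcases S.eq_empty_or_nonempty with rfl | ⟨v0, hv0⟩
  · simp only [Finset.sum_empty]; positivity
  have hb1 : 1 ≤ b := (hy v0).trans (Hb.single hv0)
  have ha1 : 1 ≤ a := (hx v0).trans (Ha.single hv0)
  have hbL : 0 ≤ (b : ℝ) ^ kp * L := by positivity
  have step : ∑ v ∈ S, (x v : ℝ) ^ kp * (y v : ℝ) ^ kp * g v ≤
      (∑ v ∈ S, (x v : ℝ) ^ kp * 1) * ((b : ℝ) ^ kp * L) := by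
    rw [Finset.sum_mul]
    apply Finset.sum_le_sum
    intro v hv
    have e1 : (y v : ℝ) ^ kp ≤ (b : ℝ) ^ kp :=
      pow_le_pow_left₀ (by positivity) (by exact_mod_cast Hb.single hv) _
    rw [mul_one, mul_assoc]
    apply mul_le_mul_of_nonneg_left _ (by positivity)
    exact mul_le_mul e1 (hgL v hv) (hg0 v hv) (by positivity)
  have hk1 : (kp - 1) + 1 = kp := by have := kp_pos; omega
  have cnt : ∀ i : ℕ, 1 ≤ i → i ≤ a / 256 →
      ∑ v ∈ S.filter (fun v => i ≤ x v), (1 : ℝ) ≤ 2 ^ pp * ((a : ℝ) / i) ^ pp := by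
    intro i hi1 hiN
    rw [Finset.sum_const, nsmul_eq_mul, mul_one]
    have c1 : Bd r (S.filter (fun v => i ≤ x v)) (fun _ => 1) (a / i) :=
      Ha.large hi1 (Finset.filter_subset _ _) (fun v hv => (Finset.mem_filter.1 hv).2)
    have c2 : Bd (fun u v => ¬ r u v) (S.filter (fun v => i ≤ x v)) (fun _ => 1) pp := by
      have := Hb.large (i := (b + 255) / 256) (by omega)
        (Finset.filter_subset (fun v => i ≤ x v) S) (fun v hv => by
          have := h2 v (Finset.mem_filter.1 hv).1; omega)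
      apply this.le
      rw [pp_eq]
      apply Nat.div_le_of_le_mul
      omega
    have c3 := card_le_choose hs _ _ _ c1 c2
    have hia : pp ≤ a / i := by
      rw [pp_eq, Nat.le_div_iff_mul_le (by omega)]; omega
    have c4 : (a / i + pp).choose (a / i) ≤ (2 * (a / i)) ^ pp := by
      rw [show (a / i + pp).choose (a / i) = (a / i + pp).choose pp by
        rw [← Nat.choose_symm_of_eq_add rfl]]
      refine (Nat.choose_le_pow _ _).trans ?_
      exact Nat.pow_le_pow_left (show a / i + pp ≤ 2 * (a / i) by omega) pp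
    have c5 : ((S.filter (fun v => i ≤ x v)).card : ℝ) ≤ (2 * ((a / i : ℕ) : ℝ)) ^ pp := by
      exact_mod_cast (by omega : (S.filter (fun v => i ≤ x v)).card ≤ (2 * (a / i)) ^ pp)
    refine c5.trans ?_
    rw [mul_pow]
    apply mul_le_mul_of_nonneg_left _ (by positivity)
    exact pow_le_pow_left₀ (by positivity) Nat.cast_div_le _
  have hpk : pp ≤ kp - 1 := by rw [pp_eq, kp_eq]; norm_num
  have lay := layer (κ := kp - 1) (p := pp) (N := a / 256) (S := S) (x := x) (g := fun _ => (1 : ℝ))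
    (G := 2 ^ pp) (a := (a : ℝ)) hpk (fun _ _ => zero_le_one)
    (fun v hv => by have := h1 v hv; omega) (by positivity) (by positivity) cnt
  rw [hk1] at lay
  have e5 := lay.trans (const_two a)
  calc ∑ v ∈ S, (x v : ℝ) ^ kp * (y v : ℝ) ^ kp * g v
      ≤ (∑ v ∈ S, (x v : ℝ) ^ kp * 1) * ((b : ℝ) ^ kp * L) := step
    _ ≤ ((a : ℝ) ^ kp * (1 / 4)) * ((b : ℝ) ^ kp * L) := mul_le_mul_of_nonneg_right e5 hbL
    _ = (a : ℝ) ^ kp * (b : ℝ) ^ kp * (L / 4) := by ring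

/-- both coordinates thin, heavy -/
theorem class_heavy {m : ℕ} (hB : Big m) {r : V → V → Prop} (hs : ∀ u v, r u v → r v u)
    {x y : V → ℕ} (hx : ∀ v, 1 ≤ x v) (hy : ∀ v, 1 ≤ y v) (S : Finset V) {a b : ℕ} {L : ℝ}
    (hL0 : 0 ≤ L) (hL : (2 : ℝ) ^ m ≤ L ^ 2) (ham : a ≤ m) (hbm : b ≤ m)
    (Ha : Bd r S x a) (Hb : Bd (fun u v => ¬ r u v) S y b)
    (h1 : ∀ v ∈ S, ¬ (x v < 300 ∧ y v < 300)) {g : V → ℝ} (hg0 : ∀ v ∈ S, 0 ≤ g v)
    (hgT : ∀ v ∈ S, g v ≤ (TT m) ^ 2) :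
    ∑ v ∈ S, (x v : ℝ) ^ kp * (y v : ℝ) ^ kp * g v ≤ (a : ℝ) ^ kp * (b : ℝ) ^ kp * (L / 4) := by
  classical
  have hs' : ∀ u v, ¬ r u v → ¬ r v u := fun u v h h' => h (hs _ _ h')
  have e1 : ((S.filter (fun v => 300 ≤ x v)).card : ℝ) ≤ 64 ^ (m / 300) * (41 / 40) ^ m * 40 := by
    apply card_le_exp hs
    · exact (Ha.le ham).large (by norm_num) (Finset.filter_subset _ _)
        (fun v hv => (Finset.mem_filter.1 hv).2)
    · exact ((Hb.one hy).mono (Finset.filter_subset _ _)).le hbm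
  have e2 : ((S.filter (fun v => 300 ≤ y v)).card : ℝ) ≤ 64 ^ (m / 300) * (41 / 40) ^ m * 40 := by
    apply card_le_exp hs'
    · exact (Hb.le hbm).large (by norm_num) (Finset.filter_subset _ _)
        (fun v hv => (Finset.mem_filter.1 hv).2)
    · apply Bd.congr (r := r) (fun u v h => not_not.1 h)
      exact ((Ha.one hx).mono (Finset.filter_subset _ _)).le ham
  have e3 : S.card ≤ (S.filter (fun v => 300 ≤ x v)).card + (S.filter (fun v => 300 ≤ y v)).card := by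
    refine (Finset.card_le_card ?_).trans (Finset.card_union_le _ _)
    intro v hv
    rw [Finset.mem_union, Finset.mem_filter, Finset.mem_filter]
    by_cases h2 : x v < 300
    · right
      exact ⟨hv, by
        by_contra h3
        exact h1 v hv ⟨h2, by omega⟩⟩
    · left
      exact ⟨hv, by omega⟩
  have e4 : (S.card : ℝ) ≤ 80 * (64 ^ (m / 300) * (41 / 40) ^ m) := by
    have : (S.card : ℝ) ≤ (S.filter (fun v => 300 ≤ x v)).card +
      (S.filter (fun v => 300 ≤ y v)).card := by exact_mod_cast e3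
    linarith
  have e5 : ∑ v ∈ S, (x v : ℝ) ^ kp * (y v : ℝ) ^ kp * g v ≤
      S.card • ((a : ℝ) ^ kp * (b : ℝ) ^ kp * (TT m) ^ 2) := by
    apply Finset.sum_le_card_nsmul
    intro v hv
    have f1 : (x v : ℝ) ^ kp ≤ (a : ℝ) ^ kp :=
      pow_le_pow_left₀ (by positivity) (by exact_mod_cast Ha.single hv) _
    have f2 : (y v : ℝ) ^ kp ≤ (b : ℝ) ^ kp :=
      pow_le_pow_left₀ (by positivity) (by exact_mod_cast Hb.single hv) _
    exact mul_le_mul (mul_le_mul f1 f2 (by positivity) (by positivity)) (hgT v hv) (hg0 v hv)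
      (by positivity)
  rw [nsmul_eq_mul] at e5
  have hT0 : 0 < TT m := lt_of_lt_of_le one_pos (one_le_TT m)
  have e6 : 320 * 64 ^ (m / 300) * (41 / 40) ^ m * (TT m) ^ 2 ≤ L :=
    le_of_sq_le_sq (hB.heavy.trans hL) hL0
  calc ∑ v ∈ S, (x v : ℝ) ^ kp * (y v : ℝ) ^ kp * g v
      ≤ (S.card : ℝ) * ((a : ℝ) ^ kp * (b : ℝ) ^ kp * (TT m) ^ 2) := e5
    _ ≤ (80 * (64 ^ (m / 300) * (41 / 40) ^ m)) * ((a : ℝ) ^ kp * (b : ℝ) ^ kp * (TT m) ^ 2) :=
        mul_le_mul_of_nonneg_right e4 (by positivity)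
    _ = (a : ℝ) ^ kp * (b : ℝ) ^ kp *
        ((320 * 64 ^ (m / 300) * (41 / 40) ^ m * (TT m) ^ 2) / 4) := by ring
    _ ≤ (a : ℝ) ^ kp * (b : ℝ) ^ kp * (L / 4) := by
        apply mul_le_mul_of_nonneg_left _ (by positivity)
        linarith

/-- light vertices -/
theorem class_light {m : ℕ} {ρ : ℝ} (hB : Big m) {r : V → V → Prop} (hs : ∀ u v, r u v → r v u)
    (hcard : ∀ T : Finset V, Bd r T (fun _ => 1) m → Bd (fun u v => ¬ r u v) T (fun _ => 1) m →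
      (T.card : ℝ) ≤ ρ)
    {x y : V → ℕ} (hx : ∀ v, 1 ≤ x v) (hy : ∀ v, 1 ≤ y v) (S : Finset V) {a b : ℕ} {L : ℝ}
    (hL0 : 0 ≤ L) (hL : (2 : ℝ) ^ m ≤ L ^ 2) (hρL : ρ ≤ L) (ham : a ≤ m) (hbm : b ≤ m)
    (Ha : Bd r S x a) (Hb : Bd (fun u v => ¬ r u v) S y b)
    (h1 : ∀ v ∈ S, x v < 300 ∧ y v < 300) {g : V → ℝ} (hg0 : ∀ v ∈ S, 0 ≤ g v)
    (hg3 : ∀ v ∈ S, g v ≤ (64 * (m : ℝ)) ^ 600) :
    ∑ v ∈ S, (x v : ℝ) ^ kp * (y v : ℝ) ^ kp * g v ≤ (a : ℝ) ^ kp * (b : ℝ) ^ kp * (L / 4) := by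
  classical
  rcases S.eq_empty_or_nonempty with rfl | ⟨v0, hv0⟩
  · simp only [Finset.sum_empty]; positivity
  have hb1 : 1 ≤ b := (hy v0).trans (Hb.single hv0)
  have ha1 : 1 ≤ a := (hx v0).trans (Ha.single hv0)
  obtain ⟨G, hG⟩ : ∃ G : ℝ, G = (64 * (m : ℝ)) ^ 600 := ⟨_, rfl⟩
  have hG0 : 0 ≤ G := by rw [hG]; positivity
  rw [← hG] at hg3
  by_cases hab : m ≤ a * a ∨ m ≤ b * b
  · -- many vertices are allowed
    have e1 : (S.card : ℝ) ≤ L :=
      (hcard S ((Ha.one hx).le ham) ((Hb.one hy).le hbm)).trans hρL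
    have e2 : ∑ v ∈ S, (x v : ℝ) ^ kp * (y v : ℝ) ^ kp * g v ≤
        S.card • (300 ^ (2 * kp) * G) := by
      apply Finset.sum_le_card_nsmul
      intro v hv
      have f1 : (x v : ℝ) ^ kp ≤ 300 ^ kp :=
        pow_le_pow_left₀ (by positivity) (by exact_mod_cast (h1 v hv).1.le) _
      have f2 : (y v : ℝ) ^ kp ≤ 300 ^ kp :=
        pow_le_pow_left₀ (by positivity) (by exact_mod_cast (h1 v hv).2.le) _
      rw [two_mul, pow_add]
      exact mul_le_mul (mul_le_mul f1 f2 (by positivity) (by positivity)) (hg3 v hv) (hg0 v hv)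
        (by positivity)
    rw [nsmul_eq_mul] at e2
    have e3 : (m : ℝ) ^ kp ≤ ((a : ℝ) ^ kp * (b : ℝ) ^ kp) ^ 2 := by
      rw [← mul_pow, ← pow_mul, mul_comm kp 2, pow_mul]
      apply pow_le_pow_left₀ (by positivity)
      have ha' : (1 : ℝ) ≤ a := by exact_mod_cast ha1
      have hb' : (1 : ℝ) ≤ b := by exact_mod_cast hb1
      have haa : (1 : ℝ) ≤ a * a := by nlinarith
      have hbb : (1 : ℝ) ≤ b * b := by nlinarith
      rcases hab with h | h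
      · have h' : (m : ℝ) ≤ a * a := by exact_mod_cast h
        calc (m : ℝ) ≤ a * a := h'
          _ ≤ (a * a) * (b * b) := le_mul_of_one_le_right (by positivity) hbb
          _ = (a * b) ^ 2 := by ring
      · have h' : (m : ℝ) ≤ b * b := by exact_mod_cast h
        calc (m : ℝ) ≤ b * b := h'
          _ ≤ (a * a) * (b * b) := le_mul_of_one_le_left (by positivity) haa
          _ = (a * b) ^ 2 := by ring
    have e4 : 4 * 300 ^ (2 * kp) * G ≤ (a : ℝ) ^ kp * (b : ℝ) ^ kp := by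
      have := hB.poly
      rw [← hG] at this
      exact le_of_sq_le_sq (this.trans e3) (by positivity)
    calc ∑ v ∈ S, (x v : ℝ) ^ kp * (y v : ℝ) ^ kp * g v
        ≤ (S.card : ℝ) * (300 ^ (2 * kp) * G) := e2
      _ ≤ L * (300 ^ (2 * kp) * G) := mul_le_mul_of_nonneg_right e1 (by positivity)
      _ = (4 * 300 ^ (2 * kp) * G) * (L / 4) := by ring
      _ ≤ (a : ℝ) ^ kp * (b : ℝ) ^ kp * (L / 4) := mul_le_mul_of_nonneg_right e4 (by positivity)
  · push Not at hab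
    have e1 := card_le_choose hs S a b (Ha.one hx) (Hb.one hy)
    have e2 : (a + b).choose a ≤ 2 ^ (a + b) := Nat.choose_le_two_pow _ _
    have e3 : a + b ≤ Nat.sqrt (4 * m) := by
      rw [Nat.le_sqrt]
      have h1 := hab.1
      have h2 := hab.2
      have h3 : 2 * (a * b) ≤ a * a + b * b := by
        zify
        nlinarith [mul_self_nonneg ((a : ℤ) - b)]
      nlinarith
    have e4 : 2 ^ (a + b) ≤ 2 ^ (Nat.sqrt (4 * m)) := Nat.pow_le_pow_right (by norm_num) e3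
    have e5 : (S.card : ℝ) ≤ 2 ^ (Nat.sqrt (4 * m)) := by
      exact_mod_cast (by omega : S.card ≤ 2 ^ (Nat.sqrt (4 * m)))
    have e6 : ∑ v ∈ S, (x v : ℝ) ^ kp * (y v : ℝ) ^ kp * g v ≤
        S.card • ((a : ℝ) ^ kp * (b : ℝ) ^ kp * G) := by
      apply Finset.sum_le_card_nsmul
      intro v hv
      have f1 : (x v : ℝ) ^ kp ≤ (a : ℝ) ^ kp :=
        pow_le_pow_left₀ (by positivity) (by exact_mod_cast Ha.single hv) _
      have f2 : (y v : ℝ) ^ kp ≤ (b : ℝ) ^ kp :=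
        pow_le_pow_left₀ (by positivity) (by exact_mod_cast Hb.single hv) _
      exact mul_le_mul (mul_le_mul f1 f2 (by positivity) (by positivity)) (hg3 v hv) (hg0 v hv)
        (by positivity)
    rw [nsmul_eq_mul] at e6
    have e7 : 4 * 2 ^ (Nat.sqrt (4 * m)) * G ≤ L := by
      have := hB.root
      rw [← hG] at this
      exact le_of_sq_le_sq (this.trans hL) hL0
    calc ∑ v ∈ S, (x v : ℝ) ^ kp * (y v : ℝ) ^ kp * g v
        ≤ (S.card : ℝ) * ((a : ℝ) ^ kp * (b : ℝ) ^ kp * G) := e6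
      _ ≤ 2 ^ (Nat.sqrt (4 * m)) * ((a : ℝ) ^ kp * (b : ℝ) ^ kp * G) :=
          mul_le_mul_of_nonneg_right e5 (by positivity)
      _ = (a : ℝ) ^ kp * (b : ℝ) ^ kp * ((4 * 2 ^ (Nat.sqrt (4 * m)) * G) / 4) := by ring
      _ ≤ (a : ℝ) ^ kp * (b : ℝ) ^ kp * (L / 4) := by
          apply mul_le_mul_of_nonneg_left _ (by positivity)
          linarith

/-- no vertex thick in both coordinates -/
theorem flat_gen {m : ℕ} {ρ : ℝ} (hB : Big m) {r : V → V → Prop} (hs : ∀ u v, r u v → r v u)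
    (hcard : ∀ T : Finset V, Bd r T (fun _ => 1) m → Bd (fun u v => ¬ r u v) T (fun _ => 1) m →
      (T.card : ℝ) ≤ ρ)
    {x y : V → ℕ} (hx : ∀ v, 1 ≤ x v) (hy : ∀ v, 1 ≤ y v) (S : Finset V) {a b : ℕ} {L : ℝ}
    (hL0 : 0 ≤ L) (hL : (2 : ℝ) ^ m ≤ L ^ 2) (hρL : ρ ≤ L) (ham : a ≤ m) (hbm : b ≤ m)
    (Ha : Bd r S x a) (Hb : Bd (fun u v => ¬ r u v) S y b)
    (h1 : ∀ v ∈ S, 256 * x v < a ∨ 256 * y v < b) {g : V → ℝ} (hg0 : ∀ v ∈ S, 0 ≤ g v)
    (hgL : ∀ v ∈ S, g v ≤ L)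
    (hgT : ∀ v ∈ S, 256 * x v < a → 256 * y v < b → g v ≤ (TT m) ^ 2)
    (hg3 : ∀ v ∈ S, x v < 300 → y v < 300 → g v ≤ (64 * (m : ℝ)) ^ 600) :
    ∑ v ∈ S, (x v : ℝ) ^ kp * (y v : ℝ) ^ kp * g v ≤ (a : ℝ) ^ kp * (b : ℝ) ^ kp * L := by
  classical
  have hs' : ∀ u v, ¬ r u v → ¬ r v u := fun u v h h' => h (hs _ _ h')
  rw [← Finset.sum_filter_add_sum_filter_not S (fun v => 256 * x v < a),
    ← Finset.sum_filter_add_sum_filter_not (S.filter (fun v => 256 * x v < a))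
      (fun v => 256 * y v < b),
    ← Finset.sum_filter_add_sum_filter_not ((S.filter (fun v => 256 * x v < a)).filter
      (fun v => 256 * y v < b)) (fun v => x v < 300 ∧ y v < 300)]
  have c4 := class_light hB hs hcard hx hy
    (((S.filter (fun v => 256 * x v < a)).filter (fun v => 256 * y v < b)).filter
      (fun v => x v < 300 ∧ y v < 300)) hL0 hL hρL ham hbm
    (Ha.mono (fun v hv => (Finset.mem_filter.1 (Finset.mem_filter.1
      (Finset.mem_filter.1 hv).1).1).1))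
    (Hb.mono (fun v hv => (Finset.mem_filter.1 (Finset.mem_filter.1
      (Finset.mem_filter.1 hv).1).1).1))
    (fun v hv => (Finset.mem_filter.1 hv).2)
    (g := g) (fun v hv => hg0 v (Finset.mem_filter.1 (Finset.mem_filter.1
      (Finset.mem_filter.1 hv).1).1).1)
    (fun v hv => hg3 v (Finset.mem_filter.1 (Finset.mem_filter.1
      (Finset.mem_filter.1 hv).1).1).1 (Finset.mem_filter.1 hv).2.1 (Finset.mem_filter.1 hv).2.2)
  have c3 := class_heavy hB hs hx hy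
    (((S.filter (fun v => 256 * x v < a)).filter (fun v => 256 * y v < b)).filter
      (fun v => ¬ (x v < 300 ∧ y v < 300))) hL0 hL ham hbm
    (Ha.mono (fun v hv => (Finset.mem_filter.1 (Finset.mem_filter.1
      (Finset.mem_filter.1 hv).1).1).1))
    (Hb.mono (fun v hv => (Finset.mem_filter.1 (Finset.mem_filter.1
      (Finset.mem_filter.1 hv).1).1).1))
    (fun v hv => (Finset.mem_filter.1 hv).2)
    (g := g) (fun v hv => hg0 v (Finset.mem_filter.1 (Finset.mem_filter.1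
      (Finset.mem_filter.1 hv).1).1).1)
    (fun v hv => hgT v (Finset.mem_filter.1 (Finset.mem_filter.1
      (Finset.mem_filter.1 hv).1).1).1
      (Finset.mem_filter.1 (Finset.mem_filter.1 (Finset.mem_filter.1 hv).1).1).2
      (Finset.mem_filter.1 (Finset.mem_filter.1 hv).1).2)
  have c1 := class_one hs hx hy
    ((S.filter (fun v => 256 * x v < a)).filter (fun v => ¬ 256 * y v < b)) hL0
    (Ha.mono (fun v hv => (Finset.mem_filter.1 (Finset.mem_filter.1 hv).1).1))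
    (Hb.mono (fun v hv => (Finset.mem_filter.1 (Finset.mem_filter.1 hv).1).1))
    (fun v hv => (Finset.mem_filter.1 (Finset.mem_filter.1 hv).1).2)
    (fun v hv => not_lt.1 (Finset.mem_filter.1 hv).2)
    (g := g) (fun v hv => hg0 v (Finset.mem_filter.1 (Finset.mem_filter.1 hv).1).1)
    (fun v hv => hgL v (Finset.mem_filter.1 (Finset.mem_filter.1 hv).1).1)
  have c2 := class_one hs' hy hx (S.filter (fun v => ¬ 256 * x v < a)) hL0
    (Hb.mono (Finset.filter_subset _ _))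
    (Bd.congr (r := r) (fun u v h => not_not.1 h) (Ha.mono (Finset.filter_subset _ _)))
    (fun v hv => by
      rcases h1 v (Finset.mem_filter.1 hv).1 with h | h
      · exact absurd h (Finset.mem_filter.1 hv).2
      · exact h)
    (fun v hv => not_lt.1 (Finset.mem_filter.1 hv).2)
    (g := g) (fun v hv => hg0 v (Finset.mem_filter.1 hv).1)
    (fun v hv => hgL v (Finset.mem_filter.1 hv).1)
  have c2' : ∑ v ∈ S.filter (fun v => ¬ 256 * x v < a), (x v : ℝ) ^ kp * (y v : ℝ) ^ kp * g v ≤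
      (a : ℝ) ^ kp * (b : ℝ) ^ kp * (L / 4) := by
    calc ∑ v ∈ S.filter (fun v => ¬ 256 * x v < a), (x v : ℝ) ^ kp * (y v : ℝ) ^ kp * g v
        = ∑ v ∈ S.filter (fun v => ¬ 256 * x v < a), (y v : ℝ) ^ kp * (x v : ℝ) ^ kp * g v :=
          Finset.sum_congr rfl (fun v _ => by rw [mul_comm ((x v : ℝ) ^ kp)])
      _ ≤ (b : ℝ) ^ kp * (a : ℝ) ^ kp * (L / 4) := c2
      _ = (a : ℝ) ^ kp * (b : ℝ) ^ kp * (L / 4) := by rw [mul_comm ((b : ℝ) ^ kp)]
  have : (a : ℝ) ^ kp * (b : ℝ) ^ kp * L = (a : ℝ) ^ kp * (b : ℝ) ^ kp * (L / 4) +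
      (a : ℝ) ^ kp * (b : ℝ) ^ kp * (L / 4) + (a : ℝ) ^ kp * (b : ℝ) ^ kp * (L / 4) +
      (a : ℝ) ^ kp * (b : ℝ) ^ kp * (L / 4) := by ring
  rw [this]
  exact add_le_add (add_le_add (add_le_add c4 c3) c1) c2'

end Pool.Agent.helper21.GR
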