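import Pool.Agent.helper21.GR.Odd3

/-! Odd numbers of colours (for MP_89787e_co): the three two-colour inequalities. -/

set_option autoImplicit false
set_option linter.unusedSectionVars false

namespace Pool.Agent.helper21.GR

theorem one_le_W {m q x : ℕ} (hm : 1 ≤ m) (hq : 1 ≤ q) (hqm : q ≤ m + 1) (hx : 1 ≤ x) :
    1 ≤ W m q x := by
  rw [← W_one (m := m) hq]
  exact W_mono hm hq hqm hx

theorem one_le_cap {m q : ℕ} (hm : 1 ≤ m) (hq : 1 ≤ q) (hqm : q ≤ m + 1) : 1 ≤ W' m q := by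
  rw [← W_high (m := m) hq le_rfl]
  exact one_le_W hm hq hqm hq

theorem const_three : 4 * (kp : ℝ) * (1 / 256) ^ (kp - 1) ≤ 1 := by
  rw [kp_eq]
  have h1 : ((1300 : ℕ) : ℝ) ≤ 2 ^ 11 := by norm_num
  have h2 : (1 / 256 : ℝ) ^ (1300 - 1) = 1 / 2 ^ (8 * 1299) := by
    rw [show (1 / 256 : ℝ) = (1 / 2) ^ 8 by norm_num, ← pow_mul, one_div_pow]
  rw [h2, mul_one_div, div_le_one (by positivity)]
  calc 4 * ((1300 : ℕ) : ℝ) ≤ 2 ^ 2 * 2 ^ 11 := by
        rw [show (4 : ℝ) = 2 ^ 2 by norm_num]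
        exact mul_le_mul_of_nonneg_left h1 (by positivity)
    _ = 2 ^ (2 + 11) := by rw [pow_add]
    _ ≤ 2 ^ (8 * 1299) := pow_le_pow_right₀ (by norm_num) (by norm_num)

theorem const_four (a : ℕ) : (kp : ℝ) * (a : ℝ) ^ 1 * ((a / 256 : ℕ) : ℝ) ^ (kp - 1) * 4 ≤
    (a : ℝ) ^ kp := by
  have hN : ((a / 256 : ℕ) : ℝ) ≤ (a : ℝ) * (1 / 256) := by
    have := Nat.cast_div_le (α := ℝ) (m := a) (n := 256)
    push_cast at this
    linarith
  have e3 : ((a / 256 : ℕ) : ℝ) ^ (kp - 1) ≤ (a : ℝ) ^ (kp - 1) * (1 / 256) ^ (kp - 1) := by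
    rw [← mul_pow]
    exact pow_le_pow_left₀ (by positivity) hN _
  have e4 : (a : ℝ) ^ 1 * (a : ℝ) ^ (kp - 1) = (a : ℝ) ^ kp := by
    rw [← pow_add, Nat.add_sub_cancel' kp_pos]
  calc (kp : ℝ) * (a : ℝ) ^ 1 * ((a / 256 : ℕ) : ℝ) ^ (kp - 1) * 4
      ≤ (kp : ℝ) * (a : ℝ) ^ 1 * ((a : ℝ) ^ (kp - 1) * (1 / 256) ^ (kp - 1)) * 4 := by
        apply mul_le_mul_of_nonneg_right _ (by norm_num)
        exact mul_le_mul_of_nonneg_left e3 (by positivity)
    _ = ((a : ℝ) ^ 1 * (a : ℝ) ^ (kp - 1)) * (4 * (kp : ℝ) * (1 / 256) ^ (kp - 1)) := by ring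
    _ ≤ (a : ℝ) ^ kp * 1 := by
        rw [e4]
        exact mul_le_mul_of_nonneg_left const_three (by positivity)
    _ = (a : ℝ) ^ kp := mul_one _

variable {V : Type*} [DecidableEq V]

theorem macro_or_flat {m q : ℕ} {ρ : ℝ} (hB : Big m) (hq : 1 ≤ q) (hqm : q ≤ m + 1)
    (hL : (2 : ℝ) ^ m ≤ (W' m q) ^ 2) (hρL : ρ ≤ W' m q)
    {r : V → V → Prop} (hs : ∀ u v, r u v → r v u)
    (hcard : ∀ T : Finset V, Bd r T (fun _ => 1) m → Bd (fun u v => ¬ r u v) T (fun _ => 1) m →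
      (T.card : ℝ) ≤ ρ)
    {x y : V → ℕ} (hx : ∀ v, 1 ≤ x v) (hy : ∀ v, 1 ≤ y v) (S : Finset V) {a b : ℕ}
    (ham : a ≤ m) (hbm : b ≤ m)
    (Ha : Bd r S x a) (Hb : Bd (fun u v => ¬ r u v) S y b) {γ : ℕ → ℕ → ℝ}
    (h0 : ∀ i j, 1 ≤ i → 1 ≤ j → 0 ≤ γ i j) (h1 : ∀ i j, 1 ≤ i → 1 ≤ j → γ i j ≤ W' m q)
    (h2 : ∀ i j, 1 ≤ i → 1 ≤ j → γ i j ≤ W m q i * W m q j) :
    (∃ v ∈ S, a ≤ 256 * x v ∧ b ≤ 256 * y v) ∨
      ∑ v ∈ S, (x v : ℝ) ^ kp * (y v : ℝ) ^ kp * γ (x v) (y v) ≤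
        (a : ℝ) ^ kp * (b : ℝ) ^ kp * W' m q := by
  by_cases hc : ∃ v ∈ S, a ≤ 256 * x v ∧ b ≤ 256 * y v
  · exact Or.inl hc
  right
  push Not at hc
  have hm := hB.one
  have hT := one_le_TT m
  apply flat_gen hB hs hcard hx hy S (W'_pos hm q).le hL hρL ham hbm Ha Hb
    (g := fun v => γ (x v) (y v))
  · intro v hv
    by_cases h : a ≤ 256 * x v
    · exact Or.inr (hc v hv h)
    · exact Or.inl (by omega)
  · intro v _; exact h0 _ _ (hx v) (hy v)
  · intro v _; exact h1 _ _ (hx v) (hy v)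
  · intro v _ h3 h4
    refine (h2 _ _ (hx v) (hy v)).trans ?_
    have e1 := W_thin (q := q) hm hq (hx v) h3 ham
    have e2 := W_thin (q := q) hm hq (hy v) h4 hbm
    rw [sq]
    exact mul_le_mul e1 e2 (W_nonneg hm _ _) (by linarith)
  · intro v hv h3 h4
    refine (h2 _ _ (hx v) (hy v)).trans ?_
    have e1 := W_light (q := q) hm hq (hx v) h3 ((Ha.single hv).trans ham)
    have e2 := W_light (q := q) hm hq (hy v) h4 ((Hb.single hv).trans hbm)
    rw [show (600 : ℕ) = 300 + 300 by norm_num, pow_add]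
    exact mul_le_mul e1 e2 (W_nonneg hm _ _) (by positivity)

/-- one coordinate below the cap, thin in the other one -/
theorem mixed {m q : ℕ} (hB : Big m) (hq : 1 ≤ q) (hqm : q ≤ m + 1)
    (hL : (2 : ℝ) ^ m ≤ (W' m q) ^ 2)
    {r : V → V → Prop} (hs : ∀ u v, r u v → r v u)
    {x y : V → ℕ} (hx : ∀ v, 1 ≤ x v) (hy : ∀ v, 1 ≤ y v) (S : Finset V) {a b : ℕ}
    (haq : a ≤ q) (hbq : q ≤ b) (ham : a ≤ m) (hbm : b ≤ m)
    (Ha : Bd r S x a) (Hb : Bd (fun u v => ¬ r u v) S y b) (hthin : ∀ v ∈ S, 256 * y v < b) :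
    ∑ v ∈ S, Wt m q (x v) * Wt m q (y v) ≤ Wt m q a * Wt m q b := by
  have hm := hB.one
  have hT := one_le_TT m
  have hs' : ∀ u v, ¬ r u v → ¬ r v u := fun u v h h' => h (hs _ _ h')
  have hb1 : 1 ≤ b := hq.trans hbq
  have Wb : W m q b = W' m q := W_high hb1 hbq
  have e1 := sum_W_le (q := q) hs' hx S hbm hb1 haq ham (Hb.one hy)
    (Bd.congr (r := r) (fun u v h => not_not.1 h) Ha)
  have Wa0 := W_nonneg hm q a
  have hbm' : (b : ℝ) ≤ m := by exact_mod_cast hbm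
  have e2 : ∑ v ∈ S, Wt m q (x v) * Wt m q (y v) ≤
      (∑ v ∈ S, W m q (x v)) * ((a : ℝ) ^ kp * (b : ℝ) ^ kp * TT m) := by
    rw [Finset.sum_mul]
    apply Finset.sum_le_sum
    intro v hv
    have f1 : (x v : ℝ) ^ kp ≤ (a : ℝ) ^ kp :=
      pow_le_pow_left₀ (by positivity) (by exact_mod_cast Ha.single hv) _
    have f2 : (y v : ℝ) ^ kp ≤ (b : ℝ) ^ kp :=
      pow_le_pow_left₀ (by positivity) (by exact_mod_cast Hb.single hv) _
    have f3 := W_thin (q := q) hm hq (hy v) (hthin v hv) hbm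
    have f4 := W_nonneg hm q (x v)
    have f5 := W_nonneg hm q (y v)
    have f6 : (x v : ℝ) ^ kp * (y v : ℝ) ^ kp * W m q (y v) ≤ (a : ℝ) ^ kp * (b : ℝ) ^ kp * TT m :=
      mul_le_mul (mul_le_mul f1 f2 (by positivity) (by positivity)) f3 f5 (by positivity)
    calc Wt m q (x v) * Wt m q (y v)
        = W m q (x v) * ((x v : ℝ) ^ kp * (y v : ℝ) ^ kp * W m q (y v)) := by
          unfold Wt; ring
      _ ≤ W m q (x v) * ((a : ℝ) ^ kp * (b : ℝ) ^ kp * TT m) := mul_le_mul_of_nonneg_left f6 f4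
  have e3 : 4 * m * TT m ≤ W' m q := le_of_sq_le_sq (hB.thin.trans hL) (W'_pos hm q).le
  have e4 : (∑ v ∈ S, W m q (x v)) ≤ 4 * m * W m q a := by
    refine e1.trans ?_
    apply mul_le_mul_of_nonneg_right _ Wa0
    linarith
  calc ∑ v ∈ S, Wt m q (x v) * Wt m q (y v)
      ≤ (∑ v ∈ S, W m q (x v)) * ((a : ℝ) ^ kp * (b : ℝ) ^ kp * TT m) := e2
    _ ≤ (4 * m * W m q a) * ((a : ℝ) ^ kp * (b : ℝ) ^ kp * TT m) :=
        mul_le_mul_of_nonneg_right e4 (by positivity)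
    _ = ((a : ℝ) ^ kp * W m q a * (b : ℝ) ^ kp) * (4 * m * TT m) := by ring
    _ ≤ ((a : ℝ) ^ kp * W m q a * (b : ℝ) ^ kp) * W' m q :=
        mul_le_mul_of_nonneg_left e3 (by positivity)
    _ = Wt m q a * Wt m q b := by
        unfold Wt; rw [Wb]; ring

theorem ineq_PP {m q : ℕ} {ρ : ℝ} (hB : Big m) (hq : 1 ≤ q) (hqm : q ≤ m + 1)
    (hL : (2 : ℝ) ^ m ≤ (W' m q) ^ 2) (hρL : ρ ≤ W' m q)
    {r : V → V → Prop} (hs : ∀ u v, r u v → r v u)
    (hcard : ∀ T : Finset V, Bd r T (fun _ => 1) m → Bd (fun u v => ¬ r u v) T (fun _ => 1) m →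
      (T.card : ℝ) ≤ ρ)
    {x y : V → ℕ} (hx : ∀ v, 1 ≤ x v) (hy : ∀ v, 1 ≤ y v) :
    ∀ (S : Finset V) (a b : ℕ), a ≤ m → b ≤ m → Bd r S x a → Bd (fun u v => ¬ r u v) S y b →
      ∑ v ∈ S, Wt m q (x v) * Wt m q (y v) ≤ Wt m q a * Wt m q b := by
  have hm := hB.one
  have P := Wt_PL hm hq hqm
  have hs' : ∀ u v, ¬ r u v → ¬ r v u := fun u v h h' => h (hs _ _ h')
  apply es_ind hs (φ := fun i j => Wt m q i * Wt m q j) (Φ := fun a b => Wt m q a * Wt m q b)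
  · intro a b; exact mul_nonneg (P.nonneg a) (P.nonneg b)
  intro S a b hne ham hbm Ha Hb
  obtain ⟨v0, hv0⟩ := hne
  show (∃ v ∈ S, Wt m q (x v) * Wt m q (y v) + Wt m q (a - x v) * Wt m q b +
    Wt m q a * Wt m q (b - y v) ≤ Wt m q a * Wt m q b) ∨
    ∑ v ∈ S, Wt m q (x v) * Wt m q (y v) ≤ Wt m q a * Wt m q b
  rcases le_or_gt a q with haq | haq <;> rcases le_or_gt b q with hbq | hbq
  · exact Or.inl ⟨v0, hv0, es_small P P (hx v0) (Ha.single hv0) (hy v0) (Hb.single hv0)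
      (Wt_Sm hqm haq) (Wt_Sm hqm hbq)⟩
  · by_cases hc : ∃ v ∈ S, b ≤ 256 * y v
    · obtain ⟨v, hv, h⟩ := hc
      exact Or.inl ⟨v, hv, es_left P P (hx v) (Ha.single hv) (hy v) (Hb.single hv)
        (Or.inr ⟨Wt_Sm hqm haq, h⟩)⟩
    · push Not at hc
      exact Or.inr (mixed hB hq hqm hL hs hx hy S haq hbq.le ham hbm Ha Hb hc)
  · by_cases hc : ∃ v ∈ S, a ≤ 256 * x v
    · obtain ⟨v, hv, h⟩ := hc
      exact Or.inl ⟨v, hv, es_right P P (hx v) (Ha.single hv) (hy v) (Hb.single hv)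
        (Or.inr ⟨Wt_Sm hqm hbq, h⟩)⟩
    · push Not at hc
      right
      have := mixed hB hq hqm hL hs' hy hx S hbq haq.le hbm ham Hb
        (Bd.congr (r := r) (fun u v h => not_not.1 h) Ha) hc
      calc ∑ v ∈ S, Wt m q (x v) * Wt m q (y v) = ∑ v ∈ S, Wt m q (y v) * Wt m q (x v) :=
            Finset.sum_congr rfl (fun v _ => mul_comm _ _)
        _ ≤ Wt m q b * Wt m q a := this
        _ = Wt m q a * Wt m q b := mul_comm _ _
  · have hL0 := W'_pos hm q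
    have hL1 := one_le_cap hm hq hqm
    rcases macro_or_flat hB hq hqm hL hρL hs hcard hx hy S ham hbm Ha Hb
      (γ := fun i j => W m q i * W m q j / W' m q)
      (fun i j _ _ => div_nonneg (mul_nonneg (W_nonneg hm _ _) (W_nonneg hm _ _)) hL0.le)
      (fun i j _ _ => by
        show W m q i * W m q j / W' m q ≤ W' m q
        rw [div_le_iff₀ hL0]
        exact mul_le_mul (W_le_cap hm hq hqm i) (W_le_cap hm hq hqm j) (W_nonneg hm _ _) hL0.le)
      (fun i j _ _ => div_le_self (mul_nonneg (W_nonneg hm _ _) (W_nonneg hm _ _)) hL1)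
      with ⟨v, hv, h1, h2⟩ | h
    · exact Or.inl ⟨v, hv, es_macro P P (hx v) (Ha.single hv) (hy v) (Hb.single hv) h1 h2⟩
    · right
      have Wa : W m q a = W' m q := W_high (by omega) haq.le
      have Wb : W m q b = W' m q := W_high (by omega) hbq.le
      have e1 : ∑ v ∈ S, Wt m q (x v) * Wt m q (y v) =
          (∑ v ∈ S, (x v : ℝ) ^ kp * (y v : ℝ) ^ kp * (W m q (x v) * W m q (y v) / W' m q)) *
            W' m q := by
        rw [Finset.sum_mul]
        apply Finset.sum_congr rfl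
        intro v _
        unfold Wt
        field_simp
      rw [e1]
      calc _ ≤ ((a : ℝ) ^ kp * (b : ℝ) ^ kp * W' m q) * W' m q :=
            mul_le_mul_of_nonneg_right h hL0.le
        _ = Wt m q a * Wt m q b := by unfold Wt; rw [Wa, Wb]; ring

theorem ineq_L {m q : ℕ} {ρ : ℝ} (hB : Big m) (hq : 1 ≤ q) (hqm : q ≤ m + 1)
    (hL : (2 : ℝ) ^ m ≤ (W' m q) ^ 2) (hρL : ρ ≤ W' m q)
    {r : V → V → Prop} (hs : ∀ u v, r u v → r v u)
    (hcard : ∀ T : Finset V, Bd r T (fun _ => 1) m → Bd (fun u v => ¬ r u v) T (fun _ => 1) m →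
      (T.card : ℝ) ≤ ρ)
    {x y : V → ℕ} (hx : ∀ v, 1 ≤ x v) (hy : ∀ v, 1 ≤ y v) :
    ∀ (S : Finset V) (a b : ℕ), a ≤ m → b ≤ m → Bd r S x a → Bd (fun u v => ¬ r u v) S y b →
      ∑ v ∈ S, U (x v) * Wt m q (y v) ≤ U a * Wt m q b := by
  classical
  have hm := hB.one
  have P := Wt_PL hm hq hqm
  apply es_ind hs (φ := fun i j => U i * Wt m q j) (Φ := fun a b => U a * Wt m q b)
  · intro a b; exact mul_nonneg (U_nonneg a) (P.nonneg b)
  intro S a b hne ham hbm Ha Hb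
  obtain ⟨v0, hv0⟩ := hne
  show (∃ v ∈ S, U (x v) * Wt m q (y v) + U (a - x v) * Wt m q b +
    U a * Wt m q (b - y v) ≤ U a * Wt m q b) ∨
    ∑ v ∈ S, U (x v) * Wt m q (y v) ≤ U a * Wt m q b
  have hL0 := W'_pos hm q
  rcases le_or_gt b q with hbq | hbq
  · by_cases hc : ∃ v ∈ S, a ≤ 256 * x v
    · obtain ⟨v, hv, h⟩ := hc
      exact Or.inl ⟨v, hv, es_right U_PL P (hx v) (Ha.single hv) (hy v) (Hb.single hv)
        (Or.inr ⟨Wt_Sm hqm hbq, h⟩)⟩
    · push Not at hc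
      right
      have Wb0 := W_nonneg hm q b
      have step : ∑ v ∈ S, U (x v) * Wt m q (y v) ≤
          (∑ v ∈ S, (x v : ℝ) ^ kp * W m q (y v)) * (b : ℝ) ^ kp := by
        rw [Finset.sum_mul]
        apply Finset.sum_le_sum
        intro v hv
        have f2 : (y v : ℝ) ^ kp ≤ (b : ℝ) ^ kp :=
          pow_le_pow_left₀ (by positivity) (by exact_mod_cast Hb.single hv) _
        have f4 := W_nonneg hm q (y v)
        calc U (x v) * Wt m q (y v) = ((x v : ℝ) ^ kp * W m q (y v)) * (y v : ℝ) ^ kp := by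
              unfold U Wt; ring
          _ ≤ ((x v : ℝ) ^ kp * W m q (y v)) * (b : ℝ) ^ kp :=
              mul_le_mul_of_nonneg_left f2 (by positivity)
      have hk1 : (kp - 1) + 1 = kp := by have := kp_pos; omega
      have hpk : 1 ≤ kp - 1 := by rw [kp_eq]; norm_num
      have cnt : ∀ i : ℕ, 1 ≤ i → i ≤ a / 256 →
          ∑ v ∈ S.filter (fun v => i ≤ x v), W m q (y v) ≤ 4 * W m q b * ((a : ℝ) / i) ^ 1 := by
        intro i hi1 hiN
        have hia : 1 ≤ a / i := by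
          rw [Nat.le_div_iff_mul_le (by omega)]; omega
        have c1 := sum_W_le (q := q) hs hy (S.filter (fun v => i ≤ x v))
          (A := a / i) ((Nat.div_le_self _ _).trans ham) hia hbq hbm
          (Ha.large hi1 (Finset.filter_subset _ _) (fun v hv => (Finset.mem_filter.1 hv).2))
          (Hb.mono (Finset.filter_subset _ _))
        refine c1.trans ?_
        rw [pow_one]
        have c2 : ((a / i : ℕ) : ℝ) ≤ (a : ℝ) / i := Nat.cast_div_le
        calc 4 * ((a / i : ℕ) : ℝ) * W m q b = 4 * W m q b * ((a / i : ℕ) : ℝ) := by ring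
          _ ≤ 4 * W m q b * ((a : ℝ) / i) := mul_le_mul_of_nonneg_left c2 (by positivity)
      have lay := layer (κ := kp - 1) (p := 1) (N := a / 256) (S := S) (x := x)
        (g := fun v => W m q (y v)) (G := 4 * W m q b) (a := (a : ℝ)) hpk
        (fun v _ => W_nonneg hm _ _) (fun v hv => by have := hc v hv; omega) (by positivity)
        (by positivity) cnt
      rw [hk1] at lay
      have fin : (∑ v ∈ S, (x v : ℝ) ^ kp * W m q (y v)) ≤ (a : ℝ) ^ kp * W m q b := by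
        calc ∑ v ∈ S, (x v : ℝ) ^ kp * W m q (y v)
            ≤ 4 * W m q b * (kp : ℝ) * (a : ℝ) ^ 1 * ((a / 256 : ℕ) : ℝ) ^ (kp - 1) := lay
          _ = ((kp : ℝ) * (a : ℝ) ^ 1 * ((a / 256 : ℕ) : ℝ) ^ (kp - 1) * 4) * W m q b := by ring
          _ ≤ (a : ℝ) ^ kp * W m q b := mul_le_mul_of_nonneg_right (const_four a) Wb0
      calc ∑ v ∈ S, U (x v) * Wt m q (y v)
          ≤ (∑ v ∈ S, (x v : ℝ) ^ kp * W m q (y v)) * (b : ℝ) ^ kp := step
        _ ≤ ((a : ℝ) ^ kp * W m q b) * (b : ℝ) ^ kp :=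
            mul_le_mul_of_nonneg_right fin (by positivity)
        _ = U a * Wt m q b := by unfold U Wt; ring
  · rcases macro_or_flat hB hq hqm hL hρL hs hcard hx hy S ham hbm Ha Hb
      (γ := fun _ j => W m q j)
      (fun i j _ _ => W_nonneg hm _ _)
      (fun i j _ _ => W_le_cap hm hq hqm j)
      (fun i j hi _ => by
        show W m q j ≤ W m q i * W m q j
        exact le_mul_of_one_le_left (W_nonneg hm _ _) (one_le_W hm hq hqm hi))
      with ⟨v, hv, h1, h2⟩ | h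
    · exact Or.inl ⟨v, hv, es_macro U_PL P (hx v) (Ha.single hv) (hy v) (Hb.single hv) h1 h2⟩
    · right
      have Wb : W m q b = W' m q := W_high (by omega) hbq.le
      calc ∑ v ∈ S, U (x v) * Wt m q (y v)
          = ∑ v ∈ S, (x v : ℝ) ^ kp * (y v : ℝ) ^ kp * W m q (y v) :=
            Finset.sum_congr rfl (fun v _ => by unfold U Wt; ring)
        _ ≤ (a : ℝ) ^ kp * (b : ℝ) ^ kp * W' m q := h
        _ = U a * Wt m q b := by unfold U Wt; rw [Wb]; ring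

theorem ineq_K {m q : ℕ} {ρ : ℝ} (hB : Big m) (hq : 1 ≤ q) (hqm : q ≤ m + 1)
    (hL : (2 : ℝ) ^ m ≤ (W' m q) ^ 2) (hρL : ρ ≤ W' m q)
    {r : V → V → Prop} (hs : ∀ u v, r u v → r v u)
    (hcard : ∀ T : Finset V, Bd r T (fun _ => 1) m → Bd (fun u v => ¬ r u v) T (fun _ => 1) m →
      (T.card : ℝ) ≤ ρ)
    {x y : V → ℕ} (hx : ∀ v, 1 ≤ x v) (hy : ∀ v, 1 ≤ y v) :
    ∀ (S : Finset V) (a b : ℕ), a ≤ m → b ≤ m → Bd r S x a → Bd (fun u v => ¬ r u v) S y b →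
      ∑ v ∈ S, U (x v) * U (y v) * min (W' m q) (W m q (x v) * W m q (y v)) ≤
        U a * U b * W' m q := by
  have hm := hB.one
  have hL0 := W'_pos hm q
  apply es_ind hs (φ := fun i j => U i * U j * min (W' m q) (W m q i * W m q j))
    (Φ := fun a b => U a * U b * W' m q)
  · intro a b; exact mul_nonneg (mul_nonneg (U_nonneg a) (U_nonneg b)) hL0.le
  intro S a b hne ham hbm Ha Hb
  show (∃ v ∈ S, U (x v) * U (y v) * min (W' m q) (W m q (x v) * W m q (y v)) +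
    U (a - x v) * U b * W' m q + U a * U (b - y v) * W' m q ≤ U a * U b * W' m q) ∨
    ∑ v ∈ S, U (x v) * U (y v) * min (W' m q) (W m q (x v) * W m q (y v)) ≤ U a * U b * W' m q
  rcases macro_or_flat hB hq hqm hL hρL hs hcard hx hy S ham hbm Ha Hb
      (γ := fun i j => min (W' m q) (W m q i * W m q j))
      (fun i j _ _ => le_min hL0.le (mul_nonneg (W_nonneg hm _ _) (W_nonneg hm _ _)))
      (fun i j _ _ => min_le_left _ _)
      (fun i j _ _ => min_le_right _ _)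
      with ⟨v, hv, h1, h2⟩ | h
  · left
    refine ⟨v, hv, ?_⟩
    have e := es_macro U_PL U_PL (hx v) (Ha.single hv) (hy v) (Hb.single hv) h1 h2
    have e1 : U (x v) * U (y v) * min (W' m q) (W m q (x v) * W m q (y v)) ≤
        U (x v) * U (y v) * W' m q :=
      mul_le_mul_of_nonneg_left (min_le_left _ _) (mul_nonneg (U_nonneg _) (U_nonneg _))
    have e2 := mul_le_mul_of_nonneg_right e hL0.le
    calc U (x v) * U (y v) * min (W' m q) (W m q (x v) * W m q (y v)) +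
          U (a - x v) * U b * W' m q + U a * U (b - y v) * W' m q
        ≤ U (x v) * U (y v) * W' m q + U (a - x v) * U b * W' m q +
          U a * U (b - y v) * W' m q := by linarith
      _ = (U (x v) * U (y v) + U (a - x v) * U b + U a * U (b - y v)) * W' m q := by ring
      _ ≤ U a * U b * W' m q := e2
  · right
    exact h

end Pool.Agent.helper21.GR
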