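import Pool.Agent.helper21.GR.Odd4
import Pool.Agent.helper21.GR.Main

/-! Odd numbers of colours (for MP_89787e_co): the potential. -/

set_option autoImplicit false
set_option linter.unusedSectionVars false

namespace Pool.Agent.helper21.GR

section
variable {K : Type*} [DecidableEq K] [Fintype K]

/-- weight of colour `l` -/
noncomputable def GB (m q : ℕ) (B : Finset K) (l : K) (a : ℕ) : ℝ :=
  if l ∈ B then U a else Wt m q a

/-- potential for a given set of unpaired colours -/
noncomputable def FB (m q : ℕ) (B : Finset K) (A : K → ℕ) : ℝ :=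
  (W' m q) ^ ((B.card - 1) / 2) * ∏ l, GB m q B l (A l)

/-- sets of odd size -/
def odds (K : Type*) [DecidableEq K] [Fintype K] : Finset (Finset K) :=
  Finset.univ.filter (fun B => Odd B.card)

theorem odds_nonempty [Nonempty K] : (odds K).Nonempty := by
  obtain ⟨l⟩ := (inferInstance : Nonempty K)
  exact ⟨{l}, Finset.mem_filter.2 ⟨Finset.mem_univ _, by rw [Finset.card_singleton]; exact odd_one⟩⟩

/-- the potential -/
noncomputable def Fo [Nonempty K] (m q : ℕ) (A : K → ℕ) : ℝ :=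
  (odds K).inf' odds_nonempty (fun B => FB m q B A)

theorem Fo_le [Nonempty K] {m q : ℕ} {A : K → ℕ} {B : Finset K} (hB : Odd B.card) :
    Fo m q A ≤ FB m q B A := by
  have hmem : B ∈ odds K := Finset.mem_filter.2 ⟨Finset.mem_univ B, hB⟩
  exact Finset.inf'_le (fun B => FB m q B A) hmem

theorem Fo_eq [Nonempty K] (m q : ℕ) (A : K → ℕ) : ∃ B : Finset K, Odd B.card ∧
    Fo m q A = FB m q B A := by
  obtain ⟨B, hB, h⟩ := Finset.exists_mem_eq_inf' (odds_nonempty (K := K)) (fun B => FB m q B A)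
  exact ⟨B, (Finset.mem_filter.1 hB).2, h⟩

theorem GB_nonneg {m q : ℕ} (hm : 1 ≤ m) (B : Finset K) (l : K) (a : ℕ) : 0 ≤ GB m q B l a := by
  unfold GB
  split_ifs
  · exact U_nonneg a
  · exact mul_nonneg (by positivity) (W_nonneg hm _ _)

theorem GB_mono {m q : ℕ} (hm : 1 ≤ m) (hq : 1 ≤ q) (hqm : q ≤ m + 1) (B : Finset K) (l : K)
    {a b : ℕ} (h : a ≤ b) : GB m q B l a ≤ GB m q B l b := by
  unfold GB
  split_ifs
  · exact U_mono h
  · exact (Wt_PL hm hq hqm).mono h

theorem GB_one {m q : ℕ} (hq : 1 ≤ q) (B : Finset K) (l : K) : GB m q B l 1 = 1 := by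
  unfold GB
  split_ifs
  · exact U_one
  · unfold Wt; rw [W_one hq]; simp

theorem FB_mono {m q : ℕ} (hm : 1 ≤ m) (hq : 1 ≤ q) (hqm : q ≤ m + 1) (B : Finset K)
    {A A' : K → ℕ} (h : ∀ l, A l ≤ A' l) : FB m q B A ≤ FB m q B A' := by
  unfold FB
  apply mul_le_mul_of_nonneg_left _ (pow_nonneg (W'_pos hm q).le _)
  exact Finset.prod_le_prod (fun l _ => GB_nonneg hm B l _) (fun l _ => GB_mono hm hq hqm B l (h l))

theorem Fo_mono [Nonempty K] {m q : ℕ} (hm : 1 ≤ m) (hq : 1 ≤ q) (hqm : q ≤ m + 1)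
    (A A' : K → ℕ) (h : ∀ l, A l ≤ A' l) : Fo m q A ≤ Fo m q A' := by
  obtain ⟨B, hB, e⟩ := Fo_eq m q A'
  rw [e]
  exact (Fo_le hB).trans (FB_mono hm hq hqm B h)

theorem prod_update {i j : K} (hij : i ≠ j) (G : K → ℕ → ℝ) (A : K → ℕ) (a b : ℕ) :
    ∏ l, G l (Function.update (Function.update A i a) j b l) =
      G i a * G j b * ∏ l ∈ (Finset.univ.erase i).erase j, G l (A l) := by
  rw [← Finset.mul_prod_erase Finset.univ _ (Finset.mem_univ i),
    ← Finset.mul_prod_erase (Finset.univ.erase i) _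
      (Finset.mem_erase.2 ⟨hij.symm, Finset.mem_univ j⟩), ← mul_assoc]
  congr 1
  · rw [Function.update_self, Function.update_of_ne hij, Function.update_self]
  · apply Finset.prod_congr rfl
    intro l hl
    rw [Finset.mem_erase, Finset.mem_erase] at hl
    rw [Function.update_of_ne hl.1, Function.update_of_ne hl.2.1]

theorem prod_two {i j : K} (hij : i ≠ j) (G : K → ℕ → ℝ) (A : K → ℕ) :
    ∏ l, G l (A l) = G i (A i) * G j (A j) * ∏ l ∈ (Finset.univ.erase i).erase j, G l (A l) := by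
  rw [mul_assoc, Finset.mul_prod_erase (Finset.univ.erase i) (fun l => G l (A l))
      (Finset.mem_erase.2 ⟨hij.symm, Finset.mem_univ j⟩),
    Finset.mul_prod_erase Finset.univ (fun l => G l (A l)) (Finset.mem_univ i)]

variable {V : Type*} [DecidableEq V]

theorem twoIneq_odd [Nonempty K] {m q : ℕ} {ρ : ℝ} (hB : Big m) (hq : 1 ≤ q) (hqm : q ≤ m + 1)
    (hL : (2 : ℝ) ^ m ≤ (W' m q) ^ 2) (hρL : ρ ≤ W' m q)
    (hcard : ∀ r : V → V → Prop, (∀ u v, r u v → r v u) → ∀ T : Finset V,
      Bd r T (fun _ => 1) m → Bd (fun u v => ¬ r u v) T (fun _ => 1) m → (T.card : ℝ) ≤ ρ) :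
    TwoIneq V m (Fo (K := K) m q) := by
  classical
  intro i j hij A hA r hs S x y hx hy Hx Hy
  have hm := hB.one
  have hs' : ∀ u v, ¬ r u v → ¬ r v u := fun u v h h' => h (hs _ _ h')
  have hL0 := W'_pos hm q
  obtain ⟨B, hBo, e⟩ := Fo_eq m q A
  have key : ∀ (C : Finset K), Odd C.card → ∀ v,
      Fo m q (Function.update (Function.update A i (x v)) j (y v)) ≤
      (W' m q) ^ ((C.card - 1) / 2) * (GB m q C i (x v) * GB m q C j (y v) *
        ∏ l ∈ (Finset.univ.erase i).erase j, GB m q C l (A l)) := by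
    intro C hC v
    refine (Fo_le hC).trans (le_of_eq ?_)
    unfold FB
    rw [prod_update hij]
  have keyA : Fo m q A = (W' m q) ^ ((B.card - 1) / 2) * (GB m q B i (A i) * GB m q B j (A j) *
        ∏ l ∈ (Finset.univ.erase i).erase j, GB m q B l (A l)) := by
    rw [e]
    unfold FB
    rw [prod_two hij]
  have hrest : 0 ≤ ∏ l ∈ (Finset.univ.erase i).erase j, GB m q B l (A l) :=
    Finset.prod_nonneg (fun l _ => GB_nonneg hm B l _)
  -- common reduction
  have red : (∑ v ∈ S, GB m q B i (x v) * GB m q B j (y v) ≤ GB m q B i (A i) * GB m q B j (A j)) →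
      ∑ v ∈ S, Fo m q (Function.update (Function.update A i (x v)) j (y v)) ≤ Fo m q A := by
    intro h
    have h1 : ∑ v ∈ S, Fo m q (Function.update (Function.update A i (x v)) j (y v)) ≤
        ∑ v ∈ S, (W' m q) ^ ((B.card - 1) / 2) * (GB m q B i (x v) * GB m q B j (y v) *
        ∏ l ∈ (Finset.univ.erase i).erase j, GB m q B l (A l)) :=
      Finset.sum_le_sum (fun v _ => key B hBo v)
    refine h1.trans ?_
    rw [← Finset.mul_sum, ← Finset.sum_mul, keyA]
    apply mul_le_mul_of_nonneg_left _ (pow_nonneg hL0.le _)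
    exact mul_le_mul_of_nonneg_right h hrest
  by_cases hi : i ∈ B <;> by_cases hj : j ∈ B
  · -- both unpaired
    obtain ⟨C, hC⟩ : ∃ C, C = (B.erase i).erase j := ⟨_, rfl⟩
    have hjB : j ∈ B.erase i := Finset.mem_erase.2 ⟨hij.symm, hj⟩
    have hCcard : B.card = C.card + 2 := by
      rw [hC, Finset.card_erase_of_mem hjB, Finset.card_erase_of_mem hi]
      have h1 : 0 < (B.erase i).card := Finset.card_pos.2 ⟨j, hjB⟩
      rw [Finset.card_erase_of_mem hi] at h1
      omega
    have hCo : Odd C.card := by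
      obtain ⟨t, ht⟩ := hBo
      exact ⟨t - 1, by omega⟩
    have hexp : (B.card - 1) / 2 = (C.card - 1) / 2 + 1 := by
      obtain ⟨t, ht⟩ := hCo
      omega
    have hiC : i ∉ C := by rw [hC]; simp
    have hjC : j ∉ C := by rw [hC]; simp
    have hrestC : ∏ l ∈ (Finset.univ.erase i).erase j, GB m q C l (A l) =
        ∏ l ∈ (Finset.univ.erase i).erase j, GB m q B l (A l) := by
      apply Finset.prod_congr rfl
      intro l hl
      rw [Finset.mem_erase, Finset.mem_erase] at hl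
      unfold GB
      have : l ∈ C ↔ l ∈ B := by
        rw [hC, Finset.mem_erase, Finset.mem_erase]
        exact ⟨fun h => h.2.2, fun h => ⟨hl.1, hl.2.1, h⟩⟩
      simp only [this]
    obtain ⟨R, hR⟩ : ∃ R, R = ∏ l ∈ (Finset.univ.erase i).erase j, GB m q B l (A l) := ⟨_, rfl⟩
    obtain ⟨E, hE⟩ : ∃ E, E = (W' m q) ^ ((C.card - 1) / 2) := ⟨_, rfl⟩
    rw [← hR] at hrest hrestC keyA
    have hE0 : 0 ≤ E := by rw [hE]; exact pow_nonneg hL0.le _
    have h1 : ∀ v ∈ S, Fo m q (Function.update (Function.update A i (x v)) j (y v)) ≤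
        (U (x v) * U (y v) * min (W' m q) (W m q (x v) * W m q (y v))) * (E * R) := by
      intro v _
      have k1 := key B hBo v
      have k2 := key C hCo v
      rw [hrestC] at k2
      rw [← hR, hexp, pow_succ, ← hE] at k1
      rw [← hE] at k2
      unfold GB at k1 k2
      rw [if_pos hi, if_pos hj] at k1
      rw [if_neg hiC, if_neg hjC] at k2
      unfold Wt at k2
      have hU := U_nonneg (x v)
      have hU' := U_nonneg (y v)
      rcases le_total (W' m q) (W m q (x v) * W m q (y v)) with h | h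
      · rw [min_eq_left h]
        refine k1.trans (le_of_eq ?_)
        ring
      · rw [min_eq_right h]
        refine k2.trans (le_of_eq ?_)
        unfold U
        ring
    refine (Finset.sum_le_sum h1).trans ?_
    rw [← Finset.sum_mul]
    have h2 := ineq_K hB hq hqm hL hρL hs (hcard r hs) hx hy S (A i) (A j) (hA i) (hA j) Hx Hy
    refine (mul_le_mul_of_nonneg_right h2 (mul_nonneg hE0 hrest)).trans (le_of_eq ?_)
    rw [keyA, hexp, pow_succ, ← hE]
    unfold GB
    rw [if_pos hi, if_pos hj]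
    ring
  · apply red
    unfold GB
    simp only [if_pos hi, if_neg hj]
    exact ineq_L hB hq hqm hL hρL hs (hcard r hs) hx hy S (A i) (A j) (hA i) (hA j) Hx Hy
  · apply red
    unfold GB
    simp only [if_neg hi, if_pos hj]
    have := ineq_L hB hq hqm hL hρL hs' (hcard _ hs') hy hx S (A j) (A i) (hA j) (hA i) Hy
      (Bd.congr (r := r) (fun u v h => not_not.1 h) Hx)
    calc ∑ v ∈ S, Wt m q (x v) * U (y v) = ∑ v ∈ S, U (y v) * Wt m q (x v) :=
          Finset.sum_congr rfl (fun v _ => mul_comm _ _)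
      _ ≤ U (A j) * Wt m q (A i) := this
      _ = Wt m q (A i) * U (A j) := mul_comm _ _
  · apply red
    unfold GB
    simp only [if_neg hi, if_neg hj]
    exact ineq_PP hB hq hqm hL hρL hs (hcard r hs) hx hy S (A i) (A j) (hA i) (hA j) Hx Hy

theorem one_le_Fo [Nonempty K] {m q : ℕ} (hm : 1 ≤ m) (hq : 1 ≤ q) (hqm : q ≤ m + 1) :
    1 ≤ Fo (K := K) m q (fun _ => 1) := by
  obtain ⟨B, hB, e⟩ := Fo_eq (K := K) m q (fun _ => 1)
  rw [e]
  unfold FB
  have : ∏ l : K, GB m q B l 1 = 1 := Finset.prod_eq_one (fun l _ => GB_one hq B l)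
  rw [this, mul_one]
  exact one_le_pow₀ (one_le_cap hm hq hqm)

end

/-- the size of a Gallai coloured complete graph, odd number of colours -/
theorem size_odd {k t n m q : ℕ} {ρ : ℝ} (ht : t = m + 1) (hk : Odd k) (hB : Big m)
    (hq : 1 ≤ q) (hqm : q ≤ m + 1) (hL : (2 : ℝ) ^ m ≤ (W' m q) ^ 2) (hρL : ρ ≤ W' m q)
    (hR : ρ = (sInf (RSet t) - 1 : ℕ))
    (f : Fin n → Fin n → Fin k) (hf : ∀ a b : Fin n, f a b = f b a)
    (hg : ∀ a b c : Fin n, a ≠ b → b ≠ c → a ≠ c →
      f a b = f b c ∨ f b c = f a c ∨ f a b = f a c)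
    (hno : ¬ ∃ S : Finset (Fin n), S.card = t ∧ ∃ i : Fin k, ∀ x ∈ S, ∀ y ∈ S, x ≠ y → f x y = i) :
    (n : ℝ) ≤ (W' m q) ^ ((k - 1) / 2) * ((m : ℝ) ^ kp) ^ k := by
  classical
  have hm := hB.one
  have hk1 : 1 ≤ k := hk.pos
  have hcard : ∀ r : Fin n → Fin n → Prop, (∀ u v, r u v → r v u) → ∀ T : Finset (Fin n),
      Bd r T (fun _ => 1) m → Bd (fun u v => ¬ r u v) T (fun _ => 1) m → (T.card : ℝ) ≤ ρ := by
    intro r hs T h1 h2
    have h3 : T.card ∉ RSet t := by
      apply not_mem_RSet hs (by omega)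
      · rw [ht, Nat.add_sub_cancel]; exact h1
      · rw [ht, Nat.add_sub_cancel]; exact h2
    have h4 := lt_sInf (by omega) h3
    rw [hR]
    exact_mod_cast (by omega : T.card ≤ sInf (RSet t) - 1)
  have h1 := size_le ht hk1 hm (F := Fo (K := Fin (k + 1)) m q)
    (fun A B hAB => Fo_mono hm hq hqm A B hAB)
    (twoIneq_odd hB hq hqm hL hρL hcard) f hf hg hno
  have h2 : (n : ℝ) ≤ n * Fo (K := Fin (k + 1)) m q (fun _ => 1) :=
    le_mul_of_one_le_right (Nat.cast_nonneg n) (one_le_Fo hm hq hqm)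
  obtain ⟨B, hBdef⟩ : ∃ B : Finset (Fin (k + 1)), B = Finset.univ.erase (Fin.last k) := ⟨_, rfl⟩
  have hBc : B.card = k := by
    rw [hBdef, Finset.card_erase_of_mem (Finset.mem_univ _), Finset.card_univ, Fintype.card_fin]
    omega
  have h3 : Fo (K := Fin (k + 1)) m q (fun l => if l = Fin.last k then 1 else m) ≤
      FB m q B (fun l => if l = Fin.last k then 1 else m) := Fo_le (by rw [hBc]; exact hk)
  refine (h2.trans (h1.trans h3)).trans (le_of_eq ?_)
  unfold FB
  rw [hBc, Fin.prod_univ_castSucc]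
  congr 1
  have h4 : ∀ i : Fin k, GB m q B i.castSucc (if i.castSucc = Fin.last k then 1 else m) =
      (m : ℝ) ^ kp := by
    intro i
    have hne : i.castSucc ≠ Fin.last k := (Fin.castSucc_lt_last _).ne
    rw [if_neg hne]
    unfold GB
    rw [if_pos (by rw [hBdef]; exact Finset.mem_erase.2 ⟨hne, Finset.mem_univ _⟩)]
    rfl
  have h5 : GB m q B (Fin.last k) (if Fin.last k = Fin.last k then 1 else m) = 1 := by
    rw [if_pos rfl, GB_one hq]
  rw [Finset.prod_congr rfl (fun i _ => h4 i), Finset.prod_const, Finset.card_univ,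
    Fintype.card_fin]
  exact (congrArg _ h5).trans (mul_one _)

end Pool.Agent.helper21.GR
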