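import Pool.Agent.helper21.GR.Odd5

/-! Odd numbers of colours (for MP_89787e_co): large parameters and the final bound. -/

set_option autoImplicit false
set_option linter.unusedSectionVars false

namespace Pool.Agent.helper21.GR

open Filter

theorem poly_exp (k : ℕ) (C : ℝ) {b : ℝ} (hb : 0 < b) :
    ∀ᶠ m : ℕ in atTop, C * (m : ℝ) ^ k ≤ Real.exp (b * m) := by
  have h1 := (isLittleO_pow_exp_pos_mul_atTop k hb).const_mul_left C
  have h2 := h1.bound one_pos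
  have h3 := tendsto_natCast_atTop_atTop (R := ℝ) |>.eventually h2
  filter_upwards [h3] with m hm
  rw [one_mul, Real.norm_eq_abs, Real.norm_eq_abs, abs_of_pos (Real.exp_pos _)] at hm
  exact (le_abs_self _).trans hm

theorem two_le_exp : (2 : ℝ) ≤ Real.exp (7 / 10) := by
  have h := Real.log_two_lt_d9
  rw [← Real.log_le_iff_le_exp (by norm_num)]
  linarith

theorem exp_le_two : Real.exp (69 / 100) ≤ 2 := by
  have h := Real.log_two_gt_d9
  rw [← Real.le_log_iff_exp_le (by norm_num)]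
  linarith

theorem exp_le_two_pow (m : ℕ) : Real.exp (69 / 100 * m) ≤ 2 ^ m := by
  calc Real.exp (69 / 100 * m) = Real.exp (69 / 100) ^ m := by
        rw [← Real.exp_nat_mul, mul_comm]
    _ ≤ 2 ^ m := pow_le_pow_left₀ (Real.exp_pos _).le exp_le_two _

theorem pow_two_le_exp (j : ℕ) : (2 : ℝ) ^ j ≤ Real.exp (7 / 10 * j) := by
  calc (2 : ℝ) ^ j ≤ Real.exp (7 / 10) ^ j := pow_le_pow_left₀ (by norm_num) two_le_exp _
    _ = Real.exp (7 / 10 * j) := by rw [← Real.exp_nat_mul, mul_comm]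

theorem TT_le (m : ℕ) : TT m ≤ Real.exp (62 / 1000 * m) := by
  unfold TT
  have h1 : (2048 : ℝ) ^ (m / 256) ≤ Real.exp (7 / 10 * ((11 * (m / 256) : ℕ) : ℝ)) := by
    rw [show (2048 : ℝ) = 2 ^ 11 by norm_num, ← pow_mul]
    exact pow_two_le_exp _
  have h2 : ((m / 256 : ℕ) : ℝ) ≤ (m : ℝ) / 256 := by
    have := Nat.cast_div_le (α := ℝ) (m := m) (n := 256)
    exact_mod_cast this
  have hm : (0 : ℝ) ≤ m := Nat.cast_nonneg m
  calc (2048 : ℝ) ^ (m / 256) * Real.exp ((m : ℝ) / 32)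
      ≤ Real.exp (7 / 10 * ((11 * (m / 256) : ℕ) : ℝ)) * Real.exp ((m : ℝ) / 32) :=
        mul_le_mul_of_nonneg_right h1 (Real.exp_pos _).le
    _ = Real.exp (7 / 10 * ((11 * (m / 256) : ℕ) : ℝ) + (m : ℝ) / 32) := by rw [Real.exp_add]
    _ ≤ Real.exp (62 / 1000 * m) := by
        apply Real.exp_le_exp.2
        push_cast
        linarith

theorem ev_heavy : ∀ᶠ m : ℕ in atTop,
    (320 * 64 ^ (m / 300) * (41 / 40) ^ m * (TT m) ^ 2) ^ 2 ≤ (2 : ℝ) ^ m := by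
  filter_upwards [poly_exp 0 (320 ^ 2) (b := 3 / 10) (by norm_num)] with m hm
  rw [pow_zero, mul_one] at hm
  have hm0 : (0 : ℝ) ≤ m := Nat.cast_nonneg m
  have h1 : (64 : ℝ) ^ (m / 300) ≤ Real.exp (14 / 1000 * m) := by
    have h2 : ((m / 300 : ℕ) : ℝ) ≤ (m : ℝ) / 300 := by
      have := Nat.cast_div_le (α := ℝ) (m := m) (n := 300)
      exact_mod_cast this
    calc (64 : ℝ) ^ (m / 300) = 2 ^ (6 * (m / 300)) := by
          rw [show (64 : ℝ) = 2 ^ 6 by norm_num, ← pow_mul]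
      _ ≤ Real.exp (7 / 10 * ((6 * (m / 300) : ℕ) : ℝ)) := pow_two_le_exp _
      _ ≤ Real.exp (14 / 1000 * m) := by
          apply Real.exp_le_exp.2
          push_cast
          linarith
  have h2 : (41 / 40 : ℝ) ^ m ≤ Real.exp (1 / 40 * m) := by
    have : (41 / 40 : ℝ) ≤ Real.exp (1 / 40) := by
      have := Real.add_one_le_exp (1 / 40 : ℝ)
      linarith
    calc (41 / 40 : ℝ) ^ m ≤ Real.exp (1 / 40) ^ m := pow_le_pow_left₀ (by norm_num) this _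
      _ = Real.exp (1 / 40 * m) := by rw [← Real.exp_nat_mul, mul_comm]
  have h3 : (TT m) ^ 2 ≤ Real.exp (124 / 1000 * m) := by
    have h0 : 0 ≤ TT m := by linarith [one_le_TT m]
    calc (TT m) ^ 2 ≤ Real.exp (62 / 1000 * m) ^ 2 := pow_le_pow_left₀ h0 (TT_le m) 2
      _ = Real.exp (124 / 1000 * m) := by
          rw [← Real.exp_nat_mul]; congr 1; push_cast; ring
  have h4 : 320 * 64 ^ (m / 300) * (41 / 40) ^ m * (TT m) ^ 2 ≤
      320 * Real.exp (163 / 1000 * m) := by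
    calc 320 * 64 ^ (m / 300) * (41 / 40) ^ m * (TT m) ^ 2
        ≤ 320 * Real.exp (14 / 1000 * m) * Real.exp (1 / 40 * m) * Real.exp (124 / 1000 * m) := by
          gcongr
      _ = 320 * Real.exp (163 / 1000 * m) := by
          rw [mul_assoc, mul_assoc, ← Real.exp_add, ← Real.exp_add]
          congr 2; ring
  have h0 : 0 ≤ TT m := by linarith [one_le_TT m]
  calc (320 * 64 ^ (m / 300) * (41 / 40) ^ m * (TT m) ^ 2) ^ 2
      ≤ (320 * Real.exp (163 / 1000 * m)) ^ 2 := pow_le_pow_left₀ (by positivity) h4 2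
    _ = 320 ^ 2 * Real.exp (326 / 1000 * m) := by
        rw [mul_pow, ← Real.exp_nat_mul]; congr 2; push_cast; ring
    _ ≤ Real.exp (3 / 10 * m) * Real.exp (326 / 1000 * m) :=
        mul_le_mul_of_nonneg_right hm (Real.exp_pos _).le
    _ = Real.exp (3 / 10 * m + 326 / 1000 * m) := by rw [Real.exp_add]
    _ ≤ Real.exp (69 / 100 * m) := by
        apply Real.exp_le_exp.2
        linarith
    _ ≤ 2 ^ m := exp_le_two_pow m

theorem ev_thin : ∀ᶠ m : ℕ in atTop, (4 * m * TT m) ^ 2 ≤ (2 : ℝ) ^ m := by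
  filter_upwards [poly_exp 2 16 (b := 3 / 10) (by norm_num)] with m hm
  have hm0 : (0 : ℝ) ≤ m := Nat.cast_nonneg m
  have h0 : 0 ≤ TT m := by linarith [one_le_TT m]
  have h3 : (TT m) ^ 2 ≤ Real.exp (124 / 1000 * m) := by
    calc (TT m) ^ 2 ≤ Real.exp (62 / 1000 * m) ^ 2 := pow_le_pow_left₀ h0 (TT_le m) 2
      _ = Real.exp (124 / 1000 * m) := by
          rw [← Real.exp_nat_mul]; congr 1; push_cast; ring
  calc (4 * m * TT m) ^ 2 = (16 * (m : ℝ) ^ 2) * (TT m) ^ 2 := by ring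
    _ ≤ Real.exp (3 / 10 * m) * Real.exp (124 / 1000 * m) :=
        mul_le_mul hm h3 (by positivity) (Real.exp_pos _).le
    _ = Real.exp (3 / 10 * m + 124 / 1000 * m) := by rw [Real.exp_add]
    _ ≤ Real.exp (69 / 100 * m) := by
        apply Real.exp_le_exp.2
        linarith
    _ ≤ 2 ^ m := exp_le_two_pow m

theorem ev_poly (N κ : ℕ) (h : 2 * N < κ) (K : ℝ) : ∀ᶠ m : ℕ in atTop,
    (K * (64 * (m : ℝ)) ^ N) ^ 2 ≤ (m : ℝ) ^ κ := by
  filter_upwards [tendsto_natCast_atTop_atTop (R := ℝ) |>.eventually_ge_atTop (K ^ 2 * 64 ^ (2 * N)),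
    eventually_ge_atTop 1] with m hm hm1
  have hm1' : (1 : ℝ) ≤ m := by exact_mod_cast hm1
  calc (K * (64 * (m : ℝ)) ^ N) ^ 2 = (K ^ 2 * 64 ^ (2 * N)) * (m : ℝ) ^ (2 * N) := by
        rw [mul_pow, ← pow_mul, mul_pow, mul_comm N 2, mul_assoc]
    _ ≤ m * (m : ℝ) ^ (2 * N) := mul_le_mul_of_nonneg_right hm (by positivity)
    _ = (m : ℝ) ^ (2 * N + 1) := by rw [pow_succ, mul_comm]
    _ ≤ (m : ℝ) ^ κ := pow_le_pow_right₀ hm1' (by omega)

theorem ev_root (N : ℕ) : ∀ᶠ m : ℕ in atTop,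
    (4 * 2 ^ (Nat.sqrt (4 * m)) * (64 * (m : ℝ)) ^ N) ^ 2 ≤ (2 : ℝ) ^ m := by
  filter_upwards [poly_exp (2 * N) (16 * 64 ^ (2 * N)) (b := 3 / 10) (by norm_num),
    eventually_ge_atTop 400] with m hm hm1
  have hm1' : (400 : ℝ) ≤ m := by exact_mod_cast hm1
  have hsq : ((Nat.sqrt (4 * m) : ℕ) : ℝ) ≤ m / 5 := by
    have h1 : Nat.sqrt (4 * m) * Nat.sqrt (4 * m) ≤ 4 * m := Nat.sqrt_le (4 * m)
    have h2 : ((Nat.sqrt (4 * m) : ℕ) : ℝ) * (Nat.sqrt (4 * m) : ℕ) ≤ 4 * m := by exact_mod_cast h1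
    by_contra hcon
    push Not at hcon
    have h3 : (0 : ℝ) ≤ m / 5 := by positivity
    nlinarith
  have h1 : ((2 : ℝ) ^ (Nat.sqrt (4 * m))) ^ 2 ≤ Real.exp (28 / 100 * m) := by
    rw [← pow_mul]
    refine (pow_two_le_exp _).trans ?_
    apply Real.exp_le_exp.2
    push_cast
    linarith
  calc (4 * 2 ^ (Nat.sqrt (4 * m)) * (64 * (m : ℝ)) ^ N) ^ 2
      = (16 * 64 ^ (2 * N) * (m : ℝ) ^ (2 * N)) * ((2 : ℝ) ^ (Nat.sqrt (4 * m))) ^ 2 := by
        rw [mul_pow (64 : ℝ) (m : ℝ) N]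
        rw [show (64 : ℝ) ^ (2 * N) = (64 ^ N) ^ 2 by rw [← pow_mul, mul_comm],
          show (m : ℝ) ^ (2 * N) = (m ^ N) ^ 2 by rw [← pow_mul, mul_comm]]
        ring
    _ ≤ Real.exp (3 / 10 * m) * Real.exp (28 / 100 * m) :=
        mul_le_mul hm h1 (by positivity) (Real.exp_pos _).le
    _ = Real.exp (3 / 10 * m + 28 / 100 * m) := by rw [Real.exp_add]
    _ ≤ Real.exp (69 / 100 * m) := by
        apply Real.exp_le_exp.2
        linarith
    _ ≤ 2 ^ m := exp_le_two_pow m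

theorem ev_big : ∃ m₀ : ℕ, ∀ m, m₀ ≤ m → Big m := by
  have h : ∀ᶠ m : ℕ in atTop, Big m := by
    filter_upwards [eventually_ge_atTop 1, ev_heavy, ev_thin,
      ev_poly 600 kp (by rw [kp_eq]; norm_num) (4 * 300 ^ (2 * kp)), ev_root 600]
      with m h1 h2 h3 h4 h5
    exact ⟨h1, h2, h3, h4, h5⟩
  exact eventually_atTop.1 h

theorem rho_le {t m : ℕ} (ht3 : 3 ≤ t) (ht : t = m + 1) :
    ((sInf (RSet t) - 1 : ℕ) : ℝ) ≤ 64 ^ m := by
  classical
  have h1 := one_le_rho ht3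
  have h1' : 1 ≤ sInf (RSet t) - 1 := by exact_mod_cast h1
  obtain ⟨N, hN⟩ : ∃ N, N = sInf (RSet t) - 1 := ⟨_, rfl⟩
  rw [← hN]
  have hlt : N < sInf (RSet t) := by omega
  have hmem : N ∉ RSet t := Nat.notMem_of_lt_sInf hlt
  have hmem' : ¬ ∀ f : Fin N → Fin N → Fin 2, (∀ a b : Fin N, f a b = f b a) →
    ∃ S : Finset (Fin N), S.card = t ∧ ∃ i : Fin 2, ∀ x ∈ S, ∀ y ∈ S, x ≠ y → f x y = i := hmem
  push Not at hmem'
  obtain ⟨f, hf, hno⟩ := hmem'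
  have hcon : ¬ ∃ S : Finset (Fin N), S.card = t ∧ ∃ i : Fin 2, ∀ x ∈ S, ∀ y ∈ S,
      x ≠ y → f x y = i := by
    rintro ⟨S, hS, i, hi⟩
    obtain ⟨x, hx, y, hy, hxy, hne⟩ := hno S hS i
    exact hne (hi x hx y hy hxy)
  have c0 := clique_small (by omega) hcon 0 Finset.univ
  have c1 := clique_small (by omega) hcon 1 Finset.univ
  have h2 := card_le_choose (r := fun u v => f u v = 0) (fun u v h => by rw [hf]; exact h)
    (Finset.univ : Finset (Fin N)) (t - 1) (t - 1) c0 (by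
      intro Q hQ hc
      apply c1 Q hQ
      intro u hu v hv huv
      have h0 := hc u hu v hv huv
      have : ∀ z : Fin 2, z ≠ 0 → z = 1 := by decide
      exact this _ h0)
  rw [Finset.card_univ, Fintype.card_fin, ht, Nat.add_sub_cancel] at h2
  have h3 : (m + m).choose m ≤ 2 ^ (m + m) := Nat.choose_le_two_pow _ _
  have h4 : (N : ℝ) ≤ 2 ^ (m + m) := by
    exact_mod_cast (by omega : N ≤ 2 ^ (m + m))
  calc (N : ℝ) ≤ 2 ^ (m + m) := h4
    _ = 4 ^ m := by rw [← two_mul, pow_mul]; norm_num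
    _ ≤ 64 ^ m := pow_le_pow_left₀ (by norm_num) (by norm_num) _

theorem exists_q {m : ℕ} {ρ : ℝ} (hm : 1 ≤ m) (hρ1 : 1 ≤ ρ) (hρ : ρ ≤ 64 ^ m) :
    ∃ q : ℕ, 1 ≤ q ∧ q ≤ m + 1 ∧ ρ ≤ W' m q ∧ W' m q ≤ 64 * m * ρ := by
  classical
  have hex : ∃ q : ℕ, 1 ≤ q ∧ ρ ≤ W' m q := by
    refine ⟨m + 1, by omega, ?_⟩
    have := W'_growth (m := m) (p := 1) le_rfl (m + 1) (by omega) le_rfl
    rw [W'_one, one_mul, Nat.add_sub_cancel] at this
    exact hρ.trans this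
  have hle : Nat.find hex ≤ m + 1 := by
    apply Nat.find_min' hex
    refine ⟨by omega, ?_⟩
    have := W'_growth (m := m) (p := 1) le_rfl (m + 1) (by omega) le_rfl
    rw [W'_one, one_mul, Nat.add_sub_cancel] at this
    exact hρ.trans this
  obtain ⟨q, hq⟩ : ∃ q, q = Nat.find hex := ⟨_, rfl⟩
  have hspec := Nat.find_spec hex
  rw [← hq] at hspec hle
  refine ⟨q, hspec.1, hle, hspec.2, ?_⟩
  have hm' : (1 : ℝ) ≤ m := by exact_mod_cast hm
  rcases Nat.eq_or_lt_of_le hspec.1 with h1 | h1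
  · rw [← h1, W'_one]
    nlinarith
  · have hmin := Nat.find_min hex (show q - 1 < Nat.find hex by omega)
    push Not at hmin
    have h2 := hmin (by omega)
    obtain ⟨p, rfl⟩ : ∃ p, q = p + 1 := ⟨q - 1, by omega⟩
    rw [Nat.add_sub_cancel] at h2
    have hp : 1 ≤ p := by omega
    have hp' : (1 : ℝ) ≤ p := by exact_mod_cast hp
    rw [W'_succ m p hp]
    have h3 : 64 * (m : ℝ) / p ≤ 64 * m := div_le_self (by positivity) hp'
    have h4 := W'_pos hm p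
    calc W' m p * (64 * (m : ℝ) / p) ≤ ρ * (64 * m) :=
          mul_le_mul h2.le h3 (by positivity) (by linarith)
      _ = 64 * m * ρ := by ring

theorem one_le_Cst : 1 ≤ Cst := by
  unfold Cst
  have h1 : (1 : ℝ) ≤ (64 ^ 4776) ^ 2 := one_le_pow₀ (one_le_pow₀ (by norm_num))
  have h2 : (0 : ℝ) ≤ 64 ^ 2 * (2 * 64 ^ 140) * (24 ^ 73) ^ 2 := by positivity
  exact h1.trans (le_add_of_nonneg_left h2)

/-- main bound, odd number of colours -/
theorem main_odd : ∃ C : ℝ, 0 ≤ C ∧ ∀ k t n : ℕ, Odd k → 3 ≤ t →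
    ∀ f : Fin n → Fin n → Fin k, (∀ a b : Fin n, f a b = f b a) →
    (∀ a b c : Fin n, a ≠ b → b ≠ c → a ≠ c →
      f a b = f b c ∨ f b c = f a c ∨ f a b = f a c) →
    (¬ ∃ S : Finset (Fin n), S.card = t ∧ ∃ i : Fin k, ∀ x ∈ S, ∀ y ∈ S, x ≠ y → f x y = i) →
    (n : ℝ) ≤ (C * (t : ℝ) ^ (kp + 1)) ^ k * ((sInf (RSet t) - 1 : ℕ) : ℝ) ^ ((k - 1) / 2) := by
  obtain ⟨m₀, hm₀⟩ := ev_big
  have hC1 := one_le_Cst
  have hD1 : (1 : ℝ) ≤ 64 ^ m₀ := one_le_pow₀ (by norm_num)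
  refine ⟨64 + Cst * 64 ^ m₀, by positivity, ?_⟩
  intro k t n hk ht f hf hg hno
  obtain ⟨m, rfl⟩ : ∃ m, t = m + 1 := ⟨t - 1, by omega⟩
  have hρ1 := one_le_rho ht
  have hρ2 := rho_le ht rfl
  have hlow : (2 : ℝ) ^ m ≤ ((sInf (RSet (m + 1)) - 1 : ℕ) : ℝ) ^ 2 := by
    have := ramsey_lower ht
    rw [Nat.add_sub_cancel] at this
    exact_mod_cast this
  obtain ⟨s, hs⟩ := hk
  have hks : (k - 1) / 2 = s := by omega
  obtain ⟨ρ, hρ⟩ : ∃ ρ : ℝ, ρ = ((sInf (RSet (m + 1)) - 1 : ℕ) : ℝ) := ⟨_, rfl⟩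
  have hm1 : 1 ≤ m := by omega
  have hm1' : (1 : ℝ) ≤ m := by exact_mod_cast hm1
  have ht1 : (1 : ℝ) ≤ ((m + 1 : ℕ) : ℝ) := by push_cast; linarith
  have hmt : (m : ℝ) ≤ ((m + 1 : ℕ) : ℝ) := by push_cast; linarith
  rcases Nat.lt_or_ge m m₀ with hsmall | hlarge
  · have h1 := main_sq (show 1 ≤ k by omega) ht f hf hg hno
    rw [← hρ] at h1 hρ1 hρ2 ⊢
    have h2 : ρ ≤ 64 ^ m₀ := hρ2.trans (pow_le_pow_right₀ (by norm_num) hsmall.le)
    obtain ⟨D, hD⟩ : ∃ D : ℝ, D = 64 ^ m₀ := ⟨_, rfl⟩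
    rw [← hD] at h2 hD1 ⊢
    have hCD : 1 ≤ Cst * D := by nlinarith
    have h3 : (Cst * ρ) ^ k ≤ ((Cst * D) ^ k * ρ ^ s) ^ 2 := by
      have e1 : ρ ^ k = ρ ^ (2 * s) * ρ := by rw [hs, pow_succ]
      have e2 : (Cst * D) ^ k ≤ ((Cst * D) ^ k) ^ 2 :=
        le_self_pow₀ (one_le_pow₀ hCD) two_ne_zero
      have e3 : D ≤ D ^ k := le_self_pow₀ hD1 (by omega)
      calc (Cst * ρ) ^ k = Cst ^ k * ρ * ρ ^ (2 * s) := by rw [mul_pow, e1]; ring
        _ ≤ Cst ^ k * D ^ k * ρ ^ (2 * s) := by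
            apply mul_le_mul_of_nonneg_right _ (by positivity)
            exact mul_le_mul_of_nonneg_left (h2.trans e3) (by positivity)
        _ = (Cst * D) ^ k * ρ ^ (2 * s) := by rw [mul_pow]
        _ ≤ ((Cst * D) ^ k) ^ 2 * ρ ^ (2 * s) := mul_le_mul_of_nonneg_right e2 (by positivity)
        _ = ((Cst * D) ^ k * ρ ^ s) ^ 2 := by rw [mul_pow _ (ρ ^ s), ← pow_mul ρ, mul_comm s 2]
    have h4 : (n : ℝ) ≤ (Cst * D) ^ k * ρ ^ s :=
      le_of_sq_le_sq (h1.trans h3) (by positivity)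
    rw [hks]
    refine h4.trans ?_
    apply mul_le_mul_of_nonneg_right _ (by positivity)
    apply pow_le_pow_left₀ (by positivity)
    calc Cst * D ≤ 64 + Cst * D := by linarith
      _ ≤ (64 + Cst * D) * (((m + 1 : ℕ) : ℝ)) ^ (kp + 1) :=
          le_mul_of_one_le_right (by positivity) (one_le_pow₀ ht1)
  · have hB := hm₀ m hlarge
    rw [← hρ] at hρ1 hρ2 hlow
    obtain ⟨q, hq1, hqm, hq2, hq3⟩ := exists_q hm1 hρ1 hρ2
    have h1 := size_odd (n := n) rfl ⟨s, hs⟩ hB hq1 hqm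
      (hlow.trans (pow_le_pow_left₀ (by linarith) hq2 2)) hq2 hρ f hf hg hno
    rw [← hρ]
    rw [hks] at h1 ⊢
    have hW := (W'_pos hm1 q).le
    have h2 : (W' m q) ^ s ≤ (64 * m) ^ k * ρ ^ s := by
      calc (W' m q) ^ s ≤ (64 * m * ρ) ^ s := pow_le_pow_left₀ hW hq3 _
        _ = (64 * m) ^ s * ρ ^ s := by rw [mul_pow]
        _ ≤ (64 * m) ^ k * ρ ^ s := by
            apply mul_le_mul_of_nonneg_right _ (by positivity)
            apply pow_le_pow_right₀ (by linarith) (by omega)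
    calc (n : ℝ) ≤ (W' m q) ^ s * ((m : ℝ) ^ kp) ^ k := h1
      _ ≤ ((64 * m) ^ k * ρ ^ s) * ((m : ℝ) ^ kp) ^ k :=
          mul_le_mul_of_nonneg_right h2 (by positivity)
      _ = (64 * (m : ℝ) ^ (kp + 1)) ^ k * ρ ^ s := by
          rw [show (m : ℝ) ^ (kp + 1) = m * m ^ kp by rw [pow_succ, mul_comm], mul_pow, mul_pow,
            mul_pow]
          ring
      _ ≤ ((64 + Cst * 64 ^ m₀) * ((m + 1 : ℕ) : ℝ) ^ (kp + 1)) ^ k * ρ ^ s := by
          apply mul_le_mul_of_nonneg_right _ (by positivity)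
          apply pow_le_pow_left₀ (by positivity)
          apply mul_le_mul
          · have : 0 ≤ Cst * 64 ^ m₀ := by positivity
            linarith
          · exact pow_le_pow_left₀ (by positivity) hmt _
          · positivity
          · positivity

end Pool.Agent.helper21.GR
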