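import Pool.Agent.helper21.GR.Odd1

/-! The factorial weight and its sum estimate (for MP_89787e_co). -/

set_option autoImplicit false
set_option linter.unusedSectionVars false

namespace Pool.Agent.helper21.GR

/-- `(64 m) ^ (b - 1) / (b - 1)!` -/
noncomputable def W' (m b : ℕ) : ℝ := (64 * (m : ℝ)) ^ (b - 1) / ((b - 1).factorial : ℝ)

theorem W'_pos {m : ℕ} (hm : 1 ≤ m) (b : ℕ) : 0 < W' m b := by
  have : (0 : ℝ) < m := by exact_mod_cast hm
  unfold W'
  positivity

theorem W'_one (m : ℕ) : W' m 1 = 1 := by simp [W']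

theorem W'_succ (m b : ℕ) (hb : 1 ≤ b) : W' m (b + 1) = W' m b * (64 * (m : ℝ) / b) := by
  obtain ⟨c, rfl⟩ : ∃ c, b = c + 1 := ⟨b - 1, by omega⟩
  unfold W'
  rw [Nat.add_sub_cancel, Nat.add_sub_cancel, Nat.factorial_succ, pow_succ]
  push_cast
  have : (c.factorial : ℝ) ≠ 0 := by exact_mod_cast c.factorial_ne_zero
  field_simp

theorem W'_step {m b : ℕ} (hb : 1 ≤ b) (hbm : b ≤ m) : 64 * W' m b ≤ W' m (b + 1) := by
  rw [W'_succ m b hb]
  have h1 := W'_pos (by omega : 1 ≤ m) b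
  have h2 : (0 : ℝ) < b := by exact_mod_cast hb
  have h3 : (b : ℝ) ≤ m := by exact_mod_cast hbm
  have h4 : (64 : ℝ) ≤ 64 * (m : ℝ) / b := by
    rw [le_div_iff₀ h2]; linarith
  calc 64 * W' m b = W' m b * 64 := mul_comm _ _
    _ ≤ W' m b * (64 * (m : ℝ) / b) := mul_le_mul_of_nonneg_left h4 h1.le

theorem W'_growth {m p : ℕ} (hp : 1 ≤ p) : ∀ b : ℕ, p ≤ b → b ≤ m + 1 →
    W' m p * 64 ^ (b - p) ≤ W' m b := by
  intro b hb
  induction b, hb using Nat.le_induction with
  | base => intro _; simp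
  | succ b hb ih =>
    intro hbm
    have h1 := ih (by omega)
    have h2 := W'_step (m := m) (b := b) (by omega) (by omega)
    rw [show b + 1 - p = (b - p) + 1 by omega, pow_succ]
    linarith

/-- weight capped at `q` -/
noncomputable def W (m q b : ℕ) : ℝ := if b = 0 then 0 else W' m (min b q)

theorem W_zero (m q : ℕ) : W m q 0 = 0 := by simp [W]

theorem W_low {m q b : ℕ} (hb : 1 ≤ b) (hbq : b ≤ q) : W m q b = W' m b := by
  unfold W
  rw [if_neg (by omega), min_eq_left hbq]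

theorem W_high {m q b : ℕ} (hb : 1 ≤ b) (hbq : q ≤ b) : W m q b = W' m q := by
  unfold W
  rw [if_neg (by omega), min_eq_right hbq]

theorem W_nonneg {m : ℕ} (hm : 1 ≤ m) (q b : ℕ) : 0 ≤ W m q b := by
  unfold W
  split_ifs
  · exact le_rfl
  · exact (W'_pos hm _).le

theorem W_one {m q : ℕ} (hq : 1 ≤ q) : W m q 1 = 1 := by
  rw [W_low le_rfl hq, W'_one]

theorem W'_mono {m p b : ℕ} (hm : 1 ≤ m) (hp : 1 ≤ p) (hpb : p ≤ b) (hbm : b ≤ m + 1) :
    W' m p ≤ W' m b := by
  have h1 := W'_growth hp b hpb hbm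
  have h2 := W'_pos hm p
  have h3 : (1 : ℝ) ≤ 64 ^ (b - p) := one_le_pow₀ (by norm_num)
  nlinarith

theorem W_mono {m q a b : ℕ} (hm : 1 ≤ m) (hq : 1 ≤ q) (hqm : q ≤ m + 1) (hab : a ≤ b) :
    W m q a ≤ W m q b := by
  rcases Nat.eq_zero_or_pos a with rfl | ha
  · rw [W_zero]; exact W_nonneg hm _ _
  unfold W
  rw [if_neg (by omega), if_neg (by omega)]
  exact W'_mono hm (by omega) (by omega) (by omega)

theorem W_le_cap {m q : ℕ} (hm : 1 ≤ m) (hq : 1 ≤ q) (hqm : q ≤ m + 1) (b : ℕ) :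
    W m q b ≤ W' m q := by
  rcases Nat.lt_or_ge b q with h | h
  · rw [← W_high (m := m) hq le_rfl]
    exact W_mono hm hq hqm h.le
  · rw [W_high (by omega) h]

theorem W_le_W' {m q b : ℕ} (hm : 1 ≤ m) (hq : 1 ≤ q) (hb : 1 ≤ b) (hbm : b ≤ m + 1) :
    W m q b ≤ W' m b := by
  unfold W
  rw [if_neg (by omega)]
  exact W'_mono hm (by omega) (by omega) hbm

/-- exponential decay below the cap -/
theorem W_small {m q a b : ℕ} (hqm : q ≤ m + 1) (ha : 1 ≤ a) (hab : a < b) (hbq : b ≤ q) :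
    W m q a ≤ W m q b / 64 := by
  rw [W_low ha (by omega), W_low (by omega) hbq, le_div_iff₀ (by norm_num)]
  have h1 := W'_growth (m := m) ha b hab.le (by omega)
  have hm : 1 ≤ m := by omega
  have h2 := W'_pos hm a
  have h3 : (64 : ℝ) ≤ 64 ^ (b - a) := by
    calc (64 : ℝ) = 64 ^ 1 := by norm_num
      _ ≤ 64 ^ (b - a) := pow_le_pow_right₀ (by norm_num) (by omega)
  calc W' m a * 64 ≤ W' m a * 64 ^ (b - a) := mul_le_mul_of_nonneg_left h3 h2.le
    _ ≤ W' m b := h1

theorem W'_le_exp {m : ℕ} (b : ℕ) : W' m b ≤ 2048 ^ (b - 1) * Real.exp ((m : ℝ) / 32) := by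
  have h := Real.pow_div_factorial_le_exp ((m : ℝ) / 32) (by positivity) (b - 1)
  unfold W'
  calc (64 * (m : ℝ)) ^ (b - 1) / ((b - 1).factorial : ℝ)
      = 2048 ^ (b - 1) * (((m : ℝ) / 32) ^ (b - 1) / ((b - 1).factorial : ℝ)) := by
        rw [← mul_div_assoc, ← mul_pow]
        congr 2
        ring
    _ ≤ 2048 ^ (b - 1) * Real.exp ((m : ℝ) / 32) := mul_le_mul_of_nonneg_left h (by positivity)

theorem W'_le_pow {m : ℕ} (b : ℕ) : W' m b ≤ (64 * (m : ℝ)) ^ (b - 1) := by
  unfold W'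
  apply div_le_self (by positivity)
  exact_mod_cast Nat.factorial_pos _

/-- binomials against the weight -/
theorem choose_le {m A : ℕ} (hA : A ≤ m) : ∀ d : ℕ, 1 ≤ d → d ≤ m →
    ((A + d).choose d : ℝ) ≤ (A + 1) * ((2 * (m : ℝ)) ^ (d - 1) / (d.factorial : ℝ)) := by
  intro d hd
  induction d, hd using Nat.le_induction with
  | base => intro _; simp
  | succ d hd ih =>
    intro hdm
    have h1 := ih (by omega)
    have h2 : ((A + (d + 1)).choose (d + 1) : ℝ) * (d + 1) =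
        ((A + d).choose d : ℝ) * (A + d + 1) := by
      have h3 := Nat.add_one_mul_choose_eq (A + d) d
      have h4 : (((A + d + 1) * (A + d).choose d : ℕ) : ℝ) =
          (((A + d + 1).choose (d + 1) * (d + 1) : ℕ) : ℝ) := by exact_mod_cast h3
      push_cast at h4
      rw [show A + (d + 1) = A + d + 1 from rfl]
      linarith
    have h5 : ((A : ℝ) + d + 1) ≤ 2 * m := by
      have : A + d + 1 ≤ 2 * m := by omega
      exact_mod_cast this
    have hd0 : (0 : ℝ) < (d : ℝ) + 1 := by positivity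
    have h6 : ((A + (d + 1)).choose (d + 1) : ℝ) = ((A + d).choose d : ℝ) * (A + d + 1) / (d + 1) := by
      rw [← h2]; field_simp
    rw [h6]
    have hf : (d.factorial : ℝ) ≠ 0 := by exact_mod_cast d.factorial_ne_zero
    have hc : (0 : ℝ) ≤ ((A + d).choose d : ℝ) := Nat.cast_nonneg _
    calc ((A + d).choose d : ℝ) * (A + d + 1) / (d + 1)
        ≤ ((A + 1) * ((2 * (m : ℝ)) ^ (d - 1) / (d.factorial : ℝ))) * (2 * m) / (d + 1) := by
          apply div_le_div_of_nonneg_right _ hd0.le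
          exact mul_le_mul h1 h5 (by positivity) (by positivity)
      _ = (A + 1) * ((2 * (m : ℝ)) ^ (d + 1 - 1) / ((d + 1).factorial : ℝ)) := by
          rw [Nat.add_sub_cancel, Nat.factorial_succ]
          obtain ⟨e, rfl⟩ : ∃ e, d = e + 1 := ⟨d - 1, by omega⟩
          rw [Nat.add_sub_cancel, pow_succ]
          push_cast
          field_simp

theorem W'_mul_le {m j d : ℕ} (hj : 1 ≤ j) (hd : 1 ≤ d) :
    W' m j * W' m d ≤ 2 ^ (j + d - 2) * W' m (j + d - 1) := by
  obtain ⟨u, rfl⟩ : ∃ u, j = u + 1 := ⟨j - 1, by omega⟩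
  obtain ⟨e, rfl⟩ : ∃ e, d = e + 1 := ⟨d - 1, by omega⟩
  rw [show u + 1 + (e + 1) - 2 = u + e by omega, show u + 1 + (e + 1) - 1 = u + e + 1 by omega]
  unfold W'
  rw [Nat.add_sub_cancel, Nat.add_sub_cancel, Nat.add_sub_cancel]
  have h1 : ((u + e).choose u : ℝ) ≤ 2 ^ (u + e) := by
    exact_mod_cast Nat.choose_le_two_pow (u + e) u
  have h2 : ((u + e).choose u : ℝ) * (u.factorial : ℝ) * (e.factorial : ℝ) =
      ((u + e).factorial : ℝ) := by
    have := Nat.choose_mul_factorial_mul_factorial (show u ≤ u + e by omega)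
    rw [Nat.add_sub_cancel_left] at this
    exact_mod_cast this
  have hu : (0 : ℝ) < (u.factorial : ℝ) := by exact_mod_cast u.factorial_pos
  have he : (0 : ℝ) < (e.factorial : ℝ) := by exact_mod_cast e.factorial_pos
  have hue : (0 : ℝ) < ((u + e).factorial : ℝ) := by exact_mod_cast (u + e).factorial_pos
  rw [div_mul_div_comm, ← pow_add, ← mul_div_assoc, div_le_div_iff₀ (by positivity) hue]
  have h3 : ((u + e).factorial : ℝ) ≤ 2 ^ (u + e) * ((u.factorial : ℝ) * (e.factorial : ℝ)) := by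
    rw [← h2, mul_assoc]
    exact mul_le_mul_of_nonneg_right h1 (by positivity)
  calc (64 * (m : ℝ)) ^ (u + e) * ((u + e).factorial : ℝ)
      ≤ (64 * (m : ℝ)) ^ (u + e) * (2 ^ (u + e) * ((u.factorial : ℝ) * (e.factorial : ℝ))) :=
        mul_le_mul_of_nonneg_left h3 (by positivity)
    _ = 2 ^ (u + e) * (64 * (m : ℝ)) ^ (u + e) * ((u.factorial : ℝ) * (e.factorial : ℝ)) := by ring

/-- one term of the sum estimate -/
theorem term_le {m A b j d : ℕ} (hA : A ≤ m) (hbm : b ≤ m) (hj : 1 ≤ j) (hd : 1 ≤ d)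
    (hjd : j * d ≤ b) :
    W' m j * ((A + d).choose d : ℝ) * 8 ^ (b - j) ≤ (A + 1) * W' m b := by
  have hm : 1 ≤ m := by nlinarith
  have hjb : j ≤ b := by nlinarith
  have hdb : d ≤ b := by nlinarith
  have hA0 : (0 : ℝ) ≤ (A : ℝ) + 1 := by positivity
  have hWj := W'_pos hm j
  have hWb := W'_pos hm b
  rcases Nat.eq_or_lt_of_le hd with h1 | h1
  · rw [← h1]
    have h2 := W'_growth (m := m) hj b hjb (by omega)
    have h3 : (8 : ℝ) ^ (b - j) ≤ 64 ^ (b - j) := pow_le_pow_left₀ (by norm_num) (by norm_num) _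
    rw [Nat.choose_one_right]
    push_cast
    calc W' m j * ((A : ℝ) + 1) * 8 ^ (b - j) = (A + 1) * (W' m j * 8 ^ (b - j)) := by ring
      _ ≤ (A + 1) * (W' m j * 64 ^ (b - j)) :=
          mul_le_mul_of_nonneg_left (mul_le_mul_of_nonneg_left h3 hWj.le) hA0
      _ ≤ (A + 1) * W' m b := mul_le_mul_of_nonneg_left h2 hA0
  · -- `d ≥ 2`
    have c1 := choose_le hA d hd (by omega)
    have c2 : (2 * (m : ℝ)) ^ (d - 1) / (d.factorial : ℝ) * 32 ^ (d - 1) ≤ W' m d := by
      unfold W'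
      rw [div_mul_eq_mul_div, ← mul_pow, show 2 * (m : ℝ) * 32 = 64 * m by ring]
      apply div_le_div_of_nonneg_left (by positivity) (by positivity)
      exact_mod_cast Nat.factorial_le (by omega)
    have c3 := W'_mul_le (m := m) hj hd
    have hsum : j + d - 1 ≤ b := by
      have : j + d ≤ j * d + 1 := by
        obtain ⟨u, rfl⟩ : ∃ u, j = u + 1 := ⟨j - 1, by omega⟩
        obtain ⟨e, rfl⟩ : ∃ e, d = e + 1 := ⟨d - 1, by omega⟩
        nlinarith
      omega
    have c4 := W'_growth (m := m) (by omega : 1 ≤ j + d - 1) b hsum (by omega)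
    have hbj1 : j ≤ b - j := by
      have : j * 2 ≤ j * d := Nat.mul_le_mul_left j h1
      omega
    have hbj2 : d - 1 ≤ b - j := by omega
    -- exponents
    have hexp : (2 : ℝ) ^ (j + d - 2) * 8 ^ (b - j) ≤ 32 ^ (d - 1) * 64 ^ (b - (j + d - 1)) := by
      rw [show (8 : ℝ) = 2 ^ 3 by norm_num, show (32 : ℝ) = 2 ^ 5 by norm_num,
        show (64 : ℝ) = 2 ^ 6 by norm_num, ← pow_mul, ← pow_mul, ← pow_mul, ← pow_add, ← pow_add]
      apply pow_le_pow_right₀ (by norm_num)
      omega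
    have h32 : (0 : ℝ) < 32 ^ (d - 1) := by positivity
    have h64 : (0 : ℝ) < 64 ^ (b - (j + d - 1)) := by positivity
    have hfin : W' m j * ((2 * (m : ℝ)) ^ (d - 1) / (d.factorial : ℝ)) * 8 ^ (b - j) ≤ W' m b := by
      have e1 : (W' m j * ((2 * (m : ℝ)) ^ (d - 1) / (d.factorial : ℝ)) * 8 ^ (b - j)) *
          (32 ^ (d - 1) * 64 ^ (b - (j + d - 1))) ≤ W' m b * (32 ^ (d - 1) * 64 ^ (b - (j + d - 1))) := by
        calc (W' m j * ((2 * (m : ℝ)) ^ (d - 1) / (d.factorial : ℝ)) * 8 ^ (b - j)) *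
              (32 ^ (d - 1) * 64 ^ (b - (j + d - 1)))
            = W' m j * ((2 * (m : ℝ)) ^ (d - 1) / (d.factorial : ℝ) * 32 ^ (d - 1)) * 8 ^ (b - j) *
              64 ^ (b - (j + d - 1)) := by ring
          _ ≤ W' m j * W' m d * 8 ^ (b - j) * 64 ^ (b - (j + d - 1)) := by
              apply mul_le_mul_of_nonneg_right _ h64.le
              apply mul_le_mul_of_nonneg_right _ (by positivity)
              exact mul_le_mul_of_nonneg_left c2 hWj.le
          _ ≤ (2 ^ (j + d - 2) * W' m (j + d - 1)) * 8 ^ (b - j) * 64 ^ (b - (j + d - 1)) := by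
              apply mul_le_mul_of_nonneg_right _ h64.le
              exact mul_le_mul_of_nonneg_right c3 (by positivity)
          _ = (W' m (j + d - 1) * 64 ^ (b - (j + d - 1))) * (2 ^ (j + d - 2) * 8 ^ (b - j)) := by ring
          _ ≤ W' m b * (32 ^ (d - 1) * 64 ^ (b - (j + d - 1))) :=
              mul_le_mul c4 hexp (by positivity) hWb.le
      exact le_of_mul_le_mul_right e1 (by positivity)
    calc W' m j * ((A + d).choose d : ℝ) * 8 ^ (b - j)
        ≤ W' m j * ((A + 1) * ((2 * (m : ℝ)) ^ (d - 1) / (d.factorial : ℝ))) * 8 ^ (b - j) := by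
          apply mul_le_mul_of_nonneg_right _ (by positivity)
          exact mul_le_mul_of_nonneg_left c1 hWj.le
      _ = (A + 1) * (W' m j * ((2 * (m : ℝ)) ^ (d - 1) / (d.factorial : ℝ)) * 8 ^ (b - j)) := by ring
      _ ≤ (A + 1) * W' m b := mul_le_mul_of_nonneg_left hfin hA0

variable {V : Type*} [DecidableEq V]

/-- the sum estimate below the cap -/
theorem sum_W_le {m q : ℕ} {r : V → V → Prop} (hs : ∀ u v, r u v → r v u)
    {y : V → ℕ} (hy : ∀ v, 1 ≤ y v) (S : Finset V) {A b : ℕ} (hA : A ≤ m) (hA1 : 1 ≤ A) (hbq : b ≤ q)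
    (hbm : b ≤ m) (Ha : Bd r S (fun _ => 1) A) (Hb : Bd (fun u v => ¬ r u v) S y b) :
    ∑ v ∈ S, W m q (y v) ≤ 4 * A * W m q b := by
  classical
  rcases S.eq_empty_or_nonempty with rfl | ⟨v0, hv0⟩
  · simp only [Finset.sum_empty]
    have := W_nonneg (show 1 ≤ m by omega) q b
    positivity
  have hb1 : 1 ≤ b := (hy v0).trans (Hb.single hv0)
  have hm : 1 ≤ m := by omega
  have hWb := W'_pos hm b
  rw [W_low hb1 hbq]
  have hs' : ∀ u v, ¬ r u v → ¬ r v u := fun u v h h' => h (hs _ _ h')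
  have h1 : ∑ v ∈ S, W m q (y v) ≤ ∑ v ∈ S, ∑ i ∈ Finset.range b,
      if i + 1 ≤ y v then W' m (i + 1) else 0 := by
    apply Finset.sum_le_sum
    intro v hv
    have h2 := Hb.single hv
    rw [W_low (hy v) (by omega)]
    have h3 : (if (y v - 1) + 1 ≤ y v then W' m ((y v - 1) + 1) else 0) ≤
        ∑ i ∈ Finset.range b, if i + 1 ≤ y v then W' m (i + 1) else 0 := by
      apply Finset.single_le_sum (f := fun i => if i + 1 ≤ y v then W' m (i + 1) else 0)
      · intro i _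
        show 0 ≤ (if i + 1 ≤ y v then W' m (i + 1) else 0)
        split_ifs
        · exact (W'_pos hm _).le
        · exact le_rfl
      · have := hy v
        rw [Finset.mem_range]; omega
    have := hy v
    rw [Nat.sub_add_cancel this, if_pos le_rfl] at h3
    exact h3
  refine h1.trans ?_
  rw [Finset.sum_comm]
  have h4 : ∀ i ∈ Finset.range b, (∑ v ∈ S, if i + 1 ≤ y v then W' m (i + 1) else 0) ≤
      ((A : ℝ) + 1) * W' m b * ((1 / 8 : ℝ) ^ (b - 1 - i)) := by
    intro i hi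
    rw [Finset.mem_range] at hi
    rw [← Finset.sum_filter, Finset.sum_const, nsmul_eq_mul]
    set T := S.filter (fun v => i + 1 ≤ y v) with hT
    have e1 : Bd r T (fun _ => 1) A := Ha.mono (Finset.filter_subset _ _)
    have e2 : Bd (fun u v => ¬ r u v) T (fun _ => 1) (b / (i + 1)) :=
      Hb.large (by omega) (Finset.filter_subset _ _) (fun v hv => (Finset.mem_filter.1 hv).2)
    have e3 := card_le_choose hs T A (b / (i + 1)) e1 e2
    have hd : 1 ≤ b / (i + 1) := by
      rw [Nat.le_div_iff_mul_le (by omega)]; omega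
    have e4 : (T.card : ℝ) ≤ ((A + b / (i + 1)).choose (b / (i + 1)) : ℝ) := by
      have : (A + b / (i + 1)).choose A = (A + b / (i + 1)).choose (b / (i + 1)) := by
        rw [← Nat.choose_symm_of_eq_add rfl]
      rw [this] at e3
      exact_mod_cast (by omega : T.card ≤ (A + b / (i + 1)).choose (b / (i + 1)))
    have e5 := term_le hA hbm (show 1 ≤ i + 1 by omega) hd (Nat.mul_div_le b (i + 1))
    have hW := W'_pos hm (i + 1)
    have h8 : (0 : ℝ) < 8 ^ (b - (i + 1)) := by positivity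
    have e6 : (T.card : ℝ) * W' m (i + 1) * 8 ^ (b - (i + 1)) ≤ (A + 1) * W' m b := by
      refine le_trans ?_ e5
      apply mul_le_mul_of_nonneg_right _ h8.le
      rw [mul_comm]
      exact mul_le_mul_of_nonneg_left e4 hW.le
    rw [show b - 1 - i = b - (i + 1) by omega, one_div, inv_pow, ← div_eq_mul_inv, le_div_iff₀ h8]
    exact e6
  refine (Finset.sum_le_sum h4).trans ?_
  rw [← Finset.mul_sum, Finset.sum_range_reflect (fun i => (1 / 8 : ℝ) ^ i) b]
  have h5 : ∑ i ∈ Finset.range b, (1 / 8 : ℝ) ^ i ≤ 2 := by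
    rw [geom_sum_eq (by norm_num)]
    have : (0 : ℝ) ≤ (1 / 8) ^ b := by positivity
    rw [div_le_iff_of_neg (by norm_num)]
    linarith
  have hA2 : (A : ℝ) + 1 ≤ 2 * A := by
    have : (1 : ℝ) ≤ A := by exact_mod_cast hA1
    linarith
  have h6 : 0 ≤ ((A : ℝ) + 1) * W' m b := by positivity
  calc ((A : ℝ) + 1) * W' m b * ∑ i ∈ Finset.range b, (1 / 8 : ℝ) ^ i
      ≤ ((A : ℝ) + 1) * W' m b * 2 := mul_le_mul_of_nonneg_left h5 h6
    _ ≤ (2 * A) * W' m b * 2 := by
        apply mul_le_mul_of_nonneg_right _ (by norm_num)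
        exact mul_le_mul_of_nonneg_right hA2 hWb.le
    _ = 4 * A * W' m b := by ring

end Pool.Agent.helper21.GR
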