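import Pool.Agent.helper21.GR.Base

/-! The weighted two-colour inequality (for MP_89787e_co). -/

set_option autoImplicit false

namespace Pool.Agent.helper21.GR

/-! ### the weight -/

/-- the exponent -/
@[irreducible] def kap : ℕ := 73

theorem kap_eq : kap = 73 := by unfold kap; rfl

/-- exponential up to `h + 1`, then polynomial -/
noncomputable def w (h a : ℕ) : ℝ :=
  if a = 0 then 0 else if a ≤ h + 1 then 64 ^ (a - 1) else 64 ^ h * ((a : ℝ) / (h + 1)) ^ kap

theorem w_zero (h : ℕ) : w h 0 = 0 := by simp [w]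

theorem w_exp {h a : ℕ} (ha : 1 ≤ a) (ha' : a ≤ h + 1) : w h a = 64 ^ (a - 1) := by
  unfold w
  rw [if_neg (by omega), if_pos ha']

theorem w_z {h a : ℕ} (ha' : a ≤ h + 1) : w h a = z a := by
  unfold w z
  rw [if_pos ha']

theorem w_flat {h a : ℕ} (ha : h + 1 ≤ a) : w h a = 64 ^ h * ((a : ℝ) / (h + 1)) ^ kap := by
  unfold w
  rw [if_neg (by omega)]
  split_ifs with h1
  · have : a = h + 1 := le_antisymm h1 ha
    subst this
    have h2 : ((h + 1 : ℕ) : ℝ) / (h + 1) = 1 := by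
      push_cast
      exact div_self (by positivity)
    rw [h2]; simp
  · rfl

theorem w_nonneg (h a : ℕ) : 0 ≤ w h a := by
  unfold w; split_ifs <;> positivity

theorem w_one (h : ℕ) : w h 1 = 1 := by
  rw [w_exp le_rfl (by omega)]; simp

theorem step_aux (n : ℕ) (hn : 73 ≤ n) : ((n : ℝ) + 1) ^ 73 ≤ 64 * (n : ℝ) ^ 73 := by
  have hn' : (73 : ℝ) ≤ n := by exact_mod_cast hn
  have hpos : (0 : ℝ) < n := by linarith
  have h1 : (n : ℝ) + 1 ≤ n * Real.exp (1 / 73) := by
    have := Real.add_one_le_exp (1 / 73 : ℝ)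
    have h2 : (1 : ℝ) ≤ n * (1 / 73) := by
      rw [mul_one_div, le_div_iff₀ (by norm_num)]; linarith
    nlinarith
  calc ((n : ℝ) + 1) ^ 73 ≤ (n * Real.exp (1 / 73)) ^ 73 :=
        pow_le_pow_left₀ (by positivity) h1 _
    _ = n ^ 73 * Real.exp 1 := by
        rw [mul_pow, ← Real.exp_nat_mul]
        congr 2
        norm_num
    _ ≤ n ^ 73 * 64 := by
        have := Real.exp_one_lt_d9
        apply mul_le_mul_of_nonneg_left _ (by positivity)
        linarith
    _ = 64 * (n : ℝ) ^ 73 := mul_comm _ _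

theorem step_kap (n : ℕ) (hn : 73 ≤ n) : (((n + 1 : ℕ) : ℝ)) ^ kap ≤ 64 * (n : ℝ) ^ kap := by
  rw [kap_eq]
  push_cast
  exact step_aux n hn

theorem big_aux (q : ℕ) (hq : 200 ≤ q) : (q : ℝ) ^ kap ≤ 64 ^ (q - 73) := by
  induction q, hq using Nat.le_induction with
  | base => rw [kap_eq]; norm_num
  | succ q hq ih =>
    have := step_kap q (by omega)
    rw [show q + 1 - 73 = (q - 73) + 1 by omega, pow_succ, mul_comm _ (64 : ℝ)]
    exact this.trans (mul_le_mul_of_nonneg_left ih (by norm_num))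

theorem mid_aux (x : ℕ) (hx : 73 ≤ x) (q : ℕ) (hq : x ≤ q) :
    (q : ℝ) ^ kap ≤ 64 ^ (q - x) * (x : ℝ) ^ kap := by
  induction q, hq using Nat.le_induction with
  | base => simp
  | succ q hq ih =>
    have := step_kap q (by omega)
    rw [show q + 1 - x = (q - x) + 1 by omega, pow_succ, mul_comm _ (64 : ℝ), mul_assoc]
    exact this.trans (mul_le_mul_of_nonneg_left ih (by norm_num))

theorem p1_aux (h x : ℕ) (hh : 199 ≤ h) (hx : 1 ≤ x) (hxq : x ≤ h + 1) :
    (64 : ℝ) ^ (x - 1) ≤ 64 ^ h * ((x : ℝ) / (h + 1)) ^ kap := by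
  rw [div_pow, ← mul_div_assoc, le_div_iff₀ (by positivity)]
  rcases Nat.lt_or_ge x 73 with hx' | hx'
  · have h1 := big_aux (h + 1) (by omega)
    push_cast at h1
    have h2 : (1 : ℝ) ≤ (x : ℝ) ^ kap := one_le_pow₀ (by exact_mod_cast hx)
    calc (64 : ℝ) ^ (x - 1) * ((h : ℝ) + 1) ^ kap ≤ 64 ^ (x - 1) * 64 ^ (h + 1 - 73) :=
          mul_le_mul_of_nonneg_left h1 (by positivity)
      _ = 64 ^ (x - 1 + (h + 1 - 73)) := by rw [pow_add]
      _ ≤ 64 ^ h := pow_le_pow_right₀ (by norm_num) (by omega)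
      _ = 64 ^ h * 1 := by rw [mul_one]
      _ ≤ 64 ^ h * (x : ℝ) ^ kap := mul_le_mul_of_nonneg_left h2 (by positivity)
  · have h1 := mid_aux x hx' (h + 1) hxq
    push_cast at h1
    calc (64 : ℝ) ^ (x - 1) * ((h : ℝ) + 1) ^ kap
        ≤ 64 ^ (x - 1) * (64 ^ (h + 1 - x) * (x : ℝ) ^ kap) :=
          mul_le_mul_of_nonneg_left h1 (by positivity)
      _ = 64 ^ (x - 1 + (h + 1 - x)) * (x : ℝ) ^ kap := by rw [pow_add, mul_assoc]
      _ = 64 ^ h * (x : ℝ) ^ kap := by congr 2; omega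

/-- the weight below a flat point -/
theorem w_le_pow {h x b : ℕ} (hh : 199 ≤ h) (hb : h + 1 ≤ b) :
    w h x ≤ w h b * ((x : ℝ) / b) ^ kap := by
  have hb0 : (0 : ℝ) < b := by exact_mod_cast (by omega : 0 < b)
  have key : w h b * ((x : ℝ) / b) ^ kap = 64 ^ h * ((x : ℝ) / (h + 1)) ^ kap := by
    rw [w_flat hb, mul_assoc, ← mul_pow]
    congr 2
    field_simp
  rw [key]
  rcases Nat.eq_zero_or_pos x with rfl | hx
  · rw [w_zero]; positivity
  rcases Nat.lt_or_ge x (h + 1) with hx' | hx'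
  · rw [w_exp hx hx'.le]
    exact p1_aux h x hh hx hx'.le
  · rw [w_flat hx']

theorem w_flat_ge {h b : ℕ} (hb : h + 1 ≤ b) : (64 : ℝ) ^ h ≤ w h b := by
  rw [w_flat hb]
  have : (1 : ℝ) ≤ (b : ℝ) / (h + 1) := by
    rw [one_le_div (by positivity)]
    exact_mod_cast hb
  have h2 := one_le_pow₀ this (n := kap)
  have h3 : (0 : ℝ) < 64 ^ h := by positivity
  nlinarith

theorem w_mono {h a b : ℕ} (hab : a ≤ b) : w h a ≤ w h b := by
  rcases Nat.eq_zero_or_pos a with rfl | ha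
  · rw [w_zero]; exact w_nonneg _ _
  rcases Nat.lt_or_ge b (h + 1) with hb | hb
  · rw [w_exp ha (by omega), w_exp (by omega) hb.le]
    exact pow_le_pow_right₀ (by norm_num) (by omega)
  rcases Nat.lt_or_ge a (h + 1) with ha' | ha'
  · rw [w_exp ha ha'.le]
    exact (pow_le_pow_right₀ (by norm_num) (by omega)).trans (w_flat_ge hb)
  · rw [w_flat hb, w_flat ha']
    gcongr

theorem one_le_w {h a : ℕ} (ha : 1 ≤ a) : 1 ≤ w h a := by
  rw [← w_one h]; exact w_mono ha

theorem w_small_left {h a i : ℕ} (ha : a ≤ h + 1) (hi : 1 ≤ i) (hia : i < a) :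
    w h i ≤ w h a / 64 := by
  rw [w_exp hi (by omega), w_exp (by omega) ha, le_div_iff₀ (by norm_num), ← pow_succ]
  exact pow_le_pow_right₀ (by norm_num) (by omega)

theorem w_small_right {h a i : ℕ} (ha : a ≤ h + 1) (hi : 1 ≤ i) (hia : i < a) :
    w h (a - i) ≤ w h a / 64 := w_small_left ha (by omega) (by omega)

/-! ### scalar inequalities -/

theorem c72 : (71 / 72 : ℝ) ^ 72 ≤ 1 / 2 := by norm_num

theorem kap_ne : kap ≠ 0 := by rw [kap_eq]; norm_num

theorem kap_pos : 1 ≤ kap := by rw [kap_eq]; norm_num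

theorem half_kap {t : ℝ} (h1 : 1 / 72 ≤ t) (h2 : t ≤ 1) : (1 - t) ^ kap ≤ (1 - t) * (1 / 2) := by
  have e2 : (1 - t) ^ 72 ≤ 1 / 2 := by
    calc (1 - t) ^ 72 ≤ (71 / 72 : ℝ) ^ 72 := by
          apply pow_le_pow_left₀ (by linarith); linarith
      _ ≤ 1 / 2 := c72
  rw [kap_eq, show (73 : ℕ) = 72 + 1 by norm_num, pow_succ, mul_comm]
  exact mul_le_mul_of_nonneg_left e2 (by linarith)

theorem pow_kap_le {t : ℝ} (h1 : 0 ≤ t) (h2 : t ≤ 1) : t ^ kap ≤ t := by
  calc t ^ kap ≤ t ^ 1 := pow_le_pow_of_le_one h1 h2 kap_pos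
    _ = t := pow_one t

theorem f_aux {t : ℝ} (h1 : 1 / 72 ≤ t) (h2 : t ≤ 1) : t ^ kap + 2 * (1 - t) ^ kap ≤ 1 := by
  have e1 := pow_kap_le (by linarith : 0 ≤ t) h2
  have e3 := half_kap h1 h2
  linarith

theorem pow_add_le {t : ℝ} (h1 : 0 ≤ t) (h2 : t ≤ 1) : t ^ kap + (1 - t) ^ kap ≤ 1 := by
  have e1 := pow_kap_le h1 h2
  have e2 := pow_kap_le (by linarith : 0 ≤ 1 - t) (by linarith)
  linarith

theorem macro_aux {s t : ℝ} (hs1 : 1 / 72 ≤ s) (hs2 : s ≤ 1) (ht1 : 1 / 72 ≤ t) (ht2 : t ≤ 1) :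
    s ^ kap * t ^ kap + (1 - s) ^ kap + (1 - t) ^ kap ≤ 1 := by
  have fs := f_aux hs1 hs2
  have ft := f_aux ht1 ht2
  have s0 : 0 ≤ s ^ kap := by positivity
  have t0 : 0 ≤ t ^ kap := by positivity
  have P0 : 0 ≤ (1 - s) ^ kap := pow_nonneg (by linarith) _
  have Q0 : 0 ≤ (1 - t) ^ kap := pow_nonneg (by linarith) _
  set P := (1 - s) ^ kap
  set Q := (1 - t) ^ kap
  have h1 : s ^ kap ≤ 1 - 2 * P := by linarith
  have h2 : t ^ kap ≤ 1 - 2 * Q := by linarith
  have h3 : s ^ kap * t ^ kap ≤ (1 - 2 * P) * (1 - 2 * Q) := by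
    apply mul_le_mul h1 h2 t0; linarith
  have h4 : 4 * (P * Q) ≤ P + Q := by
    have a1 : 2 * P ≤ 1 := by linarith
    have a2 : 2 * Q ≤ 1 := by linarith
    nlinarith
  nlinarith

/-- the recursion inequality -/
theorem es_ineq {h a b i j : ℕ} (hh : 199 ≤ h) (hi : 1 ≤ i) (hia : i ≤ a) (hj : 1 ≤ j) (hjb : j ≤ b)
    (hcase : (a ≤ h + 1 ∧ b ≤ h + 1) ∨ (a ≤ h + 1 ∧ h + 1 ≤ b ∧ (i = a ∨ b ≤ 72 * j)) ∨
      (b ≤ h + 1 ∧ h + 1 ≤ a ∧ (j = b ∨ a ≤ 72 * i)) ∨
      (h + 1 ≤ a ∧ h + 1 ≤ b ∧ a ≤ 72 * i ∧ b ≤ 72 * j)) :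
    w h i * w h j + w h (a - i) * w h b + w h a * w h (b - j) ≤ w h a * w h b := by
  have A0 := w_nonneg h a
  have B0 := w_nonneg h b
  have I0 := w_nonneg h i
  have J0 := w_nonneg h j
  have IA := w_mono (h := h) hia
  have JB := w_mono (h := h) hjb
  have AB0 : 0 ≤ w h a * w h b := mul_nonneg A0 B0
  -- one small coordinate, the other flat
  have half : ∀ a b i j : ℕ, 1 ≤ i → i ≤ a → 1 ≤ j → j ≤ b → a ≤ h + 1 → h + 1 ≤ b →
      (i = a ∨ b ≤ 72 * j) →
      w h i * w h j + w h (a - i) * w h b + w h a * w h (b - j) ≤ w h a * w h b := by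
    intro a b i j hi hia hj hjb ha hb hc
    have A0 := w_nonneg h a
    have B0 := w_nonneg h b
    have I0 := w_nonneg h i
    have J0 := w_nonneg h j
    have hbpos : (0 : ℝ) < b := by exact_mod_cast (by omega : 0 < b)
    have t1 : (j : ℝ) / b ≤ 1 := by
      rw [div_le_one hbpos]; exact_mod_cast hjb
    have t0 : 0 ≤ (j : ℝ) / b := by positivity
    have q1 := w_le_pow (x := j) hh hb
    have q2 := w_le_pow (x := b - j) hh hb
    have e : ((b - j : ℕ) : ℝ) / b = 1 - (j : ℝ) / b := by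
      rw [Nat.cast_sub hjb, sub_div, div_self hbpos.ne']
    rw [e] at q2
    rcases Nat.lt_or_ge i a with hlt | hge
    · rcases hc with hc | hc
      · omega
      have t2 : 1 / 72 ≤ (j : ℝ) / b := by
        rw [div_le_div_iff₀ (by norm_num) hbpos]
        have : (b : ℝ) ≤ 72 * j := by exact_mod_cast hc
        linarith
      have f := f_aux t2 t1
      have tp : 0 ≤ ((j : ℝ) / b) ^ kap := by positivity
      have q3 : w h (b - j) ≤ w h b * (1 / 2) := by
        refine q2.trans (mul_le_mul_of_nonneg_left ?_ B0)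
        linarith
      have s1 := w_small_left ha hi hlt
      have s2 := w_small_right ha hi hlt
      have JB := w_mono (h := h) hjb
      have m1 : w h i * w h j ≤ w h a / 64 * w h b := mul_le_mul s1 JB J0 (by positivity)
      have m2 : w h (a - i) * w h b ≤ w h a / 64 * w h b := mul_le_mul_of_nonneg_right s2 B0
      have m3 : w h a * w h (b - j) ≤ w h a * (w h b * (1 / 2)) := mul_le_mul_of_nonneg_left q3 A0
      have AB0 : 0 ≤ w h a * w h b := mul_nonneg A0 B0
      nlinarith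
    · have hi' : i = a := le_antisymm hia hge
      subst hi'
      rw [Nat.sub_self, w_zero, zero_mul, add_zero, ← mul_add]
      apply mul_le_mul_of_nonneg_left _ A0
      have p := pow_add_le t0 t1
      calc w h j + w h (b - j) ≤ w h b * ((j : ℝ) / b) ^ kap + w h b * (1 - (j : ℝ) / b) ^ kap :=
            add_le_add q1 q2
        _ = w h b * (((j : ℝ) / b) ^ kap + (1 - (j : ℝ) / b) ^ kap) := by ring
        _ ≤ w h b * 1 := mul_le_mul_of_nonneg_left p B0
        _ = w h b := mul_one _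
  rcases hcase with ⟨ha, hb⟩ | ⟨ha, hb, hc⟩ | ⟨hb, ha, hc⟩ | ⟨ha, hb, hi2, hj2⟩
  · rcases Nat.lt_or_ge i a with hlt | hge
    · have s1 := w_small_left ha hi hlt
      have s2 := w_small_right ha hi hlt
      have m1 : w h i * w h j ≤ w h a / 64 * w h b := mul_le_mul s1 JB J0 (by positivity)
      have m2 : w h (a - i) * w h b ≤ w h a / 64 * w h b := mul_le_mul_of_nonneg_right s2 B0
      rcases Nat.lt_or_ge j b with hlt' | hge'
      · have s3 := w_small_right hb hj hlt'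
        have m3 : w h a * w h (b - j) ≤ w h a * (w h b / 64) := mul_le_mul_of_nonneg_left s3 A0
        nlinarith
      · have : b - j = 0 := by omega
        rw [this, w_zero]
        nlinarith
    · have hi' : a - i = 0 := by omega
      rw [hi', w_zero, zero_mul, add_zero]
      rcases Nat.lt_or_ge j b with hlt' | hge'
      · have s3 := w_small_right hb hj hlt'
        have s4 := w_small_left hb hj hlt'
        have m3 : w h a * w h (b - j) ≤ w h a * (w h b / 64) := mul_le_mul_of_nonneg_left s3 A0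
        have m1 : w h i * w h j ≤ w h a * (w h b / 64) := mul_le_mul IA s4 J0 A0
        nlinarith
      · have : b - j = 0 := by omega
        rw [this, w_zero, mul_zero, add_zero]
        exact mul_le_mul IA JB J0 A0
  · exact half a b i j hi hia hj hjb ha hb hc
  · have := half b a j i hj hjb hi hia hb ha hc
    nlinarith
  · have hbpos : (0 : ℝ) < b := by exact_mod_cast (by omega : 0 < b)
    have hapos : (0 : ℝ) < a := by exact_mod_cast (by omega : 0 < a)
    have t1 : (j : ℝ) / b ≤ 1 := by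
      rw [div_le_one hbpos]; exact_mod_cast hjb
    have s1 : (i : ℝ) / a ≤ 1 := by
      rw [div_le_one hapos]; exact_mod_cast hia
    have t2 : 1 / 72 ≤ (j : ℝ) / b := by
      rw [div_le_div_iff₀ (by norm_num) hbpos]
      have : (b : ℝ) ≤ 72 * j := by exact_mod_cast hj2
      linarith
    have s2 : 1 / 72 ≤ (i : ℝ) / a := by
      rw [div_le_div_iff₀ (by norm_num) hapos]
      have : (a : ℝ) ≤ 72 * i := by exact_mod_cast hi2
      linarith
    have q1 := w_le_pow (x := j) hh hb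
    have q2 := w_le_pow (x := b - j) hh hb
    have e : ((b - j : ℕ) : ℝ) / b = 1 - (j : ℝ) / b := by
      rw [Nat.cast_sub hjb, sub_div, div_self hbpos.ne']
    rw [e] at q2
    have q3 := w_le_pow (x := i) hh ha
    have q4 := w_le_pow (x := a - i) hh ha
    have e' : ((a - i : ℕ) : ℝ) / a = 1 - (i : ℝ) / a := by
      rw [Nat.cast_sub hia, sub_div, div_self hapos.ne']
    rw [e'] at q4
    have mac := macro_aux s2 s1 t2 t1
    have u0 : 0 ≤ w h a * ((i : ℝ) / a) ^ kap := by positivity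
    have m1 : w h i * w h j ≤ (w h a * ((i : ℝ) / a) ^ kap) * (w h b * ((j : ℝ) / b) ^ kap) :=
      mul_le_mul q3 q1 J0 u0
    have m2 : w h (a - i) * w h b ≤ (w h a * (1 - (i : ℝ) / a) ^ kap) * w h b :=
      mul_le_mul_of_nonneg_right q4 B0
    have m3 : w h a * w h (b - j) ≤ w h a * (w h b * (1 - (j : ℝ) / b) ^ kap) :=
      mul_le_mul_of_nonneg_left q2 A0
    calc w h i * w h j + w h (a - i) * w h b + w h a * w h (b - j)
        ≤ (w h a * ((i : ℝ) / a) ^ kap) * (w h b * ((j : ℝ) / b) ^ kap)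
          + (w h a * (1 - (i : ℝ) / a) ^ kap) * w h b
          + w h a * (w h b * (1 - (j : ℝ) / b) ^ kap) := by linarith
      _ = w h a * w h b * (((i : ℝ) / a) ^ kap * ((j : ℝ) / b) ^ kap + (1 - (i : ℝ) / a) ^ kap
          + (1 - (j : ℝ) / b) ^ kap) := by ring
      _ ≤ w h a * w h b * 1 := mul_le_mul_of_nonneg_left mac AB0
      _ = w h a * w h b := mul_one _

end Pool.Agent.helper21.GR
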